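import Mathlib

/-! Definitions: Bernoulli bond percolation, the thresholds `p_u` and `p_h`, the modular function
of a group of graph automorphisms, amenability, growth. -/

open MeasureTheory ProbabilityTheory
open scoped ENNReal

namespace Pool.Agent.P.MP_3aa27f_pr

variable {V : Type*}

/-- Every unordered pair of vertices is declared open independently with probability `p`
(only the pairs that are edges of the graph are used below). -/
noncomputable def percMeasure (V : Type*) (p : unitInterval) : Measure (Sym2 V → Bool) :=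
  Measure.infinitePi fun _ => bernoulliMeasure true false p

/-- The random subgraph `G[p]`: the open edges of `G`. -/
def openGraph (G : SimpleGraph V) (ω : Sym2 V → Bool) : SimpleGraph V where
  Adj x y := G.Adj x y ∧ ω s(x, y) = true
  symm := ⟨fun x y h => ⟨h.1.symm, by rw [Sym2.eq_swap]; exact h.2⟩⟩
  loopless := ⟨fun x h => G.irrefl h.1⟩

/-- The uniqueness threshold `p_u(G)`. -/
noncomputable def pU (G : SimpleGraph V) : ℝ :=
  sInf {p : ℝ | ∃ hp : p ∈ unitInterval, ∀ᵐ ω ∂percMeasure V ⟨p, hp⟩,
    ∃! C : (openGraph G ω).ConnectedComponent, C.supp.Infinite}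

/-- The heaviness threshold for a function `Δ` on pairs of vertices: a cluster `C` is heavy if
`∑_{y ∈ C} Δ(x, y) = ∞` for some vertex `x`. -/
noncomputable def pH (G : SimpleGraph V) (Δ : V → V → ℝ) : ℝ :=
  sInf {p : ℝ | ∃ hp : p ∈ unitInterval, ∀ᵐ ω ∂percMeasure V ⟨p, hp⟩,
    ∃ C : (openGraph G ω).ConnectedComponent, ∃ x : V,
      ∑' y : C.supp, ENNReal.ofReal (Δ x y) = ∞}

/-- The topology of pointwise convergence on `Aut(G)` (vertices carry the discrete topology). -/
instance autTopology (G : SimpleGraph V) : TopologicalSpace (G ≃g G) :=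
  ⨅ v : V, TopologicalSpace.induced (fun g : G ≃g G => g v) ⊥

theorem isOpen_aut_eq {G : SimpleGraph V} (v w : V) : IsOpen {g : G ≃g G | g v = w} := by
  let : TopologicalSpace V := ⊥
  have : DiscreteTopology V := ⟨rfl⟩
  have : Continuous fun g : G ≃g G => g v := continuous_iInf_dom continuous_induced_dom
  exact (isOpen_discrete {w}).preimage this

theorem continuous_aut_iff {G : SimpleGraph V} {X : Type*} [TopologicalSpace X]
    {f : X → G ≃g G} : Continuous f ↔ ∀ v w, IsOpen {x | f x v = w} := by
  refine ⟨fun h v w => (isOpen_aut_eq v w).preimage h, fun h => ?_⟩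
  let : TopologicalSpace V := ⊥
  have : DiscreteTopology V := ⟨rfl⟩
  exact continuous_iInf_rng.2 fun v => continuous_induced_rng.2
    (continuous_discrete_rng.2 fun w => h v w)

instance autTopologicalGroup (G : SimpleGraph V) : IsTopologicalGroup (G ≃g G) where
  continuous_mul := continuous_aut_iff.2 fun v w => by
    have : {x : (G ≃g G) × (G ≃g G) | (x.1 * x.2) v = w} =
        ⋃ u, {g : G ≃g G | g u = w} ×ˢ {g : G ≃g G | g v = u} := by
      ext x; simp
    rw [this]
    exact isOpen_iUnion fun u => (isOpen_aut_eq u w).prod (isOpen_aut_eq v u)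
  continuous_inv := continuous_aut_iff.2 fun v w => by
    have : {g : G ≃g G | g⁻¹ v = w} = {g : G ≃g G | g w = v} := by
      ext g
      exact ⟨fun h => by rw [Set.mem_ofPred_eq, ← h]; simp, fun h => by
        rw [Set.mem_ofPred_eq, ← h]; simp⟩
    rw [this]
    exact isOpen_aut_eq w v

/-- The stabiliser of `v` in the closure of `Γ`. -/
def Stab {G : SimpleGraph V} (Γ : Subgroup (G ≃g G)) (v : V) : Set Γ.topologicalClosure :=
  {g | g.1 v = v}

/-- The modular function `Δ_Γ(u, v) = μ(Stab_v) / μ(Stab_u)`. -/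
noncomputable def modular {G : SimpleGraph V} (Γ : Subgroup (G ≃g G))
    [MeasurableSpace Γ.topologicalClosure] (μ : Measure Γ.topologicalClosure) (u v : V) : ℝ :=
  μ.real (Stab Γ v) / μ.real (Stab Γ u)

/-- `Γ` has finitely many orbits on the vertices. -/
def QuasiTransitive {G : SimpleGraph V} (Γ : Subgroup (G ≃g G)) : Prop :=
  ∃ S : Set V, S.Finite ∧ ∀ v, ∃ g ∈ Γ, g v ∈ S

/-- The edges with exactly one endpoint in `W`. -/
def edgeBoundary (K : SimpleGraph V) (W : Set V) : Set (Sym2 V) :=
  {e ∈ K.edgeSet | ∃ a ∈ W, ∃ c ∉ W, e = s(a, c)}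

/-- `inf |∂_E W| / |W| = 0` over finite nonempty vertex sets `W`. -/
def Amenable (K : SimpleGraph V) : Prop :=
  ∀ ε : ℝ, 0 < ε → ∃ W : Finset V, W.Nonempty ∧
    ((edgeBoundary K W).ncard : ℝ) / W.card < ε

/-- Vertex-transitivity. -/
def VertexTransitive (K : SimpleGraph V) : Prop := ∀ u v, ∃ g : K ≃g K, g u = v

/-- Balls grow subexponentially: for every `c > 1` their sizes are `O(c ^ n)`. -/
def SubexpGrowth (K : SimpleGraph V) : Prop :=
  ∀ c : ℝ, 1 < c → ∃ C : ℝ, ∀ (v : V) (n : ℕ), ({w | K.dist v w ≤ n}.ncard : ℝ) ≤ C * c ^ n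

end Pool.Agent.P.MP_3aa27f_pr
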