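import Pool.Agent.P.MP_3aa27f_pr.PF
import Pool.Agent.P.MP_3aa27f_pr.Defs

/-! Amenability of slabs over horocycles. -/

open SimpleGraph

namespace Pool.Agent.P.MP_3aa27f_pr

variable {α β : Type*} {T : SimpleGraph α} {H : SimpleGraph β} [H.LocallyFinite]

theorem exists_ratio {w : ℕ → ℝ} {c : ℝ} (w0 : 0 < w 0)
    (h : ∃ c' C : ℝ, 0 < c' ∧ c' < c ∧ ∀ n, w n ≤ C * c' ^ n) : ∃ n, w (n + 1) < c * w n := by
  by_contra! hn
  obtain ⟨c', C, h0, h1, h2⟩ := h
  have c0 : 0 < c := h0.trans h1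
  have key : ∀ n, c ^ n * w 0 ≤ w n := fun n => by
    induction n with
    | zero => simp
    | succ n ih =>
      refine le_trans ?_ (hn n)
      rw [pow_succ', mul_assoc]
      exact mul_le_mul_of_nonneg_left ih c0.le
  obtain ⟨n, hn⟩ := pow_unbounded_of_one_lt (C / w 0) ((one_lt_div h0).2 h1)
  rw [div_pow, div_lt_div_iff₀ w0 (pow_pos h0 n)] at hn
  exact absurd ((key n).trans (h2 n)) (not_le.2 hn)

theorem amenable_of_closed (hH : HH H) {Y : Set (α × β)} (U : Finset α) {y₀ : α × β}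
    (h0 : y₀ ∈ Y) (h1 : y₀.1 ∈ U) (hU : ∀ y ∈ Y, ∀ y' ∈ Y, y.1 ∈ U → HA T y y' → y'.1 ∈ U) :
    Amenable ((T.boxProd H).induce Y) := by
  classical
  intro ε hε
  obtain ⟨D, hD⟩ := hH.growth 2 one_lt_two
  have D0 : 0 < D := by
    have h2 : 0 < (bl hH.conn y₀.2 0).card := Finset.card_pos.2 ⟨y₀.2, (mem_bl _).2 (by simp)⟩
    have h3 := hD y₀.2 0
    have : (0 : ℝ) < (bl hH.conn y₀.2 0).card := by exact_mod_cast h2
    simpa using this.trans_le h3
  set W : ℕ → Finset Y := fun L => (U ×ˢ bl hH.conn y₀.2 L).subtype (· ∈ Y) with hW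
  have mW : ∀ L (y : Y), y ∈ W L ↔ y.1.1 ∈ U ∧ H.dist y₀.2 y.1.2 ≤ L := fun L y => by
    simp [hW, mem_bl]
  have ne : ∀ L, (W L).Nonempty := fun L => ⟨⟨y₀, h0⟩, (mW _ _).2 ⟨h1, by simp⟩⟩
  have pos : ∀ L, (0 : ℝ) < (W L).card := fun L => by exact_mod_cast (ne L).card_pos
  have e0 : 0 < ε / (D * 2) := by positivity
  obtain ⟨L, hL⟩ := exists_ratio (w := fun L => ((W L).card : ℝ)) (c := 1 + ε / (D * 2)) (pos 0) (by
    obtain ⟨c', a1, a2⟩ := exists_between (show (1 : ℝ) < 1 + ε / (D * 2) by linarith)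
    obtain ⟨C, hC⟩ := hH.growth c' a1
    refine ⟨c', U.card * C, by linarith, a2, fun n => ?_⟩
    have : (W n).card ≤ U.card * (bl hH.conn y₀.2 n).card := by
      rw [hW, Finset.card_subtype, ← Finset.card_product]
      exact Finset.card_filter_le _ _
    rw [mul_assoc]
    exact le_trans (by exact_mod_cast this)
      (mul_le_mul_of_nonneg_left (hC _ n) (Nat.cast_nonneg _)))
  refine ⟨W L, ne L, ?_⟩
  have sub : W L ⊆ W (L + 1) := fun y hy => by
    rw [mW] at hy ⊢; exact ⟨hy.1, by omega⟩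
  have b1 : edgeBoundary ((T.boxProd H).induce Y) (W L) ⊆
      ↑((W (L + 1) \ W L).biUnion fun c =>
        (({c.1.1} ×ˢ bl hH.conn c.1.2 1).subtype (· ∈ Y)).image fun a => s(a, c)) := by
    rintro _ ⟨he, a, ha, c, hc, rfl⟩
    rw [Finset.mem_coe, mW] at ha
    rw [Finset.mem_coe] at hc
    have hv : VA H a.1 c.1 := (boxProd_adj.1 he).resolve_left fun h =>
      hc ((mW _ _).2 ⟨hU _ a.2 _ c.2 ha.1 h, h.2 ▸ ha.2⟩)
    have := dist_adj_le hH.conn hv.1 y₀.2
    simp only [Finset.coe_biUnion, Set.mem_iUnion, Finset.mem_coe, Finset.mem_sdiff]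
    refine ⟨c, ⟨(mW _ _).2 ⟨hv.2 ▸ ha.1, by omega⟩, hc⟩, Finset.mem_image.2 ⟨a, ?_, rfl⟩⟩
    rw [Finset.mem_subtype, Finset.mem_product, Finset.mem_singleton, mem_bl]
    exact ⟨hv.2, (dist_eq_one_iff_adj.2 hv.1.symm).le⟩
  have b2 := Set.ncard_le_ncard b1 (Finset.finite_toSet _)
  rw [Set.ncard_coe_finset] at b2
  have b3 : ((edgeBoundary ((T.boxProd H).induce Y) (W L)).ncard : ℝ) ≤
      ∑ _c ∈ W (L + 1) \ W L, D * 2 := by
    refine le_trans (by exact_mod_cast b2.trans Finset.card_biUnion_le :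
      _ ≤ ∑ c ∈ W (L + 1) \ W L, (((({c.1.1} ×ˢ bl hH.conn c.1.2 1).subtype (· ∈ Y)).image
        fun a => s(a, c)).card : ℝ)) (Finset.sum_le_sum fun c _ => ?_)
    have : ((({c.1.1} ×ˢ bl hH.conn c.1.2 1).subtype (· ∈ Y)).image fun a => s(a, c)).card ≤
        (bl hH.conn c.1.2 1).card := by
      refine Finset.card_image_le.trans ?_
      rw [Finset.card_subtype]
      exact (Finset.card_filter_le _ _).trans (by simp)
    exact (Nat.cast_le.2 this).trans (by simpa using hD c.1.2 1)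
  rw [Finset.sum_const, Finset.card_sdiff_of_subset sub, nsmul_eq_mul,
    Nat.cast_sub (Finset.card_le_card sub)] at b3
  rw [div_lt_iff₀ (pos L)]
  refine b3.trans_lt ?_
  rw [← lt_div_iff₀ (by positivity), mul_div_right_comm]
  linarith

theorem amenable_of_par (hK : T.Connected) [T.LocallyFinite] (hH : HH H) {Y : Set (α × β)}
    (hY : Y.Nonempty) {f : α → ℝ} {P : α → α} {r A B : ℝ} (hr : 1 < r) (hA : 0 < A)
    (hP : ∀ w, T.Adj w (P w)) (hf : ∀ w, f (P w) = r * f w)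
    (hd : ∀ w w', T.Adj w w' → w' = P w ∨ P w' = w) (hb : ∀ y ∈ Y, A ≤ f y.1 ∧ f y.1 ≤ B) :
    Amenable ((T.boxProd H).induce Y) := by
  classical
  obtain ⟨y₀, h0⟩ := hY
  have it : ∀ j w, f (P^[j] w) = r ^ j * f w ∧ T.dist (P^[j] w) w ≤ j := fun j w => by
    induction j with
    | zero => simp
    | succ j ih =>
      rw [Function.iterate_succ_apply', hf, ih.1, pow_succ', mul_assoc]
      have := tri hK (P (P^[j] w)) (P^[j] w) w
      rw [dist_eq_one_iff_adj.2 (hP _).symm] at this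
      exact ⟨rfl, by omega⟩
  obtain ⟨N, hN⟩ := pow_unbounded_of_one_lt (B / A) hr
  have top : B < f (P^[N] y₀.1) := by
    rw [(it N _).1]
    exact ((div_lt_iff₀ hA).1 hN).trans_le
      (mul_le_mul_of_nonneg_left (hb _ h0).1 (by positivity))
  have h1 : ∃ j, P^[j] y₀.1 = P^[N] y₀.1 := ⟨N, rfl⟩
  generalize P^[N] y₀.1 = o at top h1
  obtain ⟨M, hM⟩ := pow_unbounded_of_one_lt (f o / A) hr
  have fin : {w | A ≤ f w ∧ ∃ j, P^[j] w = o}.Finite := by
    refine (ball_finite hK o M).subset ?_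
    rintro w ⟨a1, j, rfl⟩
    refine (it j w).2.trans (le_of_not_gt fun h => ?_)
    rw [(it j w).1, div_lt_iff₀ hA] at hM
    exact absurd hM (not_lt.2 (mul_le_mul (pow_le_pow_right₀ hr.le h.le) a1 hA.le (by positivity)))
  refine amenable_of_closed hH fin.toFinset h0 (fin.mem_toFinset.2 ⟨(hb _ h0).1, h1⟩)
    fun y hy y' hy' a1 a2 => fin.mem_toFinset.2 ⟨(hb _ hy').1, ?_⟩
  obtain ⟨-, j, e⟩ := fin.mem_toFinset.1 a1
  rcases hd _ _ a2.1 with h | h
  · cases j with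
    | zero => exact absurd (hb _ hy).2 (not_le.2 (by rwa [← e] at top))
    | succ j => exact ⟨j, by rw [h, ← e, Function.iterate_succ_apply]⟩
  · exact ⟨j + 1, by rw [Function.iterate_succ_apply, h, e]⟩

end Pool.Agent.P.MP_3aa27f_pr
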