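import Pool.Agent.P.MP_3aa27f_pr.Prob

/-! Sections, Lipschitz continuity and monotonicity in the parameter, the van den Berg-Kesten
inequality, conditioning on a block of coordinates, and a product bound for branching. -/

open MeasureTheory ProbabilityTheory unitInterval

namespace Pool.Agent.P.MP_3aa27f_pr

variable {ι : Type*}

open Classical in
/-- section of an event at a coordinate -/
def sec (A : Set (ι → Bool)) (i : ι) (b : Bool) : Set (ι → Bool) :=
  {ω | Function.update ω i b ∈ A}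

open Classical in
theorem ow_single (i : ι) (b : Bool) (ω : ι → Bool) :
    ow {i} (fun _ => b) ω = Function.update ω i b := by
  funext j
  by_cases h : j = i
  · subst h; simp [ow]
  · simp [ow, h]

theorem sec_eq (A : Set (ι → Bool)) (i : ι) (b : Bool) :
    sec A i b = {ω | ow {i} (fun _ => b) ω ∈ A} := by
  ext ω; simp only [sec, Set.mem_ofPred_eq, ow_single]

theorem Loc.sec {A : Set (ι → Bool)} (h : Loc A) (i : ι) (b : Bool) : Loc (sec A i b) := by
  rw [sec_eq]; exact h.ow _ _

theorem Pr_sec (π : ι → I) {A : Set (ι → Bool)} (hA : Loc A) (i : ι) :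
    Pr π A = (1 - π i) * Pr π (sec A i false) + π i * Pr π (sec A i true) := by
  have h1 := Pr_ow_mul π hA {i} (fun _ => false)
  have h2 := Pr_ow_mul π hA {i} (fun _ => true)
  rw [← sec_eq] at h1 h2
  simp only [Finset.prod_singleton, wt_false, wt_true, Finset.mem_singleton, forall_eq] at h1 h2
  have h3 : Pr π (A ∩ {ω | ω i = true}) + Pr π (A \ {ω | ω i = true}) = Pr π A :=
    measureReal_inter_add_sdiff ((dep_eval i true).loc (Set.finite_singleton i)).measurableSet
  have e : A \ {ω | ω i = true} = A ∩ {ω | ω i = false} := by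
    ext ω; simp
  rw [e] at h3
  linarith

theorem Dep.sec {A : Set (ι → Bool)} {S : Set ι} {i : ι} (h : Dep A (insert i S)) (b : Bool) :
    Dep (sec A i b) S := by
  classical
  intro ω ω' hω h1
  refine h (fun j hj => ?_) h1
  by_cases hji : j = i
  · subst hji; simp
  · rw [Function.update_of_ne hji, Function.update_of_ne hji]
    exact hω j (hj.resolve_left hji)

theorem upper_sec {A : Set (ι → Bool)} (h : IsUpperSet A) (i : ι) (b : Bool) :
    IsUpperSet (sec A i b) := by
  classical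
  intro ω ω' hω h1
  refine h (fun j => ?_) h1
  by_cases hji : j = i
  · subst hji; simp
  · rw [Function.update_of_ne hji, Function.update_of_ne hji]; exact hω j

theorem sec_sub {A : Set (ι → Bool)} (h : IsUpperSet A) (i : ι) :
    sec A i false ⊆ sec A i true := by
  classical
  intro ω h1
  refine h (fun j => ?_) h1
  by_cases hji : j = i
  · subst hji; simp
  · rw [Function.update_of_ne hji, Function.update_of_ne hji]

theorem Dep.empty_cases {A : Set (ι → Bool)} (h : Dep A ∅) : A = ∅ ∨ A = Set.univ := by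
  rcases A.eq_empty_or_nonempty with h0 | ⟨ω, hω⟩
  · exact Or.inl h0
  · exact Or.inr (Set.eq_univ_of_forall fun ω' => h (fun i hi => hi.elim) hω)

/-- Lipschitz continuity in the parameter -/
theorem Pr_lip (p q : I) (hpq : p ≤ q) (S : Finset ι) : ∀ {A : Set (ι → Bool)}, Dep A S →
    Pr (fun _ => q) A ≤ Pr (fun _ => p) A + S.card * ((q : ℝ) - p) := by
  classical
  have hd : (0 : ℝ) ≤ (q : ℝ) - p := sub_nonneg.2 hpq
  induction S using Finset.induction_on with
  | empty =>
    intro A h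
    rcases Dep.empty_cases (by simpa using h) with rfl | rfl <;> simp
  | insert i S hi ih =>
    intro A h
    have hL := h.loc (Finset.finite_toSet _)
    rw [Finset.coe_insert] at h
    have h0 := ih (h.sec false)
    have h1 := ih (h.sec true)
    rw [Pr_sec _ hL i, Pr_sec (fun _ => p) hL i, Finset.card_insert_of_notMem hi]
    have a0 := Pr_nonneg (fun _ : ι => p) (sec A i false)
    have a1 := Pr_le_one (fun _ : ι => p) (sec A i true)
    have q0 : (0 : ℝ) ≤ q := q.2.1
    have q1 : (q : ℝ) ≤ 1 := q.2.2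
    push_cast
    nlinarith [mul_le_mul_of_nonneg_left h0 (sub_nonneg.2 q1), mul_le_mul_of_nonneg_left h1 q0]

theorem Pr_mono_fin (p q : I) (hpq : p ≤ q) (S : Finset ι) : ∀ {A : Set (ι → Bool)}, Dep A S →
    IsUpperSet A → Pr (fun _ => p) A ≤ Pr (fun _ => q) A := by
  classical
  have hd : (0 : ℝ) ≤ (q : ℝ) - p := sub_nonneg.2 hpq
  induction S using Finset.induction_on with
  | empty =>
    intro A h _
    rcases Dep.empty_cases (by simpa using h) with rfl | rfl <;> simp
  | insert i S hi ih =>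
    intro A h hU
    have hL := h.loc (Finset.finite_toSet _)
    rw [Finset.coe_insert] at h
    have h0 := ih (h.sec false) (upper_sec hU i _)
    have h1 := ih (h.sec true) (upper_sec hU i _)
    rw [Pr_sec _ hL i, Pr_sec (fun _ => q) hL i]
    have a0 : Pr (fun _ : ι => p) (sec A i false) ≤ Pr (fun _ : ι => p) (sec A i true) :=
      Pr_mono (sec_sub hU i)
    have q0 : (0 : ℝ) ≤ q := q.2.1
    have q1 : (q : ℝ) ≤ 1 := q.2.2
    nlinarith [mul_le_mul_of_nonneg_left h0 (sub_nonneg.2 q1), mul_le_mul_of_nonneg_left h1 q0]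

/-- monotonicity in the parameter -/
theorem Pr_mono_p (p q : I) (hpq : p ≤ q) {A : Set (ι → Bool)} (hA : Loc A) (hU : IsUpperSet A) :
    Pr (fun _ => p) A ≤ Pr (fun _ => q) A := by
  obtain ⟨S, hS, h⟩ := hA
  lift S to Finset ι using hS
  exact Pr_mono_fin p q hpq S h hU

/-- disjoint occurrence -/
def DO (A B : Set (ι → Bool)) : Set (ι → Bool) :=
  {ω | ∃ η ζ : ι → Bool, η ≤ ω ∧ ζ ≤ ω ∧ (∀ i, η i = true → ζ i = true → False) ∧ η ∈ A ∧ ζ ∈ B}

theorem DO_upper (A B : Set (ι → Bool)) : IsUpperSet (DO A B) :=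
  fun _ _ h ⟨η, ζ, h1, h2, h3⟩ => ⟨η, ζ, h1.trans h, h2.trans h, h3⟩

theorem DO_mono {A B A' B' : Set (ι → Bool)} (hA : A ⊆ A') (hB : B ⊆ B') : DO A B ⊆ DO A' B' :=
  fun _ ⟨η, ζ, h1, h2, h3, h4, h5⟩ => ⟨η, ζ, h1, h2, h3, hA h4, hB h5⟩

theorem Dep.DO {A B : Set (ι → Bool)} {S : Set ι} (hA : Dep A S) (hB : Dep B S) :
    Dep (DO A B) S := by
  classical
  rintro ω ω' hω ⟨η, ζ, h1, h2, h3, h4, h5⟩
  refine ⟨fun i => if i ∈ S then η i else false, fun i => if i ∈ S then ζ i else false,
    fun i => ?_, fun i => ?_, fun i => ?_, hA (fun i hi => by simp [hi]) h4,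
    hB (fun i hi => by simp [hi]) h5⟩
  · by_cases hi : i ∈ S
    · simp only [hi, if_true]; rw [← hω i hi]; exact h1 i
    · simp [hi]
  · by_cases hi : i ∈ S
    · simp only [hi, if_true]; rw [← hω i hi]; exact h2 i
    · simp [hi]
  · by_cases hi : i ∈ S
    · simp only [hi, if_true]; exact h3 i
    · simp [hi]

theorem Loc.DO {A B : Set (ι → Bool)} (hA : Loc A) (hB : Loc B) : Loc (DO A B) :=
  let ⟨_, hS, h⟩ := hA; let ⟨_, hT, h'⟩ := hB
  ⟨_, hS.union hT, (h.mono Set.subset_union_left).DO (h'.mono Set.subset_union_right)⟩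

open Classical in
theorem upd_le {η ω : ι → Bool} {i : ι} {b : Bool} (h : η ≤ Function.update ω i b) :
    Function.update η i false ≤ ω := fun j => by
  by_cases hji : j = i
  · subst hji; simp
  · have := h j
    rwa [Function.update_of_ne hji] at this ⊢

open Classical in
theorem upd_mem {A : Set (ι → Bool)} (hA : IsUpperSet A) {η : ι → Bool} (h : η ∈ A) (i : ι)
    (b : Bool) (hb : η i ≤ b) : Function.update η i false ∈ sec A i b := by
  refine hA (fun j => ?_) h
  by_cases hji : j = i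
  · subst hji; simpa using hb
  · simp [Function.update_of_ne hji]

open Classical in
theorem upd_disj {η ζ : ι → Bool} (h : ∀ i, η i = true → ζ i = true → False) (i : ι) :
    ∀ j, Function.update η i false j = true → Function.update ζ i false j = true → False := by
  intro j
  by_cases hji : j = i
  · subst hji; simp
  · simpa [Function.update_of_ne hji] using h j

theorem sec_DO_false {A B : Set (ι → Bool)} (hA : IsUpperSet A) (hB : IsUpperSet B) (i : ι) :
    sec (DO A B) i false ⊆ DO (sec A i false) (sec B i false) := by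
  classical
  rintro ω ⟨η, ζ, h1, h2, h3, h4, h5⟩
  exact ⟨_, _, upd_le h1, upd_le h2, upd_disj h3 i, upd_mem hA h4 i _ (by simpa using h1 i),
    upd_mem hB h5 i _ (by simpa using h2 i)⟩

theorem sec_DO_true {A B : Set (ι → Bool)} (hA : IsUpperSet A) (hB : IsUpperSet B) (i : ι) :
    sec (DO A B) i true ⊆
      DO (sec A i true) (sec B i false) ∪ DO (sec A i false) (sec B i true) := by
  classical
  rintro ω ⟨η, ζ, h1, h2, h3, h4, h5⟩
  by_cases hz : ζ i = true
  · have : η i = false := by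
      cases h : η i
      · rfl
      · exact (h3 i h hz).elim
    exact Or.inr ⟨_, _, upd_le h1, upd_le h2, upd_disj h3 i, upd_mem hA h4 i _ this.le,
      upd_mem hB h5 i _ le_top⟩
  · exact Or.inl ⟨_, _, upd_le h1, upd_le h2, upd_disj h3 i, upd_mem hA h4 i _ le_top,
      upd_mem hB h5 i _ (Bool.eq_false_iff.2 hz).le⟩

theorem BK_fin (π : ι → I) (S : Finset ι) : ∀ {A B : Set (ι → Bool)}, Dep A S → Dep B S →
    IsUpperSet A → IsUpperSet B → Pr π (DO A B) ≤ Pr π A * Pr π B := by
  classical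
  induction S using Finset.induction_on with
  | empty =>
    intro A B hA hB _ _
    rcases Dep.empty_cases (by simpa using hA) with rfl | rfl
    · have : DO (∅ : Set (ι → Bool)) B = ∅ := by ext; simp [DO]
      simp [this]
    rcases Dep.empty_cases (by simpa using hB) with rfl | rfl
    · have : DO Set.univ (∅ : Set (ι → Bool)) = ∅ := by ext; simp [DO]
      simp [this]
    · simpa using Pr_le_one π _
  | insert i S hi ih =>
    intro A B hA hB uA uB
    have lA := hA.loc (Finset.finite_toSet _)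
    have lB := hB.loc (Finset.finite_toSet _)
    rw [Finset.coe_insert] at hA hB
    have h00 := ih (hA.sec false) (hB.sec false) (upper_sec uA i _) (upper_sec uB i _)
    have h01 := ih (hA.sec false) (hB.sec true) (upper_sec uA i _) (upper_sec uB i _)
    have h10 := ih (hA.sec true) (hB.sec false) (upper_sec uA i _) (upper_sec uB i _)
    have h11 := ih (hA.sec true) (hB.sec true) (upper_sec uA i _) (upper_sec uB i _)
    have x0 : Pr π (sec (DO A B) i false) ≤ Pr π (DO (sec A i false) (sec B i false)) :=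
      Pr_mono (sec_DO_false uA uB i)
    have x1 := Pr_mono (π := π) (sec_DO_true uA uB i)
    have y1 : Pr π (DO (sec A i true) (sec B i false) ∪ DO (sec A i false) (sec B i true)) ≤
        Pr π (DO (sec A i true) (sec B i true)) :=
      Pr_mono (Set.union_subset (DO_mono le_rfl (sec_sub uB i)) (DO_mono (sec_sub uA i) le_rfl))
    have y2 : Pr π (DO (sec A i true) (sec B i false) ∪ DO (sec A i false) (sec B i true)) +
        Pr π (DO (sec A i true) (sec B i false) ∩ DO (sec A i false) (sec B i true)) =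
        Pr π (DO (sec A i true) (sec B i false)) + Pr π (DO (sec A i false) (sec B i true)) :=
      measureReal_union_add_inter ((lA.sec i _).DO (lB.sec i _)).measurableSet
    have y3 : Pr π (DO (sec A i false) (sec B i false)) ≤
        Pr π (DO (sec A i true) (sec B i false) ∩ DO (sec A i false) (sec B i true)) :=
      Pr_mono (Set.subset_inter (DO_mono (sec_sub uA i) le_rfl) (DO_mono le_rfl (sec_sub uB i)))
    rw [Pr_sec π (lA.DO lB) i, Pr_sec π lA i, Pr_sec π lB i]
    have q0 : (0 : ℝ) ≤ π i := (π i).2.1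
    have q1 : (0 : ℝ) ≤ 1 - π i := sub_nonneg.2 (π i).2.2
    have z0 := x0.trans h00
    have z1 := x1.trans (y1.trans h11)
    have z2 : Pr π (sec (DO A B) i false) + Pr π (sec (DO A B) i true) ≤
        Pr π (sec A i true) * Pr π (sec B i false) + Pr π (sec A i false) * Pr π (sec B i true) := by
      linarith
    nlinarith [mul_le_mul_of_nonneg_left z0 (mul_nonneg q1 q1),
      mul_le_mul_of_nonneg_left z1 (mul_nonneg q0 q0),
      mul_le_mul_of_nonneg_left z2 (mul_nonneg q0 q1)]

/-- the van den Berg-Kesten inequality -/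
theorem BK (π : ι → I) {A B : Set (ι → Bool)} (hA : Loc A) (hB : Loc B) (uA : IsUpperSet A)
    (uB : IsUpperSet B) : Pr π (DO A B) ≤ Pr π A * Pr π B := by
  obtain ⟨S, hS, h⟩ := hA
  obtain ⟨T, hT, h'⟩ := hB
  have hU := hS.union hT
  replace h := h.mono (Set.subset_union_left (t := T))
  replace h' := h'.mono (Set.subset_union_right (s := S))
  generalize S ∪ T = U at h h' hU
  lift U to Finset ι using hU
  exact BK_fin π U h h' uA uB

/-- conditioning on a block of coordinates -/
theorem Pr_fub (π : ι → I) {A G : Set (ι → Bool)} (hA : Loc A) (J : Finset ι) (hG : Dep G J)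
    (hAG : A ⊆ G) {κ : ℝ} (hκ : ∀ η ∈ G, Pr π {ω | ow J η ω ∈ A} ≤ κ) :
    Pr π A ≤ κ * Pr π G := by
  have hX : LocF fun ω : ι → Bool => ow J ω (fun _ => false) :=
    ⟨J, J.finite_toSet, fun ω ω' hω => funext fun i => by
      beta_reduce
      by_cases hi : i ∈ J
      · rw [ow_of_mem hi, ow_of_mem hi, hω i hi]
      · rw [ow_of_notMem hi, ow_of_notMem hi]⟩
  have h := Pr_cond_le π hX G (A := fun c => {ω | ow J c ω ∈ A}) (S := fun _ => J)
    (T := fun _ => (J : Set ι)ᶜ) (fun c _ => hA.ow J c) (fun c _ ω ω' hω h1 => by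
      rw [Set.mem_ofPred_eq, ← h1]
      funext i
      by_cases hi : i ∈ J
      · rw [ow_of_mem hi, ow_of_mem hi, hω i hi]
      · rw [ow_of_notMem hi, ow_of_notMem hi]) (fun c _ => dep_ow J c A)
    (fun _ _ => disjoint_compl_right) hκ
  have e1 : ∀ ω, ow J ω (fun _ => false) ∈ G ↔ ω ∈ G := fun ω =>
    hG.iff fun i hi => ow_of_mem hi
  have e2 : ∀ ω, ow J (ow J ω fun _ => false) ω = ω := fun ω => funext fun i => by
    by_cases hi : i ∈ J
    · rw [ow_of_mem hi, ow_of_mem hi]
    · rw [ow_of_notMem hi]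
  simp only [e1, Set.mem_ofPred_eq, e2] at h
  exact le_trans (Pr_mono (B := {ω | ω ∈ G ∧ ω ∈ A}) fun ω hω => ⟨hAG hω, hω⟩) h

/-- selection of a successful index in a first block, followed by an independent block -/
theorem Pr_chain (π : ι → I) {κ : Type*} (s : Finset κ) {A B : κ → Set (ι → Bool)}
    {S T : Set ι} (lA : ∀ k ∈ s, Loc (A k)) (lB : ∀ k ∈ s, Loc (B k))
    (hA : ∀ k ∈ s, Dep (A k) S) (hB : ∀ k ∈ s, Dep (B k) T) (hd : Disjoint S T) {β : ℝ}
    (hβ : ∀ k ∈ s, β ≤ Pr π (B k)) :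
    β * Pr π {ω | ∃ k ∈ s, ω ∈ A k} ≤ Pr π {ω | ∃ k ∈ s, ω ∈ A k ∧ ω ∈ B k} := by
  classical
  set X : (ι → Bool) → Finset κ := fun ω => s.filter fun k => ω ∈ A k with hXd
  have key : ∀ U : Set ι, (∀ k ∈ s, Dep (A k) U) → DependsOn X U := fun U hU ω ω' hω =>
    Finset.filter_congr fun k hk => (hU k hk).iff hω
  have hX : LocF X := by
    choose! U hU hU' using lA
    refine ⟨⋃ k ∈ s, U k, Set.Finite.biUnion s.finite_toSet hU, key _ fun k hk => ?_⟩
    exact (hU' k hk).mono (Set.subset_biUnion_of_mem (u := U) hk)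
  have h := Pr_cond_ge π hX {u | u.Nonempty ∧ u ⊆ s}
    (A := fun u => if h : u.Nonempty then B h.choose else Set.univ) (S := fun _ => S)
    (T := fun _ => T) (κ := β)
    (fun u hu => by rw [dif_pos hu.1]; exact lB _ (hu.2 hu.1.choose_spec))
    (fun u _ => dep_of_dependsOn (key S hA) {u})
    (fun u hu => by rw [dif_pos hu.1]; exact hB _ (hu.2 hu.1.choose_spec)) (fun _ _ => hd)
    (fun u hu => by rw [dif_pos hu.1]; exact hβ _ (hu.2 hu.1.choose_spec))
  have e : {ω | X ω ∈ {u : Finset κ | u.Nonempty ∧ u ⊆ s}} = {ω | ∃ k ∈ s, ω ∈ A k} := by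
    ext ω
    simp [hXd, Finset.filter_nonempty_iff]
  rw [e] at h
  refine h.trans (Pr_mono ?_)
  rintro ω ⟨⟨h1, -⟩, h2⟩
  rw [dif_pos h1] at h2
  have := Finset.mem_filter.1 h1.choose_spec
  exact ⟨_, this.1, this.2, h2⟩

/-- product bound for a branching step -/
theorem gw_prod (π : ι → I) {κ : Type*} (s : Finset κ) {E S : κ → Set (ι → Bool)} {F₀ : Set ι}
    {F : κ → Set ι} {x : κ → ℝ} (lE : ∀ k ∈ s, Loc (E k)) (lS : ∀ k ∈ s, Loc (S k))
    (hE : ∀ k ∈ s, Dep (E k) F₀) (hS : ∀ k ∈ s, Dep (S k) (F k))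
    (hd : ∀ k ∈ s, Disjoint F₀ (F k)) (hdd : (s : Set κ).PairwiseDisjoint F)
    (hx : ∀ k ∈ s, x k ≤ Pr π (S k)) :
    ∀ W : (ι → Bool) → ℝ, LocF W → DependsOn W F₀ → 0 ≤ W →
      ∫ ω, W ω * ∏ k ∈ s, (1 - (E k).indicator (fun _ => 1) ω * (S k).indicator (fun _ => 1) ω)
        ∂PM π ≤ ∫ ω, W ω * ∏ k ∈ s, (1 - (E k).indicator (fun _ => x k) ω) ∂PM π := by
  classical
  induction s using Finset.induction_on with
  | empty => intro W _ _ _; simp
  | insert a s ha ih =>
    intro W lW dW W0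
    have m : ∀ k ∈ s, k ∈ insert a s := fun k hk => Finset.mem_insert_of_mem hk
    have ma := Finset.mem_insert_self a s
    have ih' := ih (fun k hk => lE k (m k hk)) (fun k hk => lS k (m k hk))
      (fun k hk => hE k (m k hk)) (fun k hk => hS k (m k hk)) (fun k hk => hd k (m k hk))
      (hdd.subset (by simp)) (fun k hk => hx k (m k hk))
    set P : (ι → Bool) → ℝ := fun ω =>
      ∏ k ∈ s, (1 - (E k).indicator (fun _ => 1) ω * (S k).indicator (fun _ => 1) ω) with hP
    have i01 : ∀ (A : Set (ι → Bool)) ω, 0 ≤ A.indicator (fun _ => (1 : ℝ)) ω ∧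
        A.indicator (fun _ => (1 : ℝ)) ω ≤ 1 := fun A ω => by
      by_cases h : ω ∈ A <;> simp [h]
    have P0 : ∀ ω, 0 ≤ P ω := fun ω => Finset.prod_nonneg fun k _ =>
      sub_nonneg.2 (mul_le_one₀ (i01 _ _).2 (i01 _ _).1 (i01 _ _).2)
    have dP : ∀ U : Set ι, (∀ k ∈ s, Dep (E k) U ∧ Dep (S k) U) → DependsOn P U :=
      fun U hU ω ω' hω => Finset.prod_congr rfl fun k hk => by
        rw [(hU k hk).1.dependsOn_indicator 1 hω, (hU k hk).2.dependsOn_indicator 1 hω]
    have lP : LocF P := by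
      have : ∀ k ∈ s, ∃ U : Set ι, U.Finite ∧ Dep (E k) U ∧ Dep (S k) U := fun k hk => by
        obtain ⟨U, hU, h1⟩ := lE k (m k hk)
        obtain ⟨U', hU', h2⟩ := lS k (m k hk)
        exact ⟨_, hU.union hU', h1.mono Set.subset_union_left, h2.mono Set.subset_union_right⟩
      choose! U hU hU' using this
      refine ⟨⋃ k ∈ s, U k, Set.Finite.biUnion s.finite_toSet hU, dP _ fun k hk => ?_⟩
      exact ⟨(hU' k hk).1.mono (Set.subset_biUnion_of_mem (u := U) hk),
        (hU' k hk).2.mono (Set.subset_biUnion_of_mem (u := U) hk)⟩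
    have lEa := (lE a ma).locF_indicator 1
    have lSa := (lS a ma).locF_indicator 1
    have lQ : LocF fun ω => W ω * P ω * (E a).indicator (fun _ => (1 : ℝ)) ω :=
      (lW.comp₂ lP (· * ·)).comp₂ lEa (· * ·)
    have dQ : DependsOn (fun ω => W ω * P ω * (E a).indicator (fun _ => (1 : ℝ)) ω)
        (F₀ ∪ ⋃ k ∈ s, F k) := fun ω ω' hω => by
      have h0 : ∀ i ∈ F₀, ω i = ω' i := fun i hi => hω i (Or.inl hi)
      beta_reduce
      rw [dW h0, (hE a ma).dependsOn_indicator 1 h0, dP _ (fun k hk =>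
        ⟨(hE k (m k hk)).mono Set.subset_union_left, (hS k (m k hk)).mono
          ((Set.subset_biUnion_of_mem (u := F) hk).trans Set.subset_union_right)⟩) hω]
    have hind := integral_mul_indep π lQ lSa dQ ((hS a ma).dependsOn_indicator 1) (by
      rw [Set.disjoint_union_left, Set.disjoint_iUnion₂_left]
      exact ⟨hd a ma, fun k hk => hdd (m k hk) ma fun h => ha (h ▸ hk)⟩)
    rw [← Pr_eq_integral π (lS a ma)] at hind
    have hxa : x a ≤ 1 := (hx a ma).trans (Pr_le_one π _)
    have lW' : LocF fun ω => W ω * (1 - (E a).indicator (fun _ => x a) ω) :=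
      lW.comp₂ ((lE a ma).locF_indicator (x a)) fun u v => u * (1 - v)
    have h2 := ih' (fun ω => W ω * (1 - (E a).indicator (fun _ => x a) ω)) lW'
      (fun ω ω' hω => by
        beta_reduce
        rw [dW hω, (hE a ma).dependsOn_indicator _ hω])
      (fun ω => mul_nonneg (W0 ω) (by by_cases h : ω ∈ E a <;> simp [h, hxa]))
    simp only [Finset.prod_insert ha]
    refine le_trans ?_ (h2.trans_eq (by congr 1; ext ω; ring))
    have iWP := (lW.comp₂ lP (· * ·)).integrable π
    have e1 : ∫ ω, W ω * ((1 - (E a).indicator (fun _ => 1) ω * (S a).indicator (fun _ => 1) ω) *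
        P ω) ∂PM π = ∫ ω, W ω * P ω ∂PM π - ∫ ω, (W ω * P ω * (E a).indicator (fun _ => 1) ω) *
          (S a).indicator (fun _ => 1) ω ∂PM π := by
      rw [← integral_sub iWP ((lQ.comp₂ lSa (· * ·)).integrable π)]
      congr 1; ext ω; ring
    have e2 : ∫ ω, W ω * (1 - (E a).indicator (fun _ => x a) ω) * P ω ∂PM π =
        ∫ ω, W ω * P ω ∂PM π - (∫ ω, W ω * P ω * (E a).indicator (fun _ => 1) ω ∂PM π) * x a := by
      rw [← integral_mul_const, ← integral_sub iWP ((lQ.integrable π).mul_const _)]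
      congr 1; ext ω
      by_cases h : ω ∈ E a <;> simp [h]
      ring
    have n0 : 0 ≤ ∫ ω, W ω * P ω * (E a).indicator (fun _ => (1 : ℝ)) ω ∂PM π :=
      integral_nonneg fun ω => mul_nonneg (mul_nonneg (W0 ω) (P0 ω)) (i01 _ _).1
    rw [e1, e2, hind]
    linarith [mul_le_mul_of_nonneg_left (hx a ma) n0]

/-- lower bound for the success probability of a branching step -/
theorem gw_step (π : ι → I) {κ : Type*} (s : Finset κ) {E S : κ → Set (ι → Bool)} {F₀ : Set ι}
    {F : κ → Set ι} {x : κ → ℝ} (lE : ∀ k ∈ s, Loc (E k)) (lS : ∀ k ∈ s, Loc (S k))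
    (hE : ∀ k ∈ s, Dep (E k) F₀) (hS : ∀ k ∈ s, Dep (S k) (F k))
    (hd : ∀ k ∈ s, Disjoint F₀ (F k)) (hdd : (s : Set κ).PairwiseDisjoint F)
    (hx : ∀ k ∈ s, x k ≤ Pr π (S k)) (hx0 : ∀ k ∈ s, 0 ≤ x k) {t : ℝ}
    (ht : ∑ k ∈ s, x k ≤ t) :
    (∑ k ∈ s, x k * Pr π (E k)) / (1 + t) ≤ Pr π {ω | ∃ k ∈ s, ω ∈ E k ∧ ω ∈ S k} := by
  classical
  have h := gw_prod π s lE lS hE hS hd hdd hx (fun _ => 1) (locF_const _) (fun _ _ _ => rfl)
    (fun _ => zero_le_one)
  simp only [one_mul] at h
  have lU : Loc {ω | ∃ k ∈ s, ω ∈ E k ∧ ω ∈ S k} :=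
    Loc.exists_mem s (A := fun k => E k ∩ S k) fun k hk => (lE k hk).inter (lS k hk)
  have t0 : 0 ≤ t := (Finset.sum_nonneg hx0).trans ht
  have e1 : Pr π {ω | ∃ k ∈ s, ω ∈ E k ∧ ω ∈ S k}ᶜ = ∫ ω, ∏ k ∈ s,
      (1 - (E k).indicator (fun _ => 1) ω * (S k).indicator (fun _ => (1 : ℝ)) ω) ∂PM π := by
    rw [Pr_eq_integral π lU.compl]
    congr 1; ext ω
    by_cases hω : ω ∈ {ω | ∃ k ∈ s, ω ∈ E k ∧ ω ∈ S k}
    · obtain ⟨k, hk, h1, h2⟩ := id hω
      rw [Set.indicator_of_notMem (Set.notMem_compl_iff.2 hω), Finset.prod_eq_zero hk (by simp [h1, h2])]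
    · rw [Set.indicator_of_mem hω, Finset.prod_eq_one]
      intro k hk
      by_cases h1 : ω ∈ E k
      · have : ω ∉ S k := fun h2 => hω ⟨k, hk, h1, h2⟩
        simp [this]
      · simp [h1]
  have lY : LocF fun ω => ∑ k ∈ s, (E k).indicator (fun _ => x k) ω :=
    LocF.sum s fun k hk => (lE k hk).locF_indicator _
  have e2 : ∫ ω, (1 - (∑ k ∈ s, (E k).indicator (fun _ => x k) ω) / (1 + t)) ∂PM π =
      1 - (∑ k ∈ s, x k * Pr π (E k)) / (1 + t) := by
    rw [integral_sub (integrable_const _) ((lY.integrable π).div_const _), integral_div,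
      integral_finsetSum _ fun k hk => ((lE k hk).locF_indicator _).integrable π,
      Finset.sum_congr rfl fun k hk => integral_indicator_const' π (lE k hk) _]
    simp
  have h3 : ∫ ω, ∏ k ∈ s, (1 - (E k).indicator (fun _ => x k) ω) ∂PM π ≤
      ∫ ω, (1 - (∑ k ∈ s, (E k).indicator (fun _ => x k) ω) / (1 + t)) ∂PM π := by
    refine integral_mono_of_nonneg (Filter.Eventually.of_forall fun ω => ?_)
      ((integrable_const _).sub ((lY.integrable π).div_const _))
      (Filter.Eventually.of_forall fun ω => ?_)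
    · exact Finset.prod_nonneg fun k hk => by
        have := (hx k hk).trans (Pr_le_one π _)
        by_cases h1 : ω ∈ E k <;> simp [h1, this]
    · set y : κ → ℝ := fun k => (E k).indicator (fun _ => x k) ω with hy
      have y0 : ∀ k ∈ s, 0 ≤ y k ∧ y k ≤ x k := fun k hk => by
        by_cases h1 : ω ∈ E k <;> simp [hy, h1, hx0 k hk]
      have a1 : ∏ k ∈ s, (1 - y k) ≤ ∏ k ∈ s, Real.exp (-y k) :=
        Finset.prod_le_prod (fun k hk => sub_nonneg.2
          ((y0 k hk).2.trans ((hx k hk).trans (Pr_le_one π _)))) fun k _ => by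
            linarith [Real.add_one_le_exp (-y k)]
      rw [← Real.exp_sum, Finset.sum_neg_distrib] at a1
      have s0 : 0 ≤ ∑ k ∈ s, y k := Finset.sum_nonneg fun k hk => (y0 k hk).1
      have s1 : ∑ k ∈ s, y k ≤ t := (Finset.sum_le_sum fun k hk => (y0 k hk).2).trans ht
      refine a1.trans ?_
      change _ ≤ 1 - (∑ k ∈ s, y k) / (1 + t)
      generalize ∑ k ∈ s, y k = u at s0 s1
      have b1 : Real.exp (-u) ≤ 1 / (1 + u) := by
        rw [Real.exp_neg, one_div]
        exact inv_anti₀ (by linarith) (by linarith [Real.add_one_le_exp u])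
      have b2 : u / (1 + t) ≤ u / (1 + u) := by gcongr
      have b3 : 1 / (1 + u) = 1 - u / (1 + u) := by field_simp; ring
      linarith
  rw [Pr_compl π lU] at e1
  linarith

end Pool.Agent.P.MP_3aa27f_pr
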