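import Pool.Agent.P.MP_3aa27f_pr.Tail

/-! The bootstrap: uniform bounds for the expected number of points in a fibre. -/

open MeasureTheory ProbabilityTheory unitInterval SimpleGraph

namespace Pool.Agent.P.MP_3aa27f_pr

theorem nat_layer (N M : ℕ) (s : ℕ → ℕ) (s0 : s 0 = 1) (sM : 0 < s M) :
    (N : ℝ) ≤ ∑ m ∈ Finset.range M, (if s m ≤ N then (s (m + 1) : ℝ) else 0) + N ^ 2 / s M := by
  have nn : ∀ m ∈ Finset.range M, 0 ≤ (if s m ≤ N then (s (m + 1) : ℝ) else 0) := fun m _ => by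
    split_ifs <;> positivity
  by_cases h : s M ≤ N
  · refine le_add_of_nonneg_of_le (Finset.sum_nonneg nn) ?_
    rw [le_div_iff₀ (by exact_mod_cast sM), sq]
    exact mul_le_mul_of_nonneg_left (by exact_mod_cast h) (by positivity)
  refine le_add_of_le_of_nonneg ?_ (by positivity)
  rcases Nat.eq_zero_or_pos N with rfl | hN
  · simpa using Finset.sum_nonneg nn
  have : ∃ m < M, s m ≤ N ∧ N < s (m + 1) := by
    clear nn sM
    induction M with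
    | zero => exact (h (by omega)).elim
    | succ M ih =>
      by_cases h1 : s M ≤ N
      · exact ⟨M, by omega, h1, by omega⟩
      · obtain ⟨m, h2, h3⟩ := ih h1
        exact ⟨m, by omega, h3⟩
  obtain ⟨m, h1, h2, h3⟩ := this
  refine le_trans ?_ (Finset.single_le_sum nn (Finset.mem_range.2 h1))
  rw [if_pos h2]
  exact_mod_cast h3.le

open Classical in
theorem moment_layer {ι κ : Type*} (π : ι → I) (Y : Finset κ) {A : κ → Set (ι → Bool)}
    (hA : ∀ y ∈ Y, Loc (A y)) (M : ℕ) (s : ℕ → ℕ) (s0 : s 0 = 1) (sM : 0 < s M) :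
    ∑ y ∈ Y, Pr π (A y) ≤ ∑ m ∈ Finset.range M,
      s (m + 1) * Pr π {ω | s m ≤ (Y.filter fun y => ω ∈ A y).card} +
        (∑ y ∈ Y, ∑ y' ∈ Y, Pr π (A y ∩ A y')) / s M := by
  set N : (ι → Bool) → ℕ := fun ω => (Y.filter fun y => ω ∈ A y).card with hN
  have e1 : ∀ ω, (N ω : ℝ) = ∑ y ∈ Y, (A y).indicator (fun _ => (1 : ℝ)) ω := fun ω => by
    simp [hN, Set.indicator_apply]
  have e2 : ∀ ω, (N ω : ℝ) ^ 2 =
      ∑ y ∈ Y, ∑ y' ∈ Y, (A y ∩ A y').indicator (fun _ => (1 : ℝ)) ω := fun ω => by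
    rw [e1, sq, Finset.sum_mul_sum]
    refine Finset.sum_congr rfl fun y _ => Finset.sum_congr rfl fun y' _ => ?_
    by_cases h1 : ω ∈ A y <;> by_cases h2 : ω ∈ A y' <;> simp [h1, h2]
  have l1 : LocF fun ω => (N ω : ℝ) := by
    simp only [e1]; exact LocF.sum Y fun y hy => (hA y hy).locF_indicator 1
  have lN : LocF N := by simpa using l1.comp fun x : ℝ => ⌊x⌋₊
  have lE : ∀ m, Loc {ω | s m ≤ N ω} := fun m => lN.loc {n | s m ≤ n}
  have i1 : ∑ y ∈ Y, Pr π (A y) = ∫ ω, (N ω : ℝ) ∂PM π := by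
    simp only [e1]
    rw [integral_finsetSum _ fun y hy => ((hA y hy).locF_indicator 1).integrable π]
    exact Finset.sum_congr rfl fun y hy => Pr_eq_integral π (hA y hy)
  have i2 : ∑ y ∈ Y, ∑ y' ∈ Y, Pr π (A y ∩ A y') = ∫ ω, (N ω : ℝ) ^ 2 ∂PM π := by
    simp only [e2]
    rw [integral_finsetSum _ fun y hy => (LocF.sum Y fun y' hy' =>
      ((hA y hy).inter (hA y' hy')).locF_indicator 1).integrable π]
    refine Finset.sum_congr rfl fun y hy => ?_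
    rw [integral_finsetSum _ fun y' hy' =>
      (((hA y hy).inter (hA y' hy')).locF_indicator 1).integrable π]
    exact Finset.sum_congr rfl fun y' hy' => Pr_eq_integral π ((hA y hy).inter (hA y' hy'))
  have j1 := (LocF.sum (Finset.range M) fun m _ => (lE m).locF_indicator (s (m + 1))).integrable π
  have j2 := ((l1.comp (· ^ 2)).integrable π).div_const (s M : ℝ)
  rw [i1, i2, ← Finset.sum_congr rfl fun m _ => integral_indicator_const' π (lE m) _,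
    ← integral_finsetSum _ fun m _ => ((lE m).locF_indicator _).integrable π, ← integral_div,
    ← integral_add j1 j2]
  refine integral_mono (l1.integrable π) (j1.add j2) fun ω => ?_
  simpa [Set.indicator_apply] using nat_layer (N ω) M s s0 sM

variable {α β : Type*} {T : SimpleGraph α} {H : SimpleGraph β}

theorem sum_fib_le (p : I) (Λ : Finset (α × β)) (x : α × β) (W : Finset (α × β)) (hW : W ⊆ Λ)
    (f : α → ℝ) (f0 : ∀ w, 0 ≤ f w) [DecidableEq α] :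
    ∑ z ∈ W, Pr (fun _ => p) (Cn (T.boxProd H) (EIn Λ) x z) * f z.1 ≤
      ∑ w ∈ W.image Prod.fst, gg T H p Λ x w * f w := by
  classical
  rw [← Finset.sum_fiberwise_of_maps_to (t := W.image Prod.fst) (g := Prod.fst)
    fun z hz => Finset.mem_image_of_mem _ hz]
  refine Finset.sum_le_sum fun w _ => ?_
  rw [gg, Finset.sum_mul, Finset.sum_congr rfl
    (g := fun z => Pr (fun _ => p) (Cn (T.boxProd H) (EIn Λ) x z) * f w)
    fun z hz => by rw [(Finset.mem_filter.1 hz).2]]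
  refine Finset.sum_le_sum_of_subset_of_nonneg (fun z hz => ?_)
    fun _ _ _ => mul_nonneg (Pr_nonneg _ _) (f0 _)
  simp only [Finset.mem_filter] at hz ⊢
  exact ⟨hW hz.1, hz.2⟩

open Classical in
theorem second_moment (p : I) {θ C A : ℝ} (A0 : 0 ≤ A)
    (hC : ∀ (o v : α) (W : Finset α),
      ∑ w ∈ W, (θ ^ 2) ^ T.dist o w * θ ^ T.dist w v ≤ C * θ ^ T.dist o v) {Λ : Finset (α × β)}
    (hA : ∀ x ∈ Λ, ∀ v, gg T H p Λ x v ≤ A * θ ^ T.dist x.1 v) {x : α × β} (hx : x ∈ Λ) (v : α) :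
    ∑ y ∈ Λ.filter (·.1 = v), ∑ y' ∈ Λ.filter (·.1 = v), Pr (fun _ => p)
      (Cn (T.boxProd H) (EIn Λ) x y ∩ Cn (T.boxProd H) (EIn Λ) x y') ≤
        A ^ 3 * C * θ ^ T.dist x.1 v := by
  calc _ ≤ ∑ y ∈ Λ.filter (·.1 = v), ∑ y' ∈ Λ.filter (·.1 = v), ∑ z ∈ Λ,
        Pr (fun _ => p) (Cn (T.boxProd H) (EIn Λ) x z) *
          (Pr (fun _ => p) (Cn (T.boxProd H) (EIn Λ) z y) *
            Pr (fun _ => p) (Cn (T.boxProd H) (EIn Λ) z y')) :=
        Finset.sum_le_sum fun y _ => Finset.sum_le_sum fun y' _ => Pr_tree _ Λ hx y y'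
    _ = ∑ z ∈ Λ, Pr (fun _ => p) (Cn (T.boxProd H) (EIn Λ) x z) * gg T H p Λ z v ^ 2 := by
        simp only [Finset.sum_comm (t := Λ)]
        refine Finset.sum_congr rfl fun z _ => ?_
        rw [sq, gg, Finset.sum_mul_sum, Finset.mul_sum]
        exact Finset.sum_congr rfl fun y _ => by rw [Finset.mul_sum]
    _ ≤ ∑ z ∈ Λ, Pr (fun _ => p) (Cn (T.boxProd H) (EIn Λ) x z) * (A * θ ^ T.dist z.1 v) ^ 2 :=
        Finset.sum_le_sum fun z hz => mul_le_mul_of_nonneg_left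
          (pow_le_pow_left₀ (gg_nonneg _ _ _ _) (hA z hz v) 2) (Pr_nonneg _ _)
    _ ≤ ∑ w ∈ Λ.image Prod.fst, gg T H p Λ x w * (A * θ ^ T.dist w v) ^ 2 :=
        sum_fib_le p Λ x Λ le_rfl (fun w => (A * θ ^ T.dist w v) ^ 2) fun _ => by positivity
    _ ≤ ∑ w ∈ Λ.image Prod.fst, A ^ 3 * ((θ ^ 2) ^ T.dist v w * θ ^ T.dist w x.1) := by
        refine Finset.sum_le_sum fun w _ => ?_
        refine (mul_le_mul_of_nonneg_right (hA x hx w) (by positivity)).trans_eq ?_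
        rw [dist_comm (u := v), dist_comm (u := w) (v := x.1)]
        ring
    _ ≤ _ := by
        rw [← Finset.mul_sum, mul_assoc, dist_comm (u := x.1)]
        exact mul_le_mul_of_nonneg_left (hC _ _ _) (by positivity)

theorem exists_near_one {P : ℝ → Prop} (h : ∀ᶠ c in nhds (1 : ℝ), P c) : ∃ c, 1 < c ∧ P c :=
  ((eventually_nhdsWithin_of_forall (s := Set.Ioi (1 : ℝ)) fun _ h => h).and
    (h.filter_mono nhdsWithin_le_nhds)).exists

theorem sq_le_geom {l : ℝ} (hl : 1 < l) : ∃ C : ℝ, 0 ≤ C ∧ ∀ k : ℕ, (k : ℝ) ^ 2 ≤ C * l ^ k := by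
  have h := tendsto_pow_const_div_const_pow_of_one_lt 2 hl
  obtain ⟨C, hC⟩ := h.bddAbove_range
  refine ⟨C, le_trans (by positivity) (hC ⟨0, rfl⟩), fun k => ?_⟩
  rw [← div_le_iff₀ (by positivity)]
  exact hC ⟨k, rfl⟩

theorem one_sub_pow_le {p β : ℝ} (p0 : 0 < p) (β0 : 0 < β) (β1 : β ≤ 1) (n : ℕ) :
    (1 - β) ^ ⌈n / (p * β)⌉₊ ≤ p ^ n := by
  have h1 : (1 - β) ^ ⌈n / (p * β)⌉₊ ≤ Real.exp (-β) ^ ⌈n / (p * β)⌉₊ :=
    pow_le_pow_left₀ (by linarith) (by linarith [Real.add_one_le_exp (-β)]) _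
  have h2 : Real.exp (-(1 / p)) ≤ p := by
    rw [Real.exp_neg, inv_le_comm₀ (Real.exp_pos _) p0, ← one_div]
    linarith [Real.add_one_le_exp (1 / p)]
  refine h1.trans (le_trans ?_ (pow_le_pow_left₀ (Real.exp_pos _).le h2 n))
  rw [← Real.exp_nat_mul, ← Real.exp_nat_mul, Real.exp_le_exp]
  have := mul_le_mul_of_nonneg_right (Nat.le_ceil ((n : ℝ) / (p * β))) β0.le
  have e : (n : ℝ) / (p * β) * β = n * (1 / p) := by field_simp
  linarith

theorem numeric {θ p ξ κ l s' C C' c₃ c₄ : ℝ} {a a' R n L : ℕ} (θ0 : 0 < θ) (θ1 : θ ≤ 1)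
    (p0 : 0 < p) (ξ0 : 0 < ξ) (κ1 : 1 ≤ κ) (κ2 : κ ≤ 2) (hp : p ≤ ξ) (hξ : ξ ≤ θ)
    (l1 : 1 ≤ l) (l2 : l ≤ 2) (hs : l ^ 2 * ξ ≤ s') (hs' : θ / 2 ≤ s') (s1 : s' ≤ 1)
    (ha : θ ^ a ≤ 1 / 8) (ha' : (2 / p) ^ a * 2 * θ ^ a' ≤ θ / 4) (hκ : κ ^ (a + a') ≤ l)
    (C0 : 0 ≤ C) (hC : ∀ k : ℕ, (k : ℝ) ^ 2 ≤ C * l ^ k) (C0' : 0 ≤ C') (c3 : 0 ≤ c₃) (c4 : 0 ≤ c₄)
    {u : ℕ → ℝ} (hu : ∀ m < a * (n + L + 1), u m ≤ c₃ * (n + a * (n + L + 1)) / (ξ / κ) ^ (m + 1) *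
      (2 ^ L * θ ^ (a' * (n + L + 1) + R) + c₄ * (κ ^ (a' * (n + L + 1) + R) * ξ ^ (n + m)))) :
    ∑ m ∈ Finset.range (a * (n + L + 1)), u m +
      (2 ^ L) ^ 3 * C' * θ ^ n * (ξ / κ) ^ (a * (n + L + 1)) ≤
      (c₃ * (a * (a + 1)) * C * (1 + c₄ * (2 / p) * 2 ^ R * 4) + C') * (l ^ 2) ^ L * s' ^ n := by
  set k := n + L + 1 with hk
  have x0 : 0 < ξ / κ := by positivity
  have x1 : ξ / κ ≤ ξ := div_le_self ξ0.le κ1
  have x2 : 1 / (ξ / κ) ≤ 2 / p := by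
    rw [one_div_div]; gcongr
  have s0 : 0 < s' := by linarith
  have lL : 1 ≤ (l ^ 2) ^ L := one_le_pow₀ (one_le_pow₀ l1)
  have B : 2 ^ L * θ ^ (a' * k + R) / (ξ / κ) ^ (a * k) ≤ (θ / 4) ^ k := by
    refine le_trans ?_ (pow_le_pow_left₀ (by positivity) ha' k)
    have b1 : (2 : ℝ) ^ L ≤ 2 ^ k := pow_le_pow_right₀ one_le_two (by omega)
    have b2 : θ ^ (a' * k + R) ≤ θ ^ (a' * k) := pow_le_pow_of_le_one θ0.le θ1 (by omega)
    have b3 : 1 / (ξ / κ) ^ (a * k) ≤ (2 / p) ^ (a * k) := by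
      rw [← one_div_pow]; gcongr
    calc _ = 1 / (ξ / κ) ^ (a * k) * 2 ^ L * θ ^ (a' * k + R) := by ring
      _ ≤ (2 / p) ^ (a * k) * 2 ^ k * θ ^ (a' * k) := by gcongr
      _ = _ := by rw [mul_pow, mul_pow, ← pow_mul, ← pow_mul]
  have A : κ ^ (a' * k + R) * κ ^ (a * k) ≤ 2 ^ R * l ^ k := by
    calc _ = κ ^ R * (κ ^ (a + a')) ^ k := by rw [← pow_mul]; ring
      _ ≤ _ := by gcongr
  have term : ∀ m ∈ Finset.range (a * k), u m ≤ c₃ * (n + a * k) *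
      ((θ / 4) ^ k + c₄ * (2 / p) * (2 ^ R * l ^ k) * ξ ^ n) := fun m hm => by
    have hm' := Finset.mem_range.1 hm
    refine (hu m hm').trans ?_
    have t1 : 2 ^ L * θ ^ (a' * k + R) / (ξ / κ) ^ (m + 1) ≤ (θ / 4) ^ k :=
      le_trans (div_le_div_of_nonneg_left (by positivity) (by positivity)
        (pow_le_pow_of_le_one x0.le (by linarith) hm')) B
    have t2 : κ ^ (a' * k + R) * ξ ^ (n + m) / (ξ / κ) ^ (m + 1) ≤
        (2 / p) * (2 ^ R * l ^ k) * ξ ^ n := by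
      have : κ ^ m ≤ κ ^ (a * k) := pow_le_pow_right₀ κ1 hm'.le
      calc _ = 1 / (ξ / κ) * (κ ^ (a' * k + R) * κ ^ m) * ξ ^ n := by
            rw [pow_succ, div_pow]; field_simp; ring
        _ ≤ (2 / p) * (κ ^ (a' * k + R) * κ ^ (a * k)) * ξ ^ n := by gcongr
        _ ≤ _ := by gcongr
    have e : ((n : ℝ) + L + 1) = k := by rw [hk]; push_cast; ring
    rw [e]
    calc _ = c₃ * (n + a * k) * (2 ^ L * θ ^ (a' * k + R) / (ξ / κ) ^ (m + 1) +
          c₄ * (κ ^ (a' * k + R) * ξ ^ (n + m) / (ξ / κ) ^ (m + 1))) := by ring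
      _ ≤ c₃ * (n + a * k) * ((θ / 4) ^ k + c₄ * ((2 / p) * (2 ^ R * l ^ k) * ξ ^ n)) := by gcongr
      _ = _ := by ring
  have h1 := Finset.sum_le_card_nsmul _ _ _ term
  rw [Finset.card_range, nsmul_eq_mul] at h1
  have nk : (n : ℝ) ≤ k := by exact_mod_cast (by omega : n ≤ k)
  have q1 : ((a * k : ℕ) : ℝ) * (n + a * k) ≤ a * (a + 1) * (C * l ^ k) := by
    push_cast
    calc _ ≤ (a : ℝ) * k * (k + a * k) := by gcongr
      _ = a * (a + 1) * k ^ 2 := by ring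
      _ ≤ _ := by gcongr; exact hC k
  have q2 : l ^ k * (θ / 4) ^ k ≤ (l ^ 2) ^ L * s' ^ n := by
    rw [← mul_pow]
    calc _ ≤ s' ^ k := pow_le_pow_left₀ (by positivity) (by nlinarith) k
      _ ≤ s' ^ n := pow_le_pow_of_le_one s0.le s1 (by omega)
      _ ≤ _ := le_mul_of_one_le_left (by positivity) lL
  have q3 : l ^ k * l ^ k * ξ ^ n ≤ 4 * ((l ^ 2) ^ L * s' ^ n) := by
    calc _ = l ^ 2 * ((l ^ 2) ^ L * (l ^ 2 * ξ) ^ n) := by rw [hk]; ring
      _ ≤ 2 ^ 2 * ((l ^ 2) ^ L * s' ^ n) := by gcongr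
      _ = _ := by norm_num
  have q4 : (2 ^ L) ^ 3 * θ ^ n * (ξ / κ) ^ (a * k) ≤ (l ^ 2) ^ L * s' ^ n := by
    have b1 : (ξ / κ) ^ (a * k) ≤ (1 / 8) ^ (n + L) := by
      rw [pow_mul]
      exact (pow_le_pow_left₀ (by positivity) ((pow_le_pow_left₀ x0.le (x1.trans hξ) a).trans ha)
        k).trans (pow_le_pow_of_le_one (by norm_num) (by norm_num) (by omega))
    calc _ ≤ (2 ^ L) ^ 3 * θ ^ n * (1 / 8) ^ (n + L) := by gcongr
      _ = (θ / 8) ^ n * ((2 ^ 3) ^ L * (1 / 8) ^ L) := by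
          rw [← pow_mul, ← pow_mul, pow_add, div_eq_mul_one_div θ, mul_pow, mul_comm L 3]; ring
      _ = (θ / 8) ^ n := by rw [← mul_pow]; norm_num
      _ ≤ s' ^ n := pow_le_pow_left₀ (by positivity) (by linarith) n
      _ ≤ _ := le_mul_of_one_le_left (by positivity) lL
  calc _ ≤ c₃ * (((a * k : ℕ) : ℝ) * (n + a * k)) *
        ((θ / 4) ^ k + c₄ * (2 / p) * (2 ^ R * l ^ k) * ξ ^ n) +
        C' * ((2 ^ L) ^ 3 * θ ^ n * (ξ / κ) ^ (a * k)) :=
        add_le_add (h1.trans_eq (by ring)) (le_of_eq (by ring))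
    _ ≤ c₃ * (a * (a + 1) * (C * l ^ k)) *
        ((θ / 4) ^ k + c₄ * (2 / p) * (2 ^ R * l ^ k) * ξ ^ n) + C' * ((l ^ 2) ^ L * s' ^ n) := by
        gcongr
    _ = c₃ * (a * (a + 1)) * C * (l ^ k * (θ / 4) ^ k +
        c₄ * (2 / p) * 2 ^ R * (l ^ k * l ^ k * ξ ^ n)) + C' * ((l ^ 2) ^ L * s' ^ n) := by ring
    _ ≤ c₃ * (a * (a + 1)) * C * ((l ^ 2) ^ L * s' ^ n +
        c₄ * (2 / p) * 2 ^ R * (4 * ((l ^ 2) ^ L * s' ^ n))) + C' * ((l ^ 2) ^ L * s' ^ n) := by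
        gcongr
    _ = _ := by ring

variable [T.LocallyFinite] [H.LocallyFinite] {b : ℕ}

theorem boot_step (hT : RT T b) (hH : HH H) {p : I} (p0 : (0 : ℝ) < p) {θ ξ κ l s' : ℝ}
    (θ0 : 0 < θ) (hθ : θ ^ 2 * b = 1) (hU : UB T H p ξ) (hU' : ¬ UB T H p (ξ / κ))
    {a a' : ℕ} (a1 : 1 ≤ a) (κ1 : 1 ≤ κ) (κ2 : κ ≤ 2) (hp : (p : ℝ) ≤ ξ) (hξ : ξ ≤ θ)
    (l1 : 1 < l) (l2 : l ≤ 2) (hs : l ^ 2 * ξ ≤ s') (hs' : θ / 2 ≤ s') (s1 : s' ≤ 1)
    (ha : θ ^ a ≤ 1 / 8) (ha' : (2 / p) ^ a * 2 * θ ^ a' ≤ θ / 4) (hκ : κ ^ (a + a') ≤ l) :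
    ∃ K : ℝ, ∀ (Λ : Finset (α × β)) (L : ℕ),
      (∀ x ∈ Λ, ∀ v, gg T H p Λ x v ≤ 2 ^ L * θ ^ T.dist x.1 v) →
      ∀ x ∈ Λ, ∀ v, gg T H p Λ x v ≤ K * (l ^ 2) ^ L * s' ^ T.dist x.1 v := by
  classical
  have hb : (2 : ℝ) ≤ b := by exact_mod_cast hT.two_le
  have θ1 : θ < 1 := by nlinarith
  have ξ0 : 0 < ξ := p0.trans_le hp
  have x0 : 0 < ξ / κ := by positivity
  have x1 : ξ / κ ≤ 1 := (div_le_self ξ0.le κ1).trans (by linarith)
  have p1 : (p : ℝ) ≤ 1 := p.2.2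
  obtain ⟨r, R, hL⟩ := LB_of_not_UB hT hH hU'
  obtain ⟨C, C0, hC⟩ := sq_le_geom l1
  obtain ⟨C', C0', hC'⟩ := hT.conv_sum θ0 hθ (s := θ ^ 2) (by positivity) (by nlinarith)
  obtain ⟨C₂, hC₂⟩ := hH.growth 2 one_lt_two
  set χ := ⌈C₂ * 2 ^ (2 * R)⌉₊
  have hχ : ∀ h, (bl hH.conn h (2 * R)).card ≤ χ := fun h => by
    have : ((bl hH.conn h (2 * R)).card : ℝ) ≤ χ := (hC₂ h _).trans (Nat.le_ceil _)
    exact_mod_cast this
  refine ⟨(2 * χ / (p * p ^ (4 * R + r))) * (a * (a + 1)) * C *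
    (1 + (1 / p ^ (2 * R + r) + χ) * (2 / p) * 2 ^ R * 4) + C', fun Λ L hA x hx v => ?_⟩
  obtain ⟨o, h⟩ := x
  have χ1 : 1 ≤ χ := le_trans (Finset.card_pos.2 ⟨h, (mem_bl _).2 (by simp)⟩) (hχ h)
  have χ1' : (1 : ℝ) ≤ χ := by exact_mod_cast χ1
  set n := T.dist o v with hn
  set bt : ℕ → ℝ := fun m => (p : ℝ) ^ (4 * R + r) * (ξ / κ) ^ m with hbt
  have bt0 : ∀ m, 0 < bt m := fun m => by positivity
  have bt1 : ∀ m, bt m ≤ (ξ / κ) ^ m := fun m =>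
    mul_le_of_le_one_left (by positivity) (pow_le_one₀ p0.le p1)
  set t : ℕ → ℕ := fun m => ⌈((n + m : ℕ) : ℝ) / (p * bt m)⌉₊ with ht
  set s : ℕ → ℕ := fun m => if m = 0 then 1 else χ * t m with hsd
  have t1 : ∀ m, 1 ≤ m → 1 / (ξ / κ) ^ m ≤ ((n + m : ℕ) : ℝ) / (p * bt m) := fun m hm => by
    refine div_le_div₀ (by positivity) (by exact_mod_cast (by omega : 1 ≤ n + m))
      (mul_pos p0 (bt0 m)) ((mul_le_of_le_one_left (bt0 m).le p1).trans (bt1 m))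
  have M1 : 1 ≤ a * (n + L + 1) := Nat.mul_pos a1 (by omega)
  have sM : 1 / (ξ / κ) ^ (a * (n + L + 1)) ≤ s (a * (n + L + 1)) := by
    simp only [hsd]
    rw [if_neg (by omega)]
    push_cast
    exact ((t1 _ M1).trans (Nat.le_ceil _)).trans (le_mul_of_one_le_left (by positivity) χ1')
  have sM0 : (0 : ℝ) < s (a * (n + L + 1)) := lt_of_lt_of_le (by positivity) sM
  have h1 := moment_layer (fun _ => p) (Λ.filter (·.1 = v))
    (A := fun y => Cn (T.boxProd H) (EIn Λ) (o, h) y)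
    (fun _ _ => Cn_loc (EIn_finite Λ.finite_toSet)) (a * (n + L + 1)) s rfl (by exact_mod_cast sM0)
  have h2 := second_moment p (by positivity) hC' hA hx v
  refine h1.trans (le_trans (add_le_add le_rfl ?_) (numeric θ0 θ1.le p0 ξ0 κ1 κ2 hp hξ l1.le l2 hs
    hs' s1 ha ha' hκ C0 hC C0' (by positivity) (by positivity) (n := n) (L := L) (R := R)
    fun m hm => ?_))
  · rw [div_le_iff₀ sM0]
    refine h2.trans (le_trans (le_of_eq ?_) (mul_le_mul_of_nonneg_left sM (by positivity)))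
    field_simp
    rfl
  · refine mul_le_mul ?_ ?_ (Pr_nonneg _ _) (by positivity)
    · simp only [hsd]
      rw [if_neg (by omega)]
      have e1 := (Nat.ceil_lt_add_one (a := ((n + (m + 1) : ℕ) : ℝ) / (p * bt (m + 1)))
        (by have := bt0 (m + 1); positivity)).le
      have e2 : 1 ≤ ((n + (m + 1) : ℕ) : ℝ) / (p * bt (m + 1)) :=
        le_trans (one_le_one_div (by positivity) (pow_le_one₀ x0.le x1)) (t1 _ (by omega))
      have e3 : ((n + (m + 1) : ℕ) : ℝ) ≤ n + a * (n + L + 1) := by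
        exact_mod_cast (by omega : n + (m + 1) ≤ n + a * (n + L + 1))
      calc ((χ * t (m + 1) : ℕ) : ℝ) ≤ χ * (2 * (((n + (m + 1) : ℕ) : ℝ) / (p * bt (m + 1)))) := by
            rw [Nat.cast_mul]; gcongr; simp only [ht]; linarith
        _ ≤ χ * (2 * ((n + a * (n + L + 1)) / (p * bt (m + 1)))) := by
            have := bt0 (m + 1); gcongr
        _ = _ := by simp only [hbt]; field_simp
    · have k1 : 1 ≤ κ ^ (a' * (n + L + 1) + R) := one_le_pow₀ κ1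
      simp only [hsd]
      split_ifs with hm0
      · subst hm0
        obtain ⟨u, e, h3⟩ := tail_zero hT hH p0 hU ξ0 κ1 hL x1 hx v (a' * (n + L + 1) + R)
        have h4 := hA _ hx u
        rw [e] at h4
        refine h3.trans (add_le_add h4 ?_)
        rw [add_zero, add_mul, one_div_mul_eq_div]
        exact le_add_of_nonneg_right (by positivity)
      · obtain ⟨u, e, h3⟩ := tail_pos hT hH p0 hU ξ0 (by linarith) hL x1 hχ hx v
          (j := a' * (n + L + 1) + R) (m := m) (by omega) (by omega) (t m)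
        have h4 := hA _ hx u
        rw [e] at h4
        refine h3.trans ?_
        rw [add_assoc, add_mul, one_div_mul_eq_div]
        refine add_le_add h4 (add_le_add le_rfl (mul_le_mul_of_nonneg_left ?_ (by positivity)))
        refine (one_sub_pow_le p0 (bt0 m) ((bt1 m).trans (pow_le_one₀ x0.le x1)) (n + m)).trans ?_
        exact (pow_le_pow_left₀ p0.le hp _).trans (le_mul_of_one_le_left (by positivity) k1)

theorem le_of_UB (hT : RT T b) (hH : HH H) {p : I} {ξ : ℝ} (hU : UB T H p ξ) : (p : ℝ) ≤ ξ := by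
  obtain ⟨a⟩ := hT.conn.nonempty
  obtain ⟨h⟩ := hH.conn.nonempty
  obtain ⟨c, -, e⟩ := hT.exists_ext a a 1
  have := (strat_straight hT.conn hH.conn p 0 h (btw_left a c) (btw_right a c)).trans
    (hU a c h _ (StE_finite hT.conn hH.conn 0 a c h))
  simpa [e] using this

/-- uniform exponential bound for the expected number of points in a fibre -/
theorem boot (hT : RT T b) (hH : HH H) {p : I} (p0 : (0 : ℝ) < p) {θ s : ℝ}
    (θ0 : 0 < θ) (hθ : θ ^ 2 * b = 1) (hs : s < θ) (hU : UB T H p s) :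
    ∃ K s' : ℝ, 0 ≤ s' ∧ s' < θ ∧ ∀ (Λ : Finset (α × β)), ∀ x ∈ Λ, ∀ v,
      gg T H p Λ x v ≤ K * s' ^ T.dist x.1 v := by
  classical
  have hb : (2 : ℝ) ≤ b := by exact_mod_cast hT.two_le
  have θ1 : θ < 1 := by nlinarith
  have s0 : 0 < s := p0.trans_le (le_of_UB hT hH hU)
  obtain ⟨a, ha⟩ := exists_pow_lt_of_lt_one (show (0 : ℝ) < 1 / 8 by norm_num) θ1
  have a1 : 1 ≤ a := Nat.one_le_iff_ne_zero.2 (by rintro rfl; norm_num at ha)
  obtain ⟨a', ha'⟩ := exists_pow_lt_of_lt_one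
    (show (0 : ℝ) < θ / 4 / ((2 / p) ^ a * 2) by positivity) θ1
  rw [lt_div_iff₀' (by positivity)] at ha'
  obtain ⟨l, l1, l2, l3⟩ := exists_near_one (P := fun l => l ^ 2 < 3 / 2 ∧ l ^ 2 * s < (s + θ) / 2)
    (((continuous_pow 2).continuousAt.eventually_lt continuousAt_const (by norm_num)).and
      (((continuous_pow 2).mul continuous_const).continuousAt.eventually_lt continuousAt_const
        (by simp; linarith)))
  obtain ⟨κ, κ1, κ2, κ3⟩ := exists_near_one (P := fun κ => κ < 2 ∧ κ ^ (a + a') < l)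
    ((continuous_id.continuousAt.eventually_lt continuousAt_const (by norm_num)).and
      ((continuous_pow _).continuousAt.eventually_lt continuousAt_const (by simpa using l1)))
  have ex : ∃ i : ℕ, ¬ UB T H p (s / κ ^ (i + 1)) := by
    obtain ⟨i, hi⟩ := pow_unbounded_of_one_lt (s / p) κ1
    refine ⟨i, fun h => ?_⟩
    have h1 := le_of_UB hT hH h
    rw [le_div_iff₀ (by positivity)] at h1
    rw [div_lt_iff₀ p0] at hi
    have : κ ^ i ≤ κ ^ (i + 1) := pow_le_pow_right₀ κ1.le (by omega)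
    nlinarith
  have hU1 : UB T H p (s / κ ^ Nat.find ex) := by
    rcases h : Nat.find ex with _ | i
    · simpa using hU
    · exact not_not.1 (Nat.find_min ex (by omega))
  have hU2 := Nat.find_spec ex
  rw [pow_succ, ← div_div] at hU2
  have x1 : s / κ ^ Nat.find ex ≤ s := div_le_self s0.le (one_le_pow₀ κ1.le)
  obtain ⟨K, hK⟩ := boot_step hT hH p0 (s' := (s + θ) / 2) θ0 hθ hU1 hU2 a1 κ1.le κ2.le
    (le_of_UB hT hH hU1) (by linarith) l1 (by nlinarith)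
    (le_trans (by gcongr) l3.le) (by linarith) (by linarith) ha.le ha'.le κ3.le
  obtain ⟨L₀, hL₀⟩ : ∃ L₀ : ℕ, ∀ L ≥ L₀, K * (l ^ 2) ^ (L + 1) ≤ 2 ^ L := by
    have h1 := (tendsto_pow_atTop_nhds_zero_of_lt_one (r := l ^ 2 / 2) (by positivity)
      (by linarith)).const_mul (K * l ^ 2)
    rw [mul_zero] at h1
    obtain ⟨L₀, h2⟩ := Filter.eventually_atTop.1 (h1.eventually_lt_const one_pos)
    refine ⟨L₀, fun L hL => ?_⟩
    have := h2 L hL
    rw [div_pow, ← mul_div_assoc, div_lt_one (by positivity)] at this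
    rw [pow_succ']; linarith
  refine ⟨K * (l ^ 2) ^ L₀, (s + θ) / 2, by linarith, by linarith, fun Λ => hK Λ L₀ ?_⟩
  have down : ∀ L, (∀ x ∈ Λ, ∀ v, gg T H p Λ x v ≤ 2 ^ (L₀ + L) * θ ^ T.dist x.1 v) →
      ∀ x ∈ Λ, ∀ v, gg T H p Λ x v ≤ 2 ^ L₀ * θ ^ T.dist x.1 v := by
    intro L
    induction L with
    | zero => exact id
    | succ L ih =>
      refine fun h => ih fun x hx v => (hK Λ _ h x hx v).trans ?_
      exact mul_le_mul (hL₀ (L₀ + L) (by omega)) (pow_le_pow_left₀ (by linarith) (by linarith) _)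
        (by positivity) (by positivity)
  obtain ⟨B, hB⟩ := ((Λ ×ˢ Λ).finite_toSet.image
    fun q => gg T H p Λ q.1 q.2.1 / θ ^ T.dist q.1.1 q.2.1).bddAbove
  obtain ⟨L, hL⟩ := pow_unbounded_of_one_lt B one_lt_two
  refine down L fun x hx v => ?_
  by_cases hv : ∃ y ∈ Λ, y.1 = v
  · obtain ⟨y, hy, rfl⟩ := hv
    rw [← div_le_iff₀ (by positivity)]
    exact (hB ⟨(x, y), Finset.mem_product.2 ⟨hx, hy⟩, rfl⟩).trans
      (hL.le.trans (pow_le_pow_right₀ one_le_two (by omega)))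
  · rw [gg, Finset.filter_eq_empty_iff.2 fun y hy h => hv ⟨y, hy, h⟩, Finset.sum_empty]
    positivity

end Pool.Agent.P.MP_3aa27f_pr
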