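import Pool.Agent.P.MP_3aa27f_pr.BK

/-! Connection events of bond percolation on a graph. -/

open MeasureTheory ProbabilityTheory unitInterval

namespace Pool.Agent.P.MP_3aa27f_pr

variable {V : Type*} {G : SimpleGraph V}

/-- `x` and `y` are joined by an open walk of `G` using only edges in `F` -/
def Cn (G : SimpleGraph V) (F : Set (Sym2 V)) (x y : V) : Set (Sym2 V → Bool) :=
  {ω | ∃ w : G.Walk x y, ∀ e ∈ w.edges, e ∈ F ∧ ω e = true}

/-- `x` is joined to the set `Z` -/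
def Rch (G : SimpleGraph V) (F : Set (Sym2 V)) (x : V) (Z : Set V) : Set (Sym2 V → Bool) :=
  {ω | ∃ z ∈ Z, ω ∈ Cn G F x z}

/-- pairs inside `S` -/
def EIn (S : Set V) : Set (Sym2 V) := {e | ∀ z ∈ e, z ∈ S}

/-- pairs meeting `S` -/
def ETo (S : Set V) : Set (Sym2 V) := {e | ∃ z ∈ e, z ∈ S}

theorem mem_EIn {S : Set V} {a b : V} : s(a, b) ∈ EIn S ↔ a ∈ S ∧ b ∈ S := by simp [EIn]

theorem EIn_mono {S S' : Set V} (h : S ⊆ S') : EIn S ⊆ EIn S' := fun _ he z hz => h (he z hz)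

theorem EIn_coe [DecidableEq V] (S : Finset V) : EIn (S : Set V) = (S.sym2 : Set (Sym2 V)) := by
  ext e; rw [Finset.mem_coe, Finset.mem_sym2_iff]; rfl

theorem EIn_finite {S : Set V} (h : S.Finite) : (EIn S).Finite := by
  classical
  lift S to Finset V using h
  rw [EIn_coe]; exact Finset.finite_toSet _

theorem EIn_disjoint {S S' : Set V} (h : Disjoint S S') : Disjoint (EIn S) (EIn S') := by
  rw [Set.disjoint_left]
  intro e h1 h2
  induction e using Sym2.ind with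
  | _ a b => exact Set.disjoint_left.1 h (mem_EIn.1 h1).1 (mem_EIn.1 h2).1

variable {F F' : Set (Sym2 V)} {x y z : V} {Z Z' : Set V} {ω : Sym2 V → Bool}

theorem Cn_refl (F : Set (Sym2 V)) (x : V) (ω : Sym2 V → Bool) : ω ∈ Cn G F x x :=
  ⟨.nil, by simp⟩

theorem Cn_symm (h : ω ∈ Cn G F x y) : ω ∈ Cn G F y x :=
  let ⟨w, hw⟩ := h; ⟨w.reverse, by simpa using hw⟩

theorem Cn_comm : Cn G F x y = Cn G F y x := Set.ext fun _ => ⟨Cn_symm, Cn_symm⟩

theorem Cn_trans (h : ω ∈ Cn G F x y) (h' : ω ∈ Cn G F y z) : ω ∈ Cn G F x z := by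
  obtain ⟨w, hw⟩ := h
  obtain ⟨w', hw'⟩ := h'
  refine ⟨w.append w', fun e he => ?_⟩
  rw [SimpleGraph.Walk.edges_append, List.mem_append] at he
  exact he.elim (hw e) (hw' e)

theorem Cn_mono' (h : ∀ a b, G.Adj a b → s(a, b) ∈ F → s(a, b) ∈ F') :
    Cn G F x y ⊆ Cn G F' x y := by
  rintro ω ⟨w, hw⟩
  refine ⟨w, fun e he => ⟨?_, (hw e he).2⟩⟩
  have h1 := w.edges_subset_edgeSet he
  have h2 := (hw e he).1
  induction e using Sym2.ind with
  | _ a b => exact h a b h1 h2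

theorem Cn_mono (h : F ⊆ F') : Cn G F x y ⊆ Cn G F' x y := Cn_mono' fun _ _ _ h1 => h h1

theorem Cn_edge (h : G.Adj x y) (hF : s(x, y) ∈ F) (hω : ω s(x, y) = true) : ω ∈ Cn G F x y :=
  ⟨h.toWalk, by simpa using ⟨hF, hω⟩⟩

theorem Cn_upper : IsUpperSet (Cn G F x y) := fun ω ω' h ⟨w, hw⟩ =>
  ⟨w, fun e he => ⟨(hw e he).1, by have := h e; rw [(hw e he).2] at this; exact top_le_iff.1 this⟩⟩

theorem Cn_dep : Dep (Cn G F x y) F := fun _ _ h ⟨w, hw⟩ =>
  ⟨w, fun e he => ⟨(hw e he).1, h e (hw e he).1 ▸ (hw e he).2⟩⟩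

theorem Cn_loc (h : F.Finite) : Loc (Cn G F x y) := Cn_dep.loc h

theorem Cn_mem {S : Set V} (h : ω ∈ Cn G (EIn S) x y) (hx : x ∈ S) : y ∈ S := by
  obtain ⟨w, hw⟩ := h
  induction w with
  | nil => exact hx
  | @cons u v _ h p ih =>
    exact ih (mem_EIn.1 (hw s(u, v) (by simp)).1).2 fun e he => hw e (by simp [he])

theorem Rch_single : Rch G F x {y} = Cn G F x y := by ext; simp [Rch]

theorem Rch_upper : IsUpperSet (Rch G F x Z) := fun _ _ h ⟨z, hz, h1⟩ => ⟨z, hz, Cn_upper h h1⟩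

theorem Rch_dep : Dep (Rch G F x Z) F := fun _ _ h ⟨z, hz, h1⟩ => ⟨z, hz, Cn_dep h h1⟩

theorem Rch_loc (h : F.Finite) : Loc (Rch G F x Z) := Rch_dep.loc h

theorem Rch_mono (h : F ⊆ F') (hZ : Z ⊆ Z') : Rch G F x Z ⊆ Rch G F' x Z' :=
  fun _ ⟨z, hz, h1⟩ => ⟨z, hZ hz, Cn_mono h h1⟩

theorem Rch_trans (h : ω ∈ Cn G F x y) (h' : ω ∈ Rch G F y Z) : ω ∈ Rch G F x Z :=
  let ⟨z, hz, h1⟩ := h'; ⟨z, hz, Cn_trans h h1⟩

theorem Pr_Cn_Rch (π : Sym2 V → I) (hF : F.Finite) (x y : V) (Z : Set V) :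
    Pr π (Cn G F x y) * Pr π (Rch G F y Z) ≤ Pr π (Rch G F x Z) :=
  (harris_upper π (Cn_loc hF) (Rch_loc hF) Cn_upper Rch_upper).trans
    (Pr_mono fun _ h => Rch_trans h.1 h.2)

theorem Pr_Cn_Cn (π : Sym2 V → I) (hF : F.Finite) (x y z : V) :
    Pr π (Cn G F x y) * Pr π (Cn G F y z) ≤ Pr π (Cn G F x z) := by
  simpa only [Rch_single] using Pr_Cn_Rch π hF x y {z}

theorem Pr_Cn_self (π : Sym2 V → I) (F : Set (Sym2 V)) (x : V) : Pr π (Cn G F x x) = 1 := by
  rw [Set.eq_univ_of_forall (Cn_refl F x), Pr_univ]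

/-- transport along an automorphism -/
theorem Pr_Rch_map (p : I) (φ : G ≃g G) (hF : F.Finite) (h : ∀ e ∈ F, Sym2.map φ e ∈ F')
    (hZ : ∀ z ∈ Z, φ z ∈ Z') (x : V) :
    Pr (fun _ => p) (Rch G F x Z) ≤ Pr (fun _ => p) (Rch G F' (φ x) Z') := by
  rw [← Pr_comp_inj (fun _ => p) (Sym2.map.injective φ.injective) (Rch_loc hF)]
  refine Pr_mono ?_
  rintro ω ⟨z, hz, w, hw⟩
  refine ⟨φ z, hZ z hz, w.map φ.toHom, fun e he => ?_⟩
  rw [SimpleGraph.Walk.edges_map, List.mem_map] at he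
  obtain ⟨e, he, rfl⟩ := he
  exact ⟨h e (hw e he).1, (hw e he).2⟩

/-- opening a geodesic -/
theorem Pr_geo {W : Type*} {K : SimpleGraph W} (hK : K.Connected) (φ : K →g G) (p : I)
    (hF : F.Finite) (c : W) : ∀ (n : ℕ) (a : W), K.dist a c = n →
      (∀ u v, K.Adj u v → K.dist a c = K.dist a u + K.dist u c → K.dist u c = K.dist v c + 1 →
        s(φ u, φ v) ∈ F) → (p : ℝ) ^ n ≤ Pr (fun _ => p) (Cn G F (φ a) (φ c)) := by
  intro n
  induction n with
  | zero =>
    intro a ha _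
    rw [hK.dist_eq_zero_iff.1 ha, Pr_Cn_self, pow_zero]
  | succ n ih =>
    intro a ha h
    obtain ⟨w, hw⟩ := hK.exists_walk_length_eq_dist a c
    cases w with
    | nil => simp at ha
    | @cons _ a' _ hadj w =>
      have h1 : K.dist a' c ≤ n := by
        have := K.dist_le w
        simp only [SimpleGraph.Walk.length_cons] at hw
        omega
      have h2 := hK.dist_triangle (u := a) (v := a') (w := c)
      have h3 := SimpleGraph.dist_eq_one_iff_adj.2 hadj
      have h4 : K.dist a' c = n := by omega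
      have i1 := ih a' h4 fun u v huv e1 e2 => h u v huv (by
        have := hK.dist_triangle (u := a) (v := a') (w := u)
        have := hK.dist_triangle (u := a) (v := u) (w := c)
        omega) e2
      have i2 : (p : ℝ) ≤ Pr (fun _ => p) (Cn G F (φ a) (φ a')) := by
        have := Pr_eval (fun _ : Sym2 V => p) s(φ a, φ a') true
        rw [wt_true] at this
        rw [← this]
        exact Pr_mono fun ω hω => Cn_edge (φ.map_adj hadj) (h a a' hadj (by simp) (by omega)) hω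
      refine le_trans ?_ (Pr_Cn_Cn _ hF _ (φ a') _)
      rw [pow_succ']
      exact mul_le_mul i2 i1 (pow_nonneg p.2.1 _) (Pr_nonneg _ _)

/-- first exit of a walk from a set -/
theorem walk_exit (S : Set V) (w : G.Walk x y) : (∀ z ∈ w.support, z ∈ S) ∨
    ∃ z ∉ S, ∃ (w₁ : G.Walk x z) (w₂ : G.Walk z y), w.edges = w₁.edges ++ w₂.edges ∧
      (∀ e ∈ w₁.edges, e ∈ ETo S) ∧ (z = x ∨ ∃ a ∈ S, G.Adj a z) := by
  induction w with
  | @nil u =>
    by_cases h : u ∈ S
    · exact Or.inl (by simpa using h)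
    · exact Or.inr ⟨u, h, .nil, .nil, by simp, by simp, Or.inl rfl⟩
  | @cons u v t huv p ih =>
    by_cases h : u ∈ S
    · rcases ih with ih | ⟨z, hz, w₁, w₂, e, h1, h2⟩
      · exact Or.inl (by simpa using ⟨h, ih⟩)
      · refine Or.inr ⟨z, hz, .cons huv w₁, w₂, by simp [e], ?_, Or.inr ?_⟩
        · intro e he
          rcases List.mem_cons.1 he with rfl | he
          · exact ⟨u, by simp, h⟩
          · exact h1 e he
        · rcases h2 with rfl | h2
          · exact ⟨u, h, huv⟩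
          · exact h2
    · exact Or.inr ⟨u, h, .nil, .cons huv p, by simp, by simp, Or.inl rfl⟩

open Classical in
/-- indicator of a list of edges -/
noncomputable def ind (l : List (Sym2 V)) : Sym2 V → Bool := fun e => decide (e ∈ l)

theorem ind_true {l : List (Sym2 V)} {e : Sym2 V} : ind l e = true ↔ e ∈ l := by simp [ind]

theorem ind_le {l : List (Sym2 V)} (h : ∀ e ∈ l, ω e = true) : ind l ≤ ω := fun e => by
  by_cases he : e ∈ l
  · rw [h e he]; exact le_top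
  · simp [ind, he]

theorem DO_of_lists {A B : Set (Sym2 V → Bool)} {l l' : List (Sym2 V)} (hd : l.Disjoint l')
    (h : ∀ e ∈ l, ω e = true) (h' : ∀ e ∈ l', ω e = true) (hA : ind l ∈ A) (hB : ind l' ∈ B) :
    ω ∈ DO A B :=
  ⟨_, _, ind_le h, ind_le h', fun _ a b => hd (ind_true.1 a) (ind_true.1 b), hA, hB⟩

theorem Cn_path (h : ω ∈ Cn G F x y) :
    ∃ w : G.Walk x y, w.IsPath ∧ ∀ e ∈ w.edges, e ∈ F ∧ ω e = true := by
  classical
  obtain ⟨w, hw⟩ := h
  exact ⟨w.bypass, w.bypass_isPath, fun e he => hw e (w.edges_bypass_subset_edges he)⟩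

/-- stay inside or exit -/
theorem Cn_exit (S : Set V) (h : ω ∈ Cn G F x y) : (y ∈ S ∧ ω ∈ Cn G (F ∩ EIn S) x y) ∨
    ∃ z ∉ S, (z = x ∨ ∃ a ∈ S, G.Adj a z) ∧ ω ∈ Cn G (F ∩ ETo S) x z ∧
      ω ∈ DO (Cn G (F ∩ ETo S) x z) (Cn G F z y) := by
  obtain ⟨w, hp, hw⟩ := Cn_path h
  rcases walk_exit S w with h1 | ⟨z, hz, w₁, w₂, e, h1, h2⟩
  · refine Or.inl ⟨h1 y w.end_mem_support, w, fun e he => ⟨⟨(hw e he).1, fun z hz => h1 z ?_⟩,
      (hw e he).2⟩⟩
    exact SimpleGraph.Walk.mem_support_of_mem_edges he hz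
  · have nd := hp.isTrail.edges_nodup
    rw [e] at hw nd
    have a1 : ∀ e ∈ w₁.edges, e ∈ F ∧ ω e = true := fun e he => hw e (by simp [he])
    have a2 : ∀ e ∈ w₂.edges, e ∈ F ∧ ω e = true := fun e he => hw e (by simp [he])
    refine Or.inr ⟨z, hz, h2, ⟨w₁, fun e he => ⟨⟨(a1 e he).1, h1 e he⟩, (a1 e he).2⟩⟩,
      DO_of_lists (List.disjoint_of_nodup_append nd) (fun e he => (a1 e he).2)
        (fun e he => (a2 e he).2) ⟨w₁, fun e he => ⟨⟨(a1 e he).1, h1 e he⟩, ind_true.2 he⟩⟩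
        ⟨w₂, fun e he => ⟨(a2 e he).1, ind_true.2 he⟩⟩⟩

/-- the tree-graph decomposition -/
theorem Cn_tree {y' : V} (h : ω ∈ Cn G F x y) (h' : ω ∈ Cn G F x y') :
    ∃ z, ω ∈ Cn G F x z ∧ ω ∈ DO (Cn G F x z) (DO (Cn G F z y) (Cn G F z y')) := by
  classical
  obtain ⟨w, hp, hw⟩ := Cn_path h
  obtain ⟨w', hw'⟩ := Cn_symm h'
  rcases walk_exit {z | z ∉ w.support} w' with h1 | ⟨z, hz, w₁, w₂, e, h1, -⟩
  · exact (h1 x w'.end_mem_support w.start_mem_support).elim
  · have hz' : z ∈ w.support := by simpa using hz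
    have nd := hp.isTrail.edges_nodup
    have e' : w.edges = (w.takeUntil z hz').edges ++ (w.dropUntil z hz').edges := by
      rw [← SimpleGraph.Walk.edges_append, SimpleGraph.Walk.take_spec]
    have dj : ∀ e ∈ w₁.edges, e ∉ w.edges := fun e he he' => by
      obtain ⟨a, ha, ha'⟩ := h1 e he
      exact ha' (SimpleGraph.Walk.mem_support_of_mem_edges he' ha)
    have b1 : ∀ e ∈ w₁.edges, e ∈ F ∧ ω e = true := fun e' he => hw' e' (by simp [e, he])
    rw [e'] at hw nd dj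
    generalize w.takeUntil z hz' = u₁ at hw nd dj
    generalize w.dropUntil z hz' = u₂ at hw nd dj
    have a1 : ∀ e ∈ u₁.edges, e ∈ F ∧ ω e = true := fun e he => hw e (by simp [he])
    have a2 : ∀ e ∈ u₂.edges, e ∈ F ∧ ω e = true := fun e he => hw e (by simp [he])
    refine ⟨z, ⟨u₁, a1⟩, DO_of_lists (l := u₁.edges) (l' := u₂.edges ++ w₁.edges) ?_
      (fun e he => (a1 e he).2)
      (fun e he => (List.mem_append.1 he).elim (fun h => (a2 e h).2) fun h => (b1 e h).2)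
      ⟨u₁, fun e he => ⟨(a1 e he).1, ind_true.2 he⟩⟩ (DO_of_lists (l := u₂.edges) (l' := w₁.edges)
        (fun e h1 h2 => dj e h2 (by simp [h1])) (fun e he => ind_true.2 (by simp [he]))
        (fun e he => ind_true.2 (by simp [he])) ⟨u₂, fun e he => ⟨(a2 e he).1, ind_true.2 he⟩⟩
        (Cn_symm ⟨w₁, fun e he => ⟨(b1 e he).1, ind_true.2 he⟩⟩))⟩
    intro e h1 h2
    rcases List.mem_append.1 h2 with h2 | h2
    · exact List.disjoint_of_nodup_append nd h1 h2
    · exact dj e h2 (by simp [h1])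

theorem Pr_tree (π : Sym2 V → I) (Λ : Finset V) (hx : x ∈ Λ) (y y' : V) :
    Pr π (Cn G (EIn Λ) x y ∩ Cn G (EIn Λ) x y') ≤ ∑ z ∈ Λ, Pr π (Cn G (EIn Λ) x z) *
      (Pr π (Cn G (EIn Λ) z y) * Pr π (Cn G (EIn Λ) z y')) := by
  have hF := EIn_finite Λ.finite_toSet
  refine le_trans (Pr_mono ?_) ((Pr_exists_le π Λ fun z =>
    DO (Cn G (EIn Λ) x z) (DO (Cn G (EIn Λ) z y) (Cn G (EIn Λ) z y'))).trans ?_)
  · rintro ω ⟨h1, h2⟩
    obtain ⟨z, h3, h4⟩ := Cn_tree h1 h2
    exact ⟨z, Cn_mem h3 hx, h4⟩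
  · refine Finset.sum_le_sum fun z _ => ?_
    refine (BK π (Cn_loc hF) ((Cn_loc hF).DO (Cn_loc hF)) Cn_upper (DO_upper _ _)).trans ?_
    exact mul_le_mul_of_nonneg_left (BK π (Cn_loc hF) (Cn_loc hF) Cn_upper Cn_upper)
      (Pr_nonneg _ _)

theorem ow_ow {ι : Type*} [DecidableEq ι] (J E : Finset ι) (η ζ ω : ι → Bool) :
    ow J η (ow E ζ ω) = ow (J ∪ E) (ow J η ζ) ω := by
  funext i
  by_cases h1 : i ∈ J
  · rw [ow_of_mem h1, ow_of_mem (Finset.mem_union_left _ h1), ow_of_mem h1]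
  · by_cases h2 : i ∈ E
    · rw [ow_of_notMem h1, ow_of_mem h2, ow_of_mem (Finset.mem_union_right _ h2), ow_of_notMem h1]
    · rw [ow_of_notMem h1, ow_of_notMem h2, ow_of_notMem (by simp [h1, h2])]

open Classical in
/-- the bad event of the hazard lemma -/
def Bad {κ : Type*} (G : SimpleGraph V) (F : Set (Sym2 V)) (x : V) (Z : Set V) (P : κ → Set V)
    (C : Finset κ) (t : ℕ) : Set (Sym2 V → Bool) :=
  {ω | ω ∉ Rch G F x Z ∧ t ≤ (C.filter fun c => ω ∈ Rch G F x (P c)).card}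

theorem Bad_dep {κ : Type*} (P : κ → Set V) (C : Finset κ) (t : ℕ) :
    Dep (Bad G F x Z P C t) F := by
  classical
  rintro ω ω' hω ⟨h1, h2⟩
  refine ⟨fun h => h1 ((Rch_dep.iff hω).2 h), h2.trans_eq ?_⟩
  congr 1
  exact Finset.filter_congr fun c _ => Rch_dep.iff hω

theorem hazard_aux {κ : Type*} (π : Sym2 V → I) (hF : F.Finite) (P : κ → Set V)
    (E : κ → Finset (Sym2 V)) {β : ℝ} (hβ1 : β ≤ 1) (n : ℕ) :
    ∀ (C : Finset κ), C.card = n → (∀ c ∈ C, (E c : Set (Sym2 V)) ⊆ F ∩ EIn (P c)) →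
      ((C : Set κ).PairwiseDisjoint E) →
      (∀ c ∈ C, ∀ y ∈ P c, β ≤ Pr π (Rch G (E c) y Z)) →
      ∀ (J : Finset (Sym2 V)) (η : Sym2 V → Bool) (t : ℕ), (∀ c ∈ C, Disjoint J (E c)) →
        (∀ e ∈ F, e ∈ J ∨ ∃ c ∈ C, e ∈ E c) →
        Pr π {ω | ow J η ω ∈ Bad G F x Z P C t} ≤ (1 - β) ^ t := by
  classical
  induction n with
  | zero =>
    intro C hC _ _ _ J η t _ _
    rw [Finset.card_eq_zero] at hC
    subst hC
    cases t with
    | zero => simpa using Pr_le_one _ _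
    | succ t =>
      have : {ω | ow J η ω ∈ Bad G F x Z P ∅ (t + 1)} = ∅ := by ext; simp [Bad]
      rw [this, Pr_empty]
      exact pow_nonneg (by linarith) _
  | succ n ih =>
    intro C hC hE hd hβ J η t hJ hFJ
    cases t with
    | zero => simpa using Pr_le_one _ _
    | succ t =>
    by_cases h0 : ∃ c ∈ C, ow J η (fun _ => false) ∈ Rch G F x (P c)
    · obtain ⟨c, hc, y, hy, hxy⟩ := h0
      have mono : ∀ ω, ow J η (fun _ => false) ≤ ow J η ω := fun ω i => by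
        by_cases hi : i ∈ J
        · rw [ow_of_mem hi, ow_of_mem hi]
        · rw [ow_of_notMem hi]; exact bot_le
      have h1 := Pr_fub π (A := {ω | ow J η ω ∈ Bad G F x Z P C (t + 1)})
        (G := (Rch G (E c) y Z)ᶜ) (((Bad_dep P C _).loc hF).ow J η) (E c) Rch_dep.compl
        (κ := (1 - β) ^ t) (fun ω hω h2 => hω.1 (Rch_trans (Cn_upper (mono ω) hxy)
          (Rch_mono (fun e he => (hE c hc he).1) le_rfl
            (Rch_dep (fun e he => (ow_of_notMem
              (fun h => Finset.disjoint_left.1 (hJ c hc) h he)).symm) h2)))) (fun ζ _ => by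
          refine le_trans (Pr_mono ?_) (ih (C.erase c) (by rw [Finset.card_erase_of_mem hc, hC]; rfl)
            (fun c' hc' => hE c' (Finset.mem_of_mem_erase hc'))
            (hd.subset (by simp)) (fun c' hc' => hβ c' (Finset.mem_of_mem_erase hc'))
            (J ∪ E c) (ow J η ζ) t (fun c' hc' => ?_) fun e he => ?_)
          · intro ω hω
            simp only [Set.mem_ofPred_eq, ow_ow] at hω ⊢
            refine ⟨hω.1, ?_⟩
            have := hω.2
            rw [Finset.filter_erase]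
            have := Finset.pred_card_le_card_erase (a := c)
              (s := C.filter fun c' => ow (J ∪ E c) (ow J η ζ) ω ∈ Rch G F x (P c'))
            omega
          · rw [Finset.disjoint_union_left]
            exact ⟨hJ c' (Finset.mem_of_mem_erase hc'),
              hd hc (Finset.mem_of_mem_erase hc') (Finset.ne_of_mem_erase hc').symm⟩
          · rcases hFJ e he with h | ⟨c', hc', h⟩
            · exact Or.inl (Finset.mem_union_left _ h)
            · by_cases hcc : c' = c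
              · exact Or.inl (Finset.mem_union_right _ (hcc ▸ h))
              · exact Or.inr ⟨c', Finset.mem_erase.2 ⟨hcc, hc'⟩, h⟩)
      rw [Pr_compl π (Rch_loc (Finset.finite_toSet _))] at h1
      refine h1.trans ?_
      rw [pow_succ]
      exact mul_le_mul_of_nonneg_left (by linarith [hβ c hc y hy]) (pow_nonneg (by linarith) _)
    · have : {ω | ow J η ω ∈ Bad G F x Z P C (t + 1)} = ∅ := by
        refine Set.eq_empty_of_forall_notMem fun ω hω => h0 ?_
        obtain ⟨c, hc⟩ := Finset.card_pos.1 (lt_of_lt_of_le (Nat.succ_pos t) hω.2)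
        obtain ⟨hc, y, hy, hxy⟩ := Finset.mem_filter.1 hc
        rcases Cn_exit {z | ∀ c ∈ C, z ∉ P c} hxy with h | ⟨z, hz, -, ⟨w, hw⟩, -⟩
        · exact (h.1 c hc hy).elim
        · simp only [Set.mem_ofPred_eq, not_forall, not_not] at hz
          obtain ⟨c', hc', hz⟩ := hz
          refine ⟨c', hc', z, hz, w, fun e he => ⟨(hw e he).1.1, ?_⟩⟩
          rcases hFJ e (hw e he).1.1 with h | ⟨c'', hc'', h⟩
          · have := (hw e he).2
            rwa [ow_of_mem h] at this ⊢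
          · obtain ⟨a, ha, ha'⟩ := (hw e he).1.2
            exact (ha' c'' hc'' ((hE c'' hc'' h).2 a ha)).elim
      rw [this, Pr_empty]
      exact pow_nonneg (by linarith) _

/-- hazard lemma: touching many disjoint columns without reaching the target is unlikely -/
theorem hazard {κ : Type*} (π : Sym2 V → I) (hF : F.Finite) (P : κ → Set V)
    (E : κ → Finset (Sym2 V)) {β : ℝ} (hβ1 : β ≤ 1) (C : Finset κ)
    (hE : ∀ c ∈ C, (E c : Set (Sym2 V)) ⊆ F ∩ EIn (P c)) (hd : (C : Set κ).PairwiseDisjoint E)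
    (hβ : ∀ c ∈ C, ∀ y ∈ P c, β ≤ Pr π (Rch G (E c) y Z)) (t : ℕ) :
    Pr π (Bad G F x Z P C t) ≤ (1 - β) ^ t := by
  classical
  set J := hF.toFinset.filter fun e => ∀ c ∈ C, e ∉ E c
  have := Pr_fub π ((Bad_dep (G := G) (x := x) (Z := Z) P C t).loc hF) J (dep_univ _)
    (Set.subset_univ _) (κ := (1 - β) ^ t) fun η _ =>
      hazard_aux π hF P E hβ1 _ C rfl hE hd hβ J η t
        (fun c hc => Finset.disjoint_left.2 fun e he => (Finset.mem_filter.1 he).2 c hc)
        fun e he => by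
          by_cases h : ∃ c ∈ C, e ∈ E c
          · exact Or.inr h
          · exact Or.inl (Finset.mem_filter.2 ⟨by simpa using he, fun c hc h' => h ⟨c, hc, h'⟩⟩)
  simpa using this

end Pool.Agent.P.MP_3aa27f_pr
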