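import Pool.Agent.P.MP_3aa27f_pr.Amen

/-! The extremal case of the Perron-Frobenius eigenvalue. -/

open SimpleGraph

namespace Pool.Agent.P.MP_3aa27f_pr

variable {α β : Type*} {T : SimpleGraph α} {H : SimpleGraph β} [T.LocallyFinite]
  [H.LocallyFinite] {b : ℕ} {Γ : Subgroup (T.boxProd H ≃g T.boxProd H)}

omit [H.LocallyFinite] in
theorem card_hN (hT : RT T b) (x : α × β) : (hN T x).card = b + 1 := by
  rw [hN, Finset.card_map, hT.reg]

theorem dich (hT : RT T b) (hH : HH H) {F : α × β → ℝ} {a : ℝ} (F0 : ∀ z, 0 ≤ F z)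
    (hs : ∀ z, ∑ y ∈ hN T z, F y = a * F z)
    (hi : ∀ g ∈ Γ, ∃ l : ℝ, 0 < l ∧ ∀ y, F (g y) = l * F y) (X : Finset (α × β))
    (hX : ∀ z, rep Γ z ∈ X) (hX' : ∀ x ∈ X, rep Γ x = x) {z₀ : α × β} (hz : 0 < F z₀)
    (ha : a ≤ 2 * √b) : ∃ (h : β) (P : α → α), (∀ w, 0 < F (w, h)) ∧ (∀ w, T.Adj w (P w)) ∧
      (∀ w, F (P w, h) = √b * F (w, h)) ∧ ∀ w w', T.Adj w w' → w' = P w ∨ P w' = w := by
  classical
  have b2 : (2 : ℝ) ≤ b := by exact_mod_cast hT.two_le
  have r2 : √(b : ℝ) * √b = b := Real.mul_self_sqrt (by linarith)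
  have r0 : 0 < √(b : ℝ) := Real.sqrt_pos.2 (by linarith)
  generalize √(b : ℝ) = r at *
  have pos : ∀ z y, HA T z y → 0 < F z → 0 < F y := fun z y h h' => by
    refine (F0 y).lt_of_ne' fun e => h'.ne' ?_
    have := hs y
    rw [e, mul_zero, Finset.sum_eq_zero_iff_of_nonneg fun _ _ => F0 _] at this
    exact this z (mem_hN.2 h.symm)
  have nb : ∀ z y : α × β, ∃ y', HA T z y' ∧ y' ≠ y := fun z y => by
    obtain ⟨y', h1, h2⟩ := Finset.exists_mem_ne (s := hN T z)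
      (by rw [card_hN hT]; have := hT.two_le; omega) y
    exact ⟨y', mem_hN.1 h1, h2⟩
  obtain ⟨⟨x, y⟩, h1, h2⟩ := Finset.exists_max_image
    (((X.filter (0 < F ·)).sigma fun x => hN T x)) (fun q => F q.2 / F q.1) (by
      obtain ⟨g, hg, e⟩ := rep_spec Γ z₀
      obtain ⟨l, l0, hl⟩ := hi g hg
      obtain ⟨y, hy, -⟩ := nb (rep Γ z₀) z₀
      exact ⟨⟨rep Γ z₀, y⟩, Finset.mem_sigma.2 ⟨Finset.mem_filter.2 ⟨hX _, by
        rw [← e, hl]; positivity⟩, mem_hN.2 hy⟩⟩)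
  simp only [Finset.mem_sigma, Finset.mem_filter, mem_hN] at h1 h2
  obtain ⟨⟨-, x0⟩, hxy⟩ := h1
  have R0 : 0 < F y / F x := div_pos (pos _ _ hxy x0) x0
  have eR : F y = F y / F x * F x := (div_mul_cancel₀ _ x0.ne').symm
  generalize F y / F x = R at *
  have hR : ∀ z y, HA T z y → 0 < F z → F y ≤ R * F z := fun z y h h' => by
    obtain ⟨g, hg, e⟩ := rep_spec Γ z
    obtain ⟨l, l0, hl⟩ := hi g hg
    have := h2 ⟨g z, g y⟩ ⟨⟨e ▸ hX z, by rw [hl]; positivity⟩, HA_map hT hH g h⟩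
    rwa [hl, hl, mul_div_mul_left _ _ l0.ne', div_le_iff₀ h'] at this
  have low : ∀ z y, 0 < F z → ∀ y' ∈ (hN T z).erase y, F z / R ≤ F y' := fun z y h y' hy' => by
    have := mem_hN.1 (Finset.mem_of_mem_erase hy')
    rw [div_le_iff₀' R0]
    exact hR _ _ this.symm (pos _ _ this h)
  have cst : ∀ (z y : α × β) (c : ℝ), HA T z y → ∑ _y' ∈ (hN T z).erase y, c = b * c :=
    fun z y c h => by
      rw [Finset.sum_const, Finset.card_erase_of_mem (mem_hN.2 h), card_hN hT, nsmul_eq_mul,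
        Nat.add_sub_cancel]
  have spl : ∀ z y, HA T z y → F y + ∑ y' ∈ (hN T z).erase y, F y' ≤ 2 * r * F z := fun z y h => by
    rw [Finset.add_sum_erase _ _ (mem_hN.2 h), hs]
    exact mul_le_mul_of_nonneg_right ha (F0 z)
  obtain rfl : R = r := by
    have h3 := Finset.sum_le_sum (low x y x0)
    rw [cst x y _ hxy] at h3
    have h4 : (R + b / R) * F x ≤ 2 * r * F x := by
      have := spl x y hxy
      rw [add_mul, ← eR, div_mul_eq_mul_div, mul_div_assoc]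
      linarith
    have h5 : b / R ≤ 2 * r - R := by linarith [le_of_mul_le_mul_right h4 x0]
    rw [div_le_iff₀ R0] at h5
    exact sub_eq_zero.1 (pow_eq_zero_iff two_ne_zero |>.1
      (le_antisymm (by nlinarith) (sq_nonneg _)))
  set St : α × β → α × β → Prop := fun z y => HA T z y ∧ 0 < F z ∧ F y = R * F z with hSt
  have child : ∀ z y y', St z y → HA T z y' → y' ≠ y → St y' z := fun z y y' h h' hne => by
    refine ⟨h'.symm, pos _ _ h' h.2.1, ?_⟩
    have h3 := spl z y h.1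
    have h4 : ∑ y' ∈ (hN T z).erase y, F y' ≤ ∑ _y' ∈ (hN T z).erase y, F z / R := by
      rw [cst z y _ h.1, ← r2, mul_assoc, mul_div_cancel₀ _ R0.ne']
      linarith [h.2.2]
    have := (Finset.sum_eq_sum_iff_of_le (low z y h.2.1)).1
      (le_antisymm (Finset.sum_le_sum (low z y h.2.1)) h4) y'
      (Finset.mem_erase.2 ⟨hne, mem_hN.2 h'⟩)
    rw [← this, mul_div_cancel₀ _ R0.ne']
  have uniq : ∀ z y y', St z y → St z y' → y' = y := fun z y y' h h' => by
    by_contra hne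
    have h3 := (child z y y' h h'.1 hne).2.2
    rw [h'.2.2, ← mul_assoc, r2] at h3
    nlinarith [h.2.1]
  have map : ∀ g ∈ Γ, ∀ z y, St z y → St (g z) (g y) := fun g hg z y h => by
    obtain ⟨l, l0, hl⟩ := hi g hg
    exact ⟨HA_map hT hH g h.1, by rw [hl]; exact mul_pos l0 h.2.1, by rw [hl, hl, h.2.2]; ring⟩
  have : ∀ z, ∃ y, (∃ y, St z y) → St z y := fun z => by
    by_cases h : ∃ y, St z y
    · exact ⟨h.choose, fun _ => h.choose_spec⟩
    · exact ⟨z, fun h' => (h h').elim⟩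
  choose P hP using this
  have key : ∀ z y, St z y → rep Γ z ∈ X.filter (∃ y, St · y) ∧
      rep Γ (P (rep Γ z)) = rep Γ y := fun z y h => by
    obtain ⟨g, hg, e⟩ := rep_spec Γ z
    have h3 := map g hg z y h
    rw [e] at h3
    exact ⟨Finset.mem_filter.2 ⟨hX z, _, h3⟩, by
      rw [uniq _ _ _ h3 (hP _ ⟨_, h3⟩), rep_map hg]⟩
  have eq : X.filter (∃ y, St · y) = (X.filter (∃ y, St · y)).image fun x => rep Γ (P x) := by
    refine Finset.eq_of_subset_of_card_le (fun w hw => ?_) Finset.card_image_le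
    obtain ⟨h3, y, h4⟩ := Finset.mem_filter.1 hw
    obtain ⟨y', h5, h6⟩ := nb w y
    have := key _ _ (child w y y' h4 h5 h6)
    exact Finset.mem_image.2 ⟨_, this.1, this.2.trans (hX' w h3)⟩
  have par : ∀ z y, St z y → ∃ y', St y y' := fun z y h => by
    have h3 : rep Γ y ∈ X.filter (∃ y, St · y) :=
      eq ▸ Finset.mem_image.2 ⟨_, (key z y h).1, (key z y h).2⟩
    obtain ⟨-, y', h4⟩ := Finset.mem_filter.1 h3
    obtain ⟨g, hg, e⟩ := rep_spec Γ y
    have := map _ (Γ.inv_mem hg) _ _ h4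
    rw [← e, inv_app] at this
    exact ⟨_, this⟩
  have step : ∀ z y, HA T z y → (∃ y', St z y') → ∃ y', St y y' := fun z y h ⟨y', h'⟩ => by
    by_cases e : y = y'
    · exact par z y (e ▸ h')
    · exact ⟨z, child z y' y h' h e⟩
  have all : ∀ w, St (w, x.2) (P (w, x.2)) := fun w => hP _ <|
    (conn_const hT.conn (f := fun w => ∃ y', St (w, x.2) y') (fun u v e => propext
      ⟨step _ _ ⟨e, rfl⟩, step _ _ ⟨e.symm, rfl⟩⟩) x.1 w).mp ⟨y, hxy, x0, eR⟩
  refine ⟨x.2, fun w => (P (w, x.2)).1, fun w => (all w).2.1, fun w => (all w).1.1, fun w => ?_,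
    fun w w' h => ?_⟩
  · rw [← (all w).2.2]
    exact congrArg F (Prod.ext rfl (all w).1.2)
  · by_cases e : (w', x.2) = P (w, x.2)
    · exact Or.inl (congrArg Prod.fst e)
    · exact Or.inr (congrArg Prod.fst
        (uniq _ _ _ (child _ _ (w', x.2) (all w) ⟨h, rfl⟩ e) (all w')))

end Pool.Agent.P.MP_3aa27f_pr
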