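import Pool.Agent.P.MP_3aa27f_pr.Haar

/-! The strict inequality between the thresholds. -/

open MeasureTheory ProbabilityTheory unitInterval SimpleGraph
open scoped ENNReal

namespace Pool.Agent.P.MP_3aa27f_pr

section General

variable {V : Type*} {G : SimpleGraph V}

theorem ae_const [Countable V] (p : I) (c : Bool) (h : wt p (!c) = 0) :
    ∀ᵐ ω ∂PM (fun _ : Sym2 V => p), ∀ e, ω e = c := by
  refine ae_all_iff.2 fun e => ?_
  have := Pr_eval (fun _ : Sym2 V => p) e (!c)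
  rw [h, Pr, measureReal_eq_zero_iff] at this
  rw [ae_iff]
  convert this using 4 with ω
  cases ω e <;> cases c <;> simp

theorem Pr_Cn_zero [Countable V] {x y : V} (h : x ≠ y) (F : Set (Sym2 V)) :
    Pr (fun _ => (0 : I)) (Cn G F x y) = 0 := by
  rw [Pr, measureReal_eq_zero_iff, measure_eq_zero_iff_ae_notMem]
  filter_upwards [ae_const (V := V) 0 false (by simp [wt])] with ω hω
  rintro ⟨w, hw⟩
  cases w with
  | nil => exact h rfl
  | cons _ _ => simpa [hω] using (hw _ (List.mem_cons_self ..)).2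

theorem unique_one (hG : G.Connected) [G.LocallyFinite] [Infinite V] :
    ∀ᵐ ω ∂percMeasure V 1, ∃! C : (openGraph G ω).ConnectedComponent, C.supp.Infinite := by
  have := countable_vert hG
  filter_upwards [ae_const (V := V) 1 true (by simp [wt])] with ω hω
  have e : openGraph G ω = G := by
    ext x y
    exact ⟨fun h => h.1, fun h => ⟨h, hω _⟩⟩
  rw [e]
  obtain ⟨x⟩ := hG.nonempty
  have := hG.preconnected.subsingleton_connectedComponent
  refine ⟨G.connectedComponentMk x, Set.infinite_univ.mono fun y _ => ?_,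
    fun _ _ => Subsingleton.elim _ _⟩
  exact Subsingleton.elim (G.connectedComponentMk y) _

end General

variable {α β : Type*} {T : SimpleGraph α} {H : SimpleGraph β} [T.LocallyFinite]
  [H.LocallyFinite] {b : ℕ} {Γ : Subgroup (T.boxProd H ≃g T.boxProd H)} {m : α × β → ℝ}

theorem RT.infinite (hT : RT T b) : Infinite α := by
  obtain ⟨a⟩ := hT.conn.nonempty
  choose c _ hc using hT.exists_ext a a
  exact Infinite.of_injective c fun i j e => by rw [← hc i, e, hc j]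

theorem main_ineq (hT : RT T b) (hH : HH H) (hm : Wt Γ m) {S : Set (α × β)} (hS : S.Finite)
    (hq : ∀ v, ∃ g ∈ Γ, g v ∈ S) {Y : Set (α × β)} (hY : Y.Nonempty) {A B : ℝ} (hA : 0 < A)
    (hb : ∀ y ∈ Y, A ≤ m y ∧ m y ≤ B) (hn : ¬ Amenable ((T.boxProd H).induce Y)) :
    pH (T.boxProd H) (fun u v => m v / m u) < pU (T.boxProd H) := by
  classical
  obtain ⟨h, ρ, c, F, hρ, c0, F0, F1, hF, hs, hc⟩ := key_fun hT hH hm hS hq hY hA hb hn
  have hG : (T.boxProd H).Connected := hT.conn.boxProd hH.conn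
  have := countable_vert hG
  have := hT.infinite
  have := hH.conn.nonempty
  have b2 : (2 : ℝ) ≤ b := by exact_mod_cast hT.two_le
  have r1 : 1 < √(b : ℝ) := Real.lt_sqrt_of_sq_lt (by linarith)
  have r2 : √(b : ℝ) ^ 2 = b := Real.sq_sqrt (by linarith)
  have θ0 : 0 < (√(b : ℝ))⁻¹ := by positivity
  have hθ : (√(b : ℝ))⁻¹ ^ 2 * b = 1 := by rw [inv_pow, r2, inv_mul_cancel₀ (by linarith)]
  have ρ0 : 0 < ρ := by linarith
  obtain ⟨s, s1, s2⟩ := exists_between (show ρ⁻¹ < (√(b : ℝ))⁻¹ from inv_strictAnti₀ (by linarith) hρ)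
  have s0 : 0 < s := (inv_pos.2 ρ0).trans s1
  have s3 : s < 1 := s2.trans (inv_lt_one_of_one_lt₀ r1)
  set P : Set ℝ := {p | ∃ hp : p ∈ I, UB T H ⟨p, hp⟩ s}
  have P0 : (0 : ℝ) ∈ P := ⟨zero_mem, fun a c h F _ => by
    by_cases e : a = c
    · simp [e, Pr]
    · exact (Pr_Cn_zero (fun e' => e (congrArg Prod.fst e')) F).trans_le (by positivity)⟩
  have Ps : s ∈ upperBounds P := fun p ⟨hp, h⟩ => le_of_UB hT hH h
  have q0 : 0 ≤ sSup P := le_csSup ⟨s, Ps⟩ P0
  have q1 : sSup P < 1 := (csSup_le ⟨0, P0⟩ Ps).trans_lt s3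
  set p₀ : I := ⟨sSup P, q0, q1.le⟩
  have hU : UB T H p₀ s := fun a c h F hF => le_of_forall_pos_le_add fun ε hε => by
    lift F to Finset (Sym2 (α × β)) using hF
    obtain ⟨p, ⟨hp, h1⟩, h2⟩ := exists_lt_of_lt_csSup ⟨0, P0⟩
      (show sSup P - ε / (F.card + 1) < sSup P from sub_lt_self _ (by positivity))
    refine (Pr_lip ⟨p, hp⟩ p₀ (le_csSup ⟨s, Ps⟩ ⟨hp, h1⟩ : p ≤ sSup P) F Cn_dep).trans
      (add_le_add (h1 a c h F F.finite_toSet) ?_)
    have h3 : sSup P - p ≤ ε / (F.card + 1) := by linarith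
    refine (mul_le_mul_of_nonneg_left h3 (Nat.cast_nonneg _)).trans ?_
    rw [mul_div_assoc', div_le_iff₀ (by positivity)]
    nlinarith
  obtain ⟨K, s', a0, a1, a2⟩ : ∃ K s' : ℝ, 0 ≤ s' ∧ s' < (√(b : ℝ))⁻¹ ∧ ∀ (Λ : Finset (α × β)),
      ∀ x ∈ Λ, ∀ v, gg T H p₀ Λ x v ≤ K * s' ^ T.dist x.1 v := by
    rcases q0.eq_or_lt with e | e
    · obtain e' : p₀ = 0 := Subtype.ext e.symm
      refine ⟨1, 0, le_rfl, θ0, fun Λ x _ v => ?_⟩
      rw [gg, e', Finset.sum_eq_ite x fun y _ hy => Pr_Cn_zero hy.symm _]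
      split_ifs with h
      · simp [(Finset.mem_filter.1 h).2, Pr]
      · positivity
    · exact boot hT hH e θ0 hθ s2 hU
  obtain ⟨ε, ε0, hε⟩ := nonunique_of_bound hT hH θ0 hθ a0 a1 a2
  have h1 : pH (T.boxProd H) (fun u v => m v / m u) ≤ sSup P := by
    refine le_of_forall_gt_imp_ge_of_dense fun q hq => le_trans ?_ (min_le_left q 1)
    have a3 : sSup P < min q 1 := lt_min hq q1
    have a4 : min q 1 ∈ I := ⟨q0.trans a3.le, min_le_right _ _⟩
    refine csInf_le ⟨0, fun p ⟨hp, _⟩ => hp.1⟩ ⟨a4, ?_⟩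
    filter_upwards [ae_infinite hT hH (p := ⟨_, a4⟩) (q0.trans_lt a3)
      (fun h => a3.not_ge (le_csSup ⟨s, Ps⟩ ⟨a4, h⟩)) s0.le s3.le
      ((inv_lt_iff_one_lt_mul₀ ρ0).1 s1) (by nlinarith) F0 F1 hF hs h] with ω ⟨x, hx⟩
    refine ⟨(openGraph _ ω).connectedComponentMk x, x, by_contra fun hne => hx ?_⟩
    have := (ENNReal.finite_const_le_of_tsum_ne_top hne (ε := ENNReal.ofReal (c / m x))
      (ENNReal.ofReal_pos.2 (div_pos c0 (hm.pos x))).ne').image fun y => y.1.1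
    refine this.subset fun w hw => ⟨⟨(w, h), ?_⟩, ENNReal.ofReal_le_ofReal
      (div_le_div_of_nonneg_right (hc w hw.1) (hm.pos x).le), rfl⟩
    rw [ConnectedComponent.mem_supp_iff, ConnectedComponent.eq]
    exact (reachable_iff.2 hw.2).symm
  have h2 : sSup P + ε ≤ pU (T.boxProd H) :=
    le_csInf ⟨1, one_mem, unique_one hG⟩ fun q ⟨hq, h⟩ => le_of_not_ge fun h' => hε ⟨q, hq⟩ h' h
  linarith

end Pool.Agent.P.MP_3aa27f_pr
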