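import Mathlib

/-! Metric geometry of connected locally finite graphs and of regular trees. -/

namespace Pool.Agent.P.MP_3aa27f_pr

open SimpleGraph

variable {α : Type*} {T : SimpleGraph α}

/-- `u` lies on a geodesic from `a` to `w` -/
def Btw (T : SimpleGraph α) (a u w : α) : Prop := T.dist a w = T.dist a u + T.dist u w

theorem Btw.symm {a u w : α} (h : Btw T a u w) : Btw T w u a := by
  unfold Btw at *
  rw [dist_comm (u := w) (v := a), dist_comm (u := w) (v := u), dist_comm (u := u) (v := a)]; omega

theorem btw_left (a w : α) : Btw T a a w := by simp [Btw]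
theorem btw_right (a w : α) : Btw T a w w := by simp [Btw]

section Conn

variable (hK : T.Connected)
include hK

theorem tri (u v w : α) : T.dist u w ≤ T.dist u v + T.dist v w := hK.dist_triangle

theorem dist_adj_le {v w : α} (h : T.Adj v w) (u : α) : T.dist u w ≤ T.dist u v + 1 := by
  have := tri hK u v w
  rwa [dist_eq_one_iff_adj.2 h] at this

theorem par_exists {r v : α} (h : v ≠ r) : ∃ w, T.Adj v w ∧ T.dist r w + 1 = T.dist r v := by
  obtain ⟨p, hp⟩ := hK.exists_walk_length_eq_dist v r
  cases p with
  | nil => exact (h rfl).elim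
  | @cons _ w _ hadj p =>
    refine ⟨w, hadj, ?_⟩
    have h1 := T.dist_le p
    have h2 := dist_adj_le hK hadj.symm r
    simp only [Walk.length_cons] at hp
    rw [dist_comm (u := v)] at hp
    rw [dist_comm (u := w)] at h1
    omega

theorem exists_mid (a c : α) : ∀ i ≤ T.dist a c, ∃ u, Btw T a u c ∧ T.dist a u = i := by
  intro i
  induction i with
  | zero => exact fun _ => ⟨a, btw_left _ _, dist_self⟩
  | succ i ih =>
    intro hi
    obtain ⟨u, h1, h2⟩ := ih (by omega)
    have hu : u ≠ c := by rintro rfl; omega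
    obtain ⟨w, hw, hw'⟩ := par_exists hK hu
    have a1 := dist_adj_le hK hw a
    have a2 := tri hK a w c
    unfold Btw at *
    rw [dist_comm (u := c), dist_comm (u := c)] at hw'
    exact ⟨w, by omega, by omega⟩

theorem Btw.trans_left {a b c u : α} (h : Btw T a b c) (h' : Btw T a u b) : Btw T a u c := by
  have := tri hK a u c; have := tri hK u b c; unfold Btw at *; omega

theorem Btw.trans_right {a b c u : α} (h : Btw T a b c) (h' : Btw T b u c) : Btw T a u c :=
  (h.symm.trans_left hK h'.symm).symm

theorem Btw.inner_left {a b c u : α} (h : Btw T a b c) (h' : Btw T a u b) : Btw T u b c := by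
  have := tri hK a u c; have := tri hK u b c; unfold Btw at *; omega

theorem Btw.inner_right {a b c u : α} (h : Btw T a b c) (h' : Btw T b u c) : Btw T a b u :=
  (h.symm.inner_left hK h'.symm).symm

theorem ball_finite [T.LocallyFinite] (o : α) (n : ℕ) : {w | T.dist o w ≤ n}.Finite := by
  induction n with
  | zero =>
    refine (Set.finite_singleton o).subset fun w hw => ?_
    exact (hK.dist_eq_zero_iff.1 (Nat.le_zero.1 hw)).symm
  | succ n ih =>
    refine ((Set.finite_singleton o).union
      (ih.biUnion fun u _ => (T.neighborFinset u).finite_toSet)).subset fun w hw => ?_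
    by_cases h : w = o
    · exact Or.inl h
    · obtain ⟨u, h1, h2⟩ := par_exists hK h
      have hw' : T.dist o w ≤ n + 1 := hw
      exact Or.inr (Set.mem_biUnion (x := u) (by change T.dist o u ≤ n; omega)
        (by simpa using h1.symm))

/-- closed ball -/
noncomputable def bl [T.LocallyFinite] (o : α) (n : ℕ) : Finset α := (ball_finite hK o n).toFinset

theorem mem_bl [T.LocallyFinite] {o w : α} {n : ℕ} : w ∈ bl hK o n ↔ T.dist o w ≤ n := by
  simp [bl]

theorem dist_hom_le {β : Type*} {K : SimpleGraph β} (φ : T →g K) (u v : α) :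
    K.dist (φ u) (φ v) ≤ T.dist u v := by
  obtain ⟨p, hp⟩ := hK.exists_walk_length_eq_dist u v
  have := K.dist_le (p.map φ)
  rwa [Walk.length_map, hp] at this

theorem dist_iso (φ : T ≃g T) (u v : α) : T.dist (φ u) (φ v) = T.dist u v := by
  refine le_antisymm (dist_hom_le hK φ.toHom u v) ?_
  simpa using dist_hom_le hK φ.symm.toHom (φ u) (φ v)

theorem btw_iso (φ : T ≃g T) {a u w : α} : Btw T (φ a) (φ u) (φ w) ↔ Btw T a u w := by
  simp only [Btw, dist_iso hK]

end Conn

/-- the slab between `a` and `c` -/
def Sl (T : SimpleGraph α) (a c : α) : Set α :=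
  {w | (Btw T c a w → w = a) ∧ (Btw T a c w → w = c)}

theorem Sl_comm (a c : α) : Sl T a c = Sl T c a := by ext; simp [Sl, and_comm]

theorem Sl_left (hK : T.Connected) {a b c : α} (h : Btw T a b c) : Sl T a b ⊆ Sl T a c := by
  rintro w ⟨h1, h2⟩
  refine ⟨fun h3 => h1 ?_, fun h3 => ?_⟩
  · have := tri hK c b w; have := tri hK b a w; have := h.symm
    unfold Btw at *; omega
  · have h4 : w = b := h2 (by
      have := tri hK a b w; have := tri hK b c w
      unfold Btw at *; omega)
    subst h4
    unfold Btw at *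
    exact hK.dist_eq_zero_iff.1 (by omega)

theorem Sl_right (hK : T.Connected) {a b c : α} (h : Btw T a b c) : Sl T b c ⊆ Sl T a c := by
  rw [Sl_comm b c, Sl_comm a c]; exact Sl_left hK h.symm

theorem mem_Sl_of_near (hK : T.Connected) {a u c w : α} (h : Btw T a u c)
    (h1 : T.dist u w ≤ T.dist u a) (h2 : T.dist u w ≤ T.dist u c) : w ∈ Sl T a c := by
  have := h.symm
  refine ⟨fun h3 => ?_, fun h3 => ?_⟩
  · have := tri hK c u w
    unfold Btw at *
    exact (hK.dist_eq_zero_iff.1 (by omega)).symm
  · have := tri hK a u w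
    unfold Btw at *
    exact (hK.dist_eq_zero_iff.1 (by omega)).symm

theorem Sl_iso (hK : T.Connected) (φ : T ≃g T) {a c w : α} (h : w ∈ Sl T a c) :
    φ w ∈ Sl T (φ a) (φ c) :=
  ⟨fun h1 => congrArg φ (h.1 ((btw_iso hK φ).1 h1)), fun h1 => congrArg φ (h.2 ((btw_iso hK φ).1 h1))⟩

section IsTree

variable (hT : T.IsTree)
include hT

theorem par_unique {r v w w' : α} (h : T.Adj v w) (h' : T.Adj v w')
    (e : T.dist r w + 1 = T.dist r v) (e' : T.dist r w' + 1 = T.dist r v) : w = w' := by
  obtain ⟨p, hp⟩ := hT.connected.exists_walk_length_eq_dist r w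
  obtain ⟨p', hp'⟩ := hT.connected.exists_walk_length_eq_dist r w'
  have h1 := (p.concat h.symm).isPath_of_length_eq_dist (by rw [Walk.length_concat]; omega)
  have h2 := (p'.concat h'.symm).isPath_of_length_eq_dist (by rw [Walk.length_concat]; omega)
  have h3 := (hT.existsUnique_path r v).unique h1 h2
  have := congrArg Walk.penultimate h3
  simpa using this

theorem btw_adj {a b w w' : α} (h : Btw T a b w) (hw : w ≠ b) (hadj : T.Adj w w') :
    Btw T a b w' := by
  have hK := hT.connected
  obtain ⟨w₀, h0, e0⟩ := par_exists hK hw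
  have t1 := tri hK a b w'
  have t2 := tri hK a b w₀
  have t3 := dist_adj_le hK h0.symm a
  have t4 := dist_adj_le hK hadj.symm a
  unfold Btw at *
  rcases hT.dist_eq_dist_add_one_of_adj b hadj with e | e
  · omega
  · rcases hT.dist_eq_dist_add_one_of_adj a hadj with e' | e'
    · have := par_unique hT (r := a) hadj h0 (by omega) (by omega)
      subst this
      omega
    · omega

theorem btw_dich {a b c : α} (h : Btw T a b c) (w : α) : Btw T a b w ∨ Btw T c b w := by
  have hK := hT.connected
  generalize hn : T.dist b w = n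
  induction n generalizing w with
  | zero => rw [← hK.dist_eq_zero_iff.1 hn]; exact Or.inl (btw_right _ _)
  | succ n ih =>
    have hw : w ≠ b := by rintro rfl; simp at hn
    obtain ⟨w₀, h0, e0⟩ := par_exists hK hw
    by_cases hb : w₀ = b
    · subst hb
      have t1 := tri hK a w c
      have e1 := hT.dist_eq_dist_add_one_of_adj a h0
      have e2 := hT.dist_eq_dist_add_one_of_adj c h0
      have e3 := dist_eq_one_iff_adj.2 h0.symm
      unfold Btw at *
      rw [dist_comm (u := w) (v := c)] at t1
      rw [dist_comm (u := w₀) (v := c)] at h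
      omega
    · exact (ih w₀ (by omega)).imp (fun h => btw_adj hT h hb h0.symm)
        fun h => btw_adj hT h hb h0.symm

theorem btw_unique {a c u u' : α} (h : Btw T a u c) (h' : Btw T a u' c)
    (e : T.dist a u = T.dist a u') : u = u' := by
  have h1 := h.symm
  have h2 := h'.symm
  refine hT.connected.dist_eq_zero_iff.1 ?_
  rcases btw_dich hT h u' with h3 | h3
  · unfold Btw at *; omega
  · unfold Btw at *
    rw [dist_comm (u := u) (v := a)] at h1
    rw [dist_comm (u := u') (v := a)] at h2
    omega

theorem Sl_adj {a c w w' : α} (h : w ∈ Sl T a c) (ha : w ≠ a) (hc : w ≠ c) (hadj : T.Adj w w') :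
    w' ∈ Sl T a c :=
  ⟨fun h1 => by_contra fun h2 => ha (h.1 (btw_adj hT h1 h2 hadj.symm)),
    fun h1 => by_contra fun h2 => hc (h.2 (btw_adj hT h1 h2 hadj.symm))⟩

theorem Sl_inter {a b c w : α} (h : Btw T a b c) (h1 : w ∈ Sl T a b) (h2 : w ∈ Sl T b c) :
    w = b := (btw_dich hT h w).elim h1.2 h2.1

end IsTree

open Classical in
/-- the parent of `v` in the tree rooted at `r` -/
noncomputable def par (T : SimpleGraph α) (r v : α) : α :=
  if h : ∃ w, T.Adj v w ∧ T.dist r w + 1 = T.dist r v then h.choose else v

theorem par_spec (hK : T.Connected) {r v : α} (h : v ≠ r) :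
    T.Adj v (par T r v) ∧ T.dist r (par T r v) + 1 = T.dist r v := by
  have := par_exists hK h
  rw [par, dif_pos this]
  exact this.choose_spec

open Classical in
/-- the children of `v` in the tree rooted at `r` -/
noncomputable def ch (T : SimpleGraph α) [T.LocallyFinite] (r v : α) : Finset α :=
  (T.neighborFinset v).filter fun w => T.dist r w = T.dist r v + 1

theorem mem_ch [T.LocallyFinite] {r v w : α} :
    w ∈ ch T r v ↔ T.Adj v w ∧ T.dist r w = T.dist r v + 1 := by simp [ch]

theorem mem_ch_iff (hT : T.IsTree) [T.LocallyFinite] {r v w : α} :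
    w ∈ ch T r v ↔ w ≠ r ∧ par T r w = v := by
  rw [mem_ch]
  constructor
  · rintro ⟨h1, h2⟩
    have hw : w ≠ r := by rintro rfl; simp at h2
    have := par_spec hT.connected hw
    exact ⟨hw, par_unique hT this.1 h1.symm this.2 h2.symm⟩
  · rintro ⟨h1, rfl⟩
    have := par_spec hT.connected h1
    exact ⟨this.1.symm, this.2.symm⟩

theorem adj_iff_par (hT : T.IsTree) (r : α) {v w : α} :
    T.Adj v w ↔ (v ≠ r ∧ par T r v = w) ∨ (w ≠ r ∧ par T r w = v) := by
  constructor
  · intro h
    rcases hT.dist_eq_dist_add_one_of_adj r h with e | e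
    · have hv : v ≠ r := by rintro rfl; simp at e
      have := par_spec hT.connected hv
      exact Or.inl ⟨hv, par_unique hT this.1 h this.2 e.symm⟩
    · have hw : w ≠ r := by rintro rfl; simp at e
      have := par_spec hT.connected hw
      exact Or.inr ⟨hw, par_unique hT this.1 h.symm this.2 e.symm⟩
  · rintro (⟨h, rfl⟩ | ⟨h, rfl⟩)
    · exact (par_spec hT.connected h).1
    · exact (par_spec hT.connected h).1.symm

theorem ch_root [T.LocallyFinite] (r : α) : ch T r r = T.neighborFinset r := by
  ext w
  rw [mem_ch, mem_neighborFinset, dist_self, zero_add, dist_eq_one_iff_adj, and_self]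

open Classical in
theorem ch_eq_erase (hT : T.IsTree) [T.LocallyFinite] {r v : α} (h : v ≠ r) :
    ch T r v = (T.neighborFinset v).erase (par T r v) := by
  ext w
  have hp := par_spec hT.connected h
  rw [mem_ch, Finset.mem_erase, mem_neighborFinset]
  constructor
  · rintro ⟨h1, h2⟩
    exact ⟨by rintro rfl; omega, h1⟩
  · rintro ⟨h1, h2⟩
    refine ⟨h2, (hT.dist_eq_dist_add_one_of_adj r h2).resolve_left fun e => h1 ?_⟩
    exact par_unique hT h2 hp.1 e.symm hp.2

/-- a regular tree of degree `b + 1` with `b ≥ 2` -/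
structure RT (T : SimpleGraph α) [T.LocallyFinite] (b : ℕ) : Prop where
  tree : T.IsTree
  reg : ∀ v, (T.neighborFinset v).card = b + 1
  two_le : 2 ≤ b

namespace RT

variable [T.LocallyFinite] {b : ℕ} (hT : RT T b)
include hT

theorem conn : T.Connected := hT.tree.connected

theorem card_ch {r v : α} (h : v ≠ r) : (ch T r v).card = b := by
  classical
  rw [ch_eq_erase hT.tree h, Finset.card_erase_of_mem
    (by simpa using (par_spec hT.conn h).1), hT.reg]
  rfl

theorem card_ch_root (r : α) : (ch T r r).card = b + 1 := by rw [ch_root, hT.reg]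

theorem card_ch_ge (r v : α) : b ≤ (ch T r v).card := by
  by_cases h : v = r
  · rw [h, hT.card_ch_root]; omega
  · rw [hT.card_ch h]

theorem exists_ext (a c : α) (n : ℕ) : ∃ c', Btw T a c c' ∧ T.dist c c' = n := by
  induction n with
  | zero => exact ⟨c, btw_right _ _, dist_self⟩
  | succ n ih =>
    obtain ⟨c', h1, h2⟩ := ih
    obtain ⟨w, hw⟩ := Finset.card_pos.1 (lt_of_lt_of_le (by have := hT.two_le; omega)
      (hT.card_ch_ge a c'))
    obtain ⟨h3, h4⟩ := mem_ch.1 hw
    have := dist_adj_le hT.conn h3 c
    have := tri hT.conn a c w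
    unfold Btw at *
    exact ⟨w, by omega, by omega⟩

end RT

end Pool.Agent.P.MP_3aa27f_pr
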