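import Pool.Agent.P.MP_3aa27f_pr.Boot
import Pool.Agent.P.MP_3aa27f_pr.Defs

/-! Simon-Lieb inequality and non-uniqueness of the infinite cluster. -/

open MeasureTheory ProbabilityTheory unitInterval SimpleGraph

namespace Pool.Agent.P.MP_3aa27f_pr

section General

variable {V : Type*} {G : SimpleGraph V}

theorem reachable_iff {ω : Sym2 V → Bool} {x y : V} :
    (openGraph G ω).Reachable x y ↔ ω ∈ Cn G Set.univ x y := by
  constructor
  · rintro ⟨w⟩
    induction w with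
    | nil => exact Cn_refl _ _ _
    | cons h _ ih => exact Cn_trans (Cn_edge h.1 trivial h.2) ih
  · rintro ⟨w, hw⟩
    induction w with
    | nil => rfl
    | @cons u v _ h p ih =>
      exact (Adj.reachable (G := openGraph G ω) ⟨h, (hw _ (by simp)).2⟩).trans
        (ih fun e he => hw e (by simp [he]))

theorem Cn_ball {ω : Sym2 V → Bool} {x y : V} (h : ω ∈ Cn G Set.univ x y) :
    ∃ n, ω ∈ Cn G (EIn {z | G.dist x z ≤ n}) x y := by
  obtain ⟨w, hw⟩ := h
  obtain ⟨n, hn⟩ := (w.support.finite_toSet.image (G.dist x)).bddAbove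
  exact ⟨n, w, fun e he => ⟨fun z hz => hn ⟨z, Walk.mem_support_of_mem_edges he hz, rfl⟩,
    (hw e he).2⟩⟩

/-- the cluster of `x` leaves the ball of radius `n` -/
def In (G : SimpleGraph V) (n : ℕ) (x : V) : Set (Sym2 V → Bool) :=
  Rch G (EIn {z | G.dist x z ≤ n + 1}) x {z | n < G.dist x z}

theorem mem_In (hG : G.Connected) {F : Set (Sym2 V)} {ω : Sym2 V → Bool} {x z : V} {n : ℕ}
    (h : ω ∈ Cn G F x z) (hz : n < G.dist x z) : ω ∈ In G n x := by
  rcases Cn_exit {z | G.dist x z ≤ n} h with h1 | ⟨z', hz', -, h1, -⟩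
  · exact (hz.not_ge h1.1).elim
  · refine ⟨z', (not_le.1 hz' : n < G.dist x z'), Cn_mono' (F := F ∩ ETo _) (fun a b hab he => ?_) h1⟩
    obtain ⟨c, hc, hc'⟩ := he.2
    have h2 := dist_adj_le hG hab x
    have h3 := dist_adj_le hG hab.symm x
    have hc'' : G.dist x c ≤ n := hc'
    refine mem_EIn.2 ⟨?_, ?_⟩ <;> rcases Sym2.mem_iff.1 hc with rfl | rfl <;>
      simp only [Set.mem_ofPred_eq] <;> omega

theorem infinite_iff (hG : G.Connected) [G.LocallyFinite] {ω : Sym2 V → Bool} {x : V} :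
    ((openGraph G ω).connectedComponentMk x).supp.Infinite ↔ ∀ n, ω ∈ In G n x := by
  constructor
  · intro h n
    obtain ⟨z, hz, hz'⟩ := h.exists_notMem_finite (ball_finite hG x n)
    rw [ConnectedComponent.mem_supp_iff, ConnectedComponent.eq] at hz
    exact mem_In hG (reachable_iff.1 hz.symm) (not_le.1 hz')
  · intro h hf
    obtain ⟨n, hn⟩ := (hf.image (G.dist x)).bddAbove
    obtain ⟨z, hz, h1⟩ := h n
    refine hz.not_ge (hn ⟨z, ?_, rfl⟩)
    rw [ConnectedComponent.mem_supp_iff, ConnectedComponent.eq]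
    exact (reachable_iff.2 (Cn_mono (Set.subset_univ _) h1)).symm

theorem countable_vert (hG : G.Connected) [G.LocallyFinite] : Countable V := by
  obtain ⟨x⟩ := hG.nonempty
  rw [← Set.countable_univ_iff]
  exact (Set.countable_iUnion fun n => (ball_finite hG x n).countable).mono fun z _ =>
    Set.mem_iUnion.2 ⟨G.dist x z, (le_rfl : G.dist x z ≤ G.dist x z)⟩

theorem not_unique_of_decay (hG : G.Connected) [G.LocallyFinite] (p : I)
    (h : ∀ ε : ℝ, 0 < ε → ∀ x, ∃ φ : G ≃g G, ∀ Λ : Finset V,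
      Pr (fun _ => p) (Cn G (EIn Λ) x (φ x)) ≤ ε) :
    ¬ ∀ᵐ ω ∂percMeasure V p, ∃! C : (openGraph G ω).ConnectedComponent, C.supp.Infinite := by
  intro hu
  have := countable_vert hG
  change ∀ᵐ ω ∂PM (fun _ => p), _ at hu
  have lI : ∀ n x, Loc (In G n x) := fun n x => Rch_loc (EIn_finite (ball_finite hG x _))
  obtain ⟨x, hx⟩ : ∃ x, PM (fun _ => p) (⋂ n, In G n x) ≠ 0 := by
    by_contra! h0
    have h1 : ∀ᵐ ω ∂PM (fun _ : Sym2 V => p), ∀ x, ω ∉ ⋂ n, In G n x :=
      ae_all_iff.2 fun x => measure_eq_zero_iff_ae_notMem.1 (h0 x)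
    obtain ⟨ω, ⟨C, hC, -⟩, h2⟩ := (hu.and h1).exists
    induction C using ConnectedComponent.ind with
    | _ x => exact h2 x (Set.mem_iInter.2 ((infinite_iff hG).1 hC))
  set δ := Pr (fun _ => p) (⋂ n, In G n x)
  have δ0 : 0 < δ := ENNReal.toReal_pos hx (measure_ne_top _ _)
  obtain ⟨φ, hφ⟩ := h (δ ^ 2 / 2) (by positivity) x
  set E : ℕ → Set (Sym2 V → Bool) := fun n =>
    (In G n x ∩ In G n (φ x)) ∩ (Cn G (EIn {z | G.dist x z ≤ n}) x (φ x))ᶜ
  have lE : ∀ n, Loc (E n) := fun n =>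
    ((lI _ _).inter (lI _ _)).inter (Cn_loc (EIn_finite (ball_finite hG x _))).compl
  have anti : ∀ y, Antitone fun n => In G n y := fun y m n hmn ω ⟨z, hz, h1⟩ =>
    mem_In hG h1 (lt_of_le_of_lt hmn hz)
  have hE : ∀ n, δ ^ 2 / 2 ≤ Pr (fun _ => p) (E n) := fun n => by
    have i1 : δ ≤ Pr (fun _ => p) (In G n x) := Pr_mono (Set.iInter_subset _ n)
    have i2 : Pr (fun _ => p) (In G n x) ≤ Pr (fun _ => p) (In G n (φ x)) :=
      Pr_Rch_map (F' := EIn {z | G.dist (φ x) z ≤ n + 1}) (Z := {z | n < G.dist x z})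
        (Z' := {z | n < G.dist (φ x) z}) p φ (EIn_finite (ball_finite hG x _)) (fun e he z hz => by
        obtain ⟨z, hz', rfl⟩ := Sym2.mem_map.1 hz
        exact (dist_iso hG φ _ _).trans_le (he z hz'))
        (fun z hz => lt_of_lt_of_eq (hz : n < G.dist x z) (dist_iso hG φ _ _).symm) x
    have i3 := harris_upper (fun _ => p) (lI n x) (lI n (φ x)) Rch_upper Rch_upper
    have i4 := hφ (bl hG x n)
    have e : ((bl hG x n : Finset V) : Set V) = {z | G.dist x z ≤ n} := by simp [bl]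
    rw [e] at i4
    have i5 : Pr (fun _ => p) (In G n x ∩ In G n (φ x)) ≤ Pr (fun _ => p) (E n) +
        Pr (fun _ => p) (Cn G (EIn {z | G.dist x z ≤ n}) x (φ x)) :=
      le_trans (Pr_mono fun ω hω => by
        by_cases h1 : ω ∈ Cn G (EIn {z | G.dist x z ≤ n}) x (φ x)
        exacts [Or.inr h1, Or.inl ⟨hω, h1⟩]) (Pr_union_le _ _ _)
    nlinarith [mul_le_mul i1 (i1.trans i2) δ0.le (Pr_nonneg _ _)]
  have hlim := tendsto_measure_iInter_atTop (μ := PM fun _ => p) (s := E)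
    (fun n => (lE n).measurableSet.nullMeasurableSet)
    (fun m n hmn ω hω => ⟨⟨anti _ hmn hω.1.1, anti _ hmn hω.1.2⟩, fun h1 => hω.2
      (Cn_mono (EIn_mono fun z hz => le_trans hz hmn) h1)⟩) ⟨0, measure_ne_top _ _⟩
  have h0 : PM (fun _ => p) (⋂ n, E n) = 0 := by
    refine measure_eq_zero_iff_ae_notMem.2 (hu.mono fun ω hω h1 => ?_)
    rw [Set.mem_iInter] at h1
    have := hω.unique ((infinite_iff hG).2 fun n => (h1 n).1.1)
      ((infinite_iff hG).2 fun n => (h1 n).1.2)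
    obtain ⟨n, hn⟩ := Cn_ball (reachable_iff.1 (ConnectedComponent.eq.1 this))
    exact (h1 n).2 hn
  rw [h0] at hlim
  have := ge_of_tendsto' ((ENNReal.tendsto_toReal ENNReal.zero_ne_top).comp hlim) hE
  simp only [ENNReal.toReal_zero] at this
  nlinarith

theorem simon_lieb (π : Sym2 V → I) (y : V) {w : V → ℝ} (w0 : ∀ x, 0 < w x) {K : ℝ} (K0 : 0 ≤ K)
    (h : ∀ x, ∃ (S : Set V) (B : Finset V) (F : Set (Sym2 V)), x ∈ S ∧ (y ∈ S → 1 ≤ K * w x) ∧
      (∀ a ∈ S, ∀ z ∉ S, G.Adj a z → z ∈ B) ∧ F.Finite ∧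
      (∀ a b, G.Adj a b → s(a, b) ∈ ETo S → s(a, b) ∈ F) ∧
      ∑ z ∈ B, Pr π (Cn G F x z) * w z ≤ 3 / 4 * w x) (Λ : Finset V) (x : V) :
    Pr π (Cn G (EIn Λ) x y) ≤ K * w x := by
  classical
  wlog hx : x ∈ Λ generalizing Λ
  · exact le_trans (Pr_mono (Cn_mono (EIn_mono (by simp)))) (this (insert x Λ) (by simp))
  obtain ⟨x₀, hx₀, hmax⟩ := Λ.exists_max_image (fun x => Pr π (Cn G (EIn Λ) x y) / w x) ⟨x, hx⟩
  rw [← div_le_iff₀ (w0 x)]
  refine (hmax x hx).trans ?_
  obtain ⟨S, B, F, h1, h2, h3, h4, h5, h6⟩ := h x₀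
  by_cases hy : y ∈ S
  · rw [div_le_iff₀ (w0 _)]; exact (Pr_le_one _ _).trans (h2 hy)
  set A := Pr π (Cn G (EIn Λ) x₀ y) / w x₀ with hA
  have A0 : 0 ≤ A := div_nonneg (Pr_nonneg _ _) (w0 _).le
  have hΛ := EIn_finite Λ.finite_toSet
  have i1 : Pr π (Cn G (EIn Λ) x₀ y) ≤
      ∑ z ∈ B ∩ Λ, Pr π (DO (Cn G F x₀ z) (Cn G (EIn Λ) z y)) := by
    refine le_trans (Pr_mono fun ω hω => ?_) (Pr_exists_le _ _ _)
    rcases Cn_exit S hω with h7 | ⟨z, hz, h7, h8, h9⟩
    · exact (hy h7.1).elim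
    · refine ⟨z, Finset.mem_inter.2 ⟨?_, Cn_mem (Cn_mono Set.inter_subset_left h8) hx₀⟩,
        DO_mono (Cn_mono' fun a b hab he => h5 a b hab he.2) le_rfl h9⟩
      rcases h7 with rfl | ⟨a, ha, h7⟩
      exacts [(hz h1).elim, h3 a ha z hz h7]
  have i2 : ∑ z ∈ B ∩ Λ, Pr π (DO (Cn G F x₀ z) (Cn G (EIn Λ) z y)) ≤
      A * ∑ z ∈ B, Pr π (Cn G F x₀ z) * w z := by
    rw [Finset.mul_sum]
    refine le_trans (Finset.sum_le_sum fun z hz => ?_)
      (Finset.sum_le_sum_of_subset_of_nonneg Finset.inter_subset_left fun z _ _ =>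
        mul_nonneg A0 (mul_nonneg (Pr_nonneg _ _) (w0 z).le))
    refine (BK π (Cn_loc h4) (Cn_loc hΛ) Cn_upper Cn_upper).trans ?_
    have := (div_le_iff₀ (w0 z)).1 (hmax z (Finset.mem_inter.1 hz).2)
    exact (mul_le_mul_of_nonneg_left this (Pr_nonneg _ _)).trans_eq (by ring)
  have i3 := i1.trans (i2.trans (mul_le_mul_of_nonneg_left h6 A0))
  have i4 : A ≤ A * (3 / 4) := by
    rw [hA, div_le_iff₀ (w0 _)]; linarith
  linarith

end General

variable {α β : Type*} {T : SimpleGraph α} {H : SimpleGraph β} [T.LocallyFinite]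
  [H.LocallyFinite] {b : ℕ}

noncomputable instance : (T.boxProd H).LocallyFinite := fun x => boxProdFintypeNeighborSet x

theorem nonunique_of_bound (hT : RT T b) (hH : HH H) {p : I} {θ K s : ℝ} (θ0 : 0 < θ)
    (hθ : θ ^ 2 * b = 1) (s0 : 0 ≤ s) (hs : s < θ)
    (hK : ∀ (Λ : Finset (α × β)), ∀ x ∈ Λ, ∀ v, gg T H p Λ x v ≤ K * s ^ T.dist x.1 v) :
    ∃ ε : ℝ, 0 < ε ∧ ∀ q : I, (q : ℝ) ≤ p + ε → ¬ ∀ᵐ ω ∂percMeasure (α × β) q,
      ∃! C : (openGraph (T.boxProd H) ω).ConnectedComponent, C.supp.Infinite := by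
  classical
  have hb : (2 : ℝ) ≤ b := by exact_mod_cast hT.two_le
  have θ1 : θ < 1 := by nlinarith
  wlog K0 : 0 < K generalizing K
  · exact this (K := 1) (fun Λ x hx v => (hK Λ x hx v).trans
      (mul_le_mul_of_nonneg_right (by linarith) (by positivity))) one_pos
  set s' := (s + θ) / 2 with hs'
  have s'0 : 0 < s' := by linarith
  obtain ⟨C, C0, hC⟩ := hT.conv_sum θ0 hθ s'0.le (by linarith)
  obtain ⟨R, hR⟩ := exists_pow_lt_of_lt_one (show 0 < 1 / 4 / (K * (C + 1)) by positivity)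
    (show s / s' < 1 by rw [div_lt_one s'0]; linarith)
  rw [lt_div_iff₀ (by positivity)] at hR
  obtain ⟨n₀, hn₀⟩ := exists_nat_gt (4 * K * C)
  have n0 : 0 < n₀ := by
    exact_mod_cast lt_of_le_of_lt (show (0 : ℝ) ≤ 4 * K * C by positivity) hn₀
  obtain ⟨C₂, hC₂⟩ := hH.growth 2 one_lt_two
  obtain ⟨D, hD⟩ : ∃ D : ℕ, ∀ o h, (bl hT.conn o (R + 1) ×ˢ bl hH.conn h n₀).card ≤ D := by
    refine ⟨⌈C / (s' * θ) ^ (R + 1)⌉₊ * ⌈C₂ * 2 ^ n₀⌉₊, fun o h => ?_⟩
    rw [Finset.card_product]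
    refine Nat.mul_le_mul ?_ ?_
    · have h1 := Finset.card_nsmul_le_sum (bl hT.conn o (R + 1))
        (fun w => s' ^ T.dist o w * θ ^ T.dist w o) ((s' * θ) ^ (R + 1)) fun w hw => by
          rw [dist_comm (u := w), ← mul_pow]
          exact pow_le_pow_of_le_one (by positivity) (by nlinarith) ((mem_bl _).1 hw)
      have h2 := h1.trans (hC o o _)
      rw [nsmul_eq_mul, SimpleGraph.dist_self, pow_zero, mul_one,
        ← le_div_iff₀ (by positivity)] at h2
      exact_mod_cast h2.trans (Nat.le_ceil _)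
    · have : ((bl hH.conn h n₀).card : ℝ) ≤ ⌈C₂ * 2 ^ n₀⌉₊ := (hC₂ h _).trans (Nat.le_ceil _)
      exact_mod_cast this
  set ε := θ ^ (R + 1) / 4 / ((D + 1) * (((D + 1).choose 2 : ℕ) + 1)) with hε
  have ε0 : 0 < ε := by positivity
  refine ⟨ε, ε0, fun q hq => not_unique_of_decay (hT.conn.boxProd hH.conn) q fun η η0 x => ?_⟩
  obtain ⟨n, hn⟩ := exists_pow_lt_of_lt_one (show 0 < η * θ ^ R by positivity) θ1
  obtain ⟨c, -, hc⟩ := hT.exists_ext x.1 x.1 n
  obtain ⟨φ, hφ, -⟩ := hT.exists_iso (a := x.1) (c := x.1) (a' := c) (c' := c) (by simp)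
  refine ⟨prodIso φ Iso.refl, fun Λ => le_trans (simon_lieb (fun _ => q) _
    (w := fun z => θ ^ T.dist z.1 c) (fun _ => by positivity) (K := 1 / θ ^ R) (by positivity)
    (fun ⟨o, h⟩ => ?_) Λ x) (by rw [hc, one_div_mul_eq_div, div_le_iff₀ (by positivity)]; linarith)⟩
  set X := bl hT.conn o (R + 1) ×ˢ bl hH.conn h n₀ with hX
  have mX : ∀ z, z ∈ X ↔ T.dist o z.1 ≤ R + 1 ∧ H.dist h z.2 ≤ n₀ := fun z => by
    simp [hX, mem_bl]
  have hx : (o, h) ∈ X := (mX _).2 (by simp)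
  set f : α × β → ℝ := fun z => Pr (fun _ => p) (Cn (T.boxProd H) (EIn X) (o, h) z) *
    θ ^ T.dist z.1 c
  have f0 : ∀ z, 0 ≤ f z := fun z => mul_nonneg (Pr_nonneg _ _) (by positivity)
  have i1 : ∑ z ∈ X.filter (T.dist o ·.1 = R + 1), f z ≤ 1 / 4 * θ ^ T.dist o c := by
    refine (sum_fib_le p X (o, h) _ (Finset.filter_subset _ _) (fun w => θ ^ T.dist w c)
      fun _ => by positivity).trans ?_
    calc _ ≤ ∑ w ∈ (X.filter (T.dist o ·.1 = R + 1)).image Prod.fst,
          K * (s / s') ^ R * (s' ^ T.dist o w * θ ^ T.dist w c) := by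
          refine Finset.sum_le_sum fun w hw => ?_
          obtain ⟨z, hz, rfl⟩ := Finset.mem_image.1 hw
          refine (mul_le_mul_of_nonneg_right (hK X _ hx _) (by positivity)).trans ?_
          have e1 : T.dist o z.1 = R + 1 := (Finset.mem_filter.1 hz).2
          have e2 : s ^ (R + 1) ≤ (s / s') ^ R * s' ^ (R + 1) := by
            rw [pow_succ, pow_succ, ← mul_assoc, ← mul_pow, div_mul_cancel₀ _ s'0.ne']
            gcongr; linarith
          change K * s ^ T.dist o z.1 * _ ≤ _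
          rw [e1, ← mul_assoc, mul_assoc K (_ ^ R)]
          gcongr
      _ ≤ K * (s / s') ^ R * (C * θ ^ T.dist o c) := by
          rw [← Finset.mul_sum]; gcongr; exact hC _ _ _
      _ ≤ _ := by
          rw [← mul_assoc]; gcongr
          have : 0 ≤ K * (s / s') ^ R := by positivity
          nlinarith
  obtain ⟨L, hL, i2⟩ : ∃ L ∈ Finset.range n₀,
      ∑ z ∈ X.filter (H.dist h ·.2 = L + 1), f z ≤ 1 / 4 * θ ^ T.dist o c := by
    refine Finset.exists_le_of_sum_le ⟨0, Finset.mem_range.2 n0⟩ ?_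
    rw [Finset.sum_const, Finset.card_range, nsmul_eq_mul, ← Finset.sum_biUnion
      fun L _ L' _ hne => Finset.disjoint_filter.2 fun z _ h1 h2 => hne (by omega)]
    refine (sum_fib_le p X (o, h) _ (by simp) (fun w => θ ^ T.dist w c)
      fun _ => by positivity).trans ?_
    refine le_trans (Finset.sum_le_sum (g := fun w => K * (s' ^ T.dist o w * θ ^ T.dist w c))
      fun w _ => ?_) ?_
    · refine (mul_le_mul_of_nonneg_right (hK X _ hx _) (by positivity)).trans ?_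
      rw [mul_assoc]; gcongr; linarith
    · rw [← Finset.mul_sum]
      refine (mul_le_mul_of_nonneg_left (hC _ _ _) K0.le).trans ?_
      have : 0 < θ ^ T.dist o c := by positivity
      nlinarith
  rw [Finset.mem_range] at hL
  have adj : ∀ a ∈ Box T H o h R L, ∀ z, (T.boxProd H).Adj a z →
      T.dist o z.1 ≤ R + 1 ∧ H.dist h z.2 ≤ L + 1 := fun a ha z hz => by
    have h1 := ha.1
    have h2 := ha.2
    rcases boxProd_adj.1 hz with h3 | h3
    · have := dist_adj_le hT.conn h3.1 o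
      rw [← h3.2]; omega
    · have := dist_adj_le hH.conn h3.1 h
      rw [← h3.2]; omega
  refine ⟨Box T H o h R L, X.filter (T.dist o ·.1 = R + 1) ∪ X.filter (H.dist h ·.2 = L + 1),
    EIn X, ⟨by simp, by simp⟩, fun hy => ?_, fun a ha z hz haz => ?_, EIn_finite X.finite_toSet,
    fun a a' haa he => ?_, ?_⟩
  · have := hy.1
    rw [prodIso_apply, hφ] at this
    rw [one_div_mul_eq_div, one_le_div (by positivity)]
    exact pow_le_pow_of_le_one θ0.le θ1.le this
  · have := adj a ha z haz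
    simp only [Box, Set.mem_ofPred_eq] at hz
    simp only [Finset.mem_union, Finset.mem_filter, mX]
    omega
  · obtain ⟨z, hz, hz'⟩ := he
    have h1 := hz'.1
    have h2 := hz'.2
    simp only [mem_EIn, Finset.mem_coe, mX]
    rcases Sym2.mem_iff.1 hz with rfl | rfl
    · have := adj _ hz' _ haa
      omega
    · have := adj _ hz' _ haa.symm
      omega
  · set B := X.filter (T.dist o ·.1 = R + 1) ∪ X.filter (H.dist h ·.2 = L + 1)
    have hB : B ⊆ X := Finset.union_subset (Finset.filter_subset _ _) (Finset.filter_subset _ _)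
    have i3 : ∑ z ∈ B, f z ≤ 1 / 2 * θ ^ T.dist o c := by
      have := Finset.sum_union_inter (s₁ := X.filter (T.dist o ·.1 = R + 1))
        (s₂ := X.filter (H.dist h ·.2 = L + 1)) (f := f)
      have := Finset.sum_nonneg (s := X.filter (T.dist o ·.1 = R + 1) ∩
        X.filter (H.dist h ·.2 = L + 1)) fun z _ => f0 z
      linarith
    have cs : (X.sym2.card : ℝ) ≤ ((D + 1).choose 2 : ℕ) + 1 := by
      rw [Finset.card_sym2]
      exact_mod_cast (Nat.choose_le_choose 2 (Nat.succ_le_succ (hD o h))).trans (Nat.le_succ _)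
    have i4 : ∀ z ∈ B, Pr (fun _ => q) (Cn (T.boxProd H) (EIn X) (o, h) z) * θ ^ T.dist z.1 c ≤
        f z + 1 / 4 / (D + 1) * θ ^ T.dist o c := fun z hz => by
      have j1 : Pr (fun _ => q) (Cn (T.boxProd H) (EIn X) (o, h) z) ≤
          Pr (fun _ => p) (Cn (T.boxProd H) (EIn X) (o, h) z) + X.sym2.card * ε := by
        rcases le_total q p with hqp | hqp
        · exact le_add_of_le_of_nonneg
            (Pr_mono_p q p hqp (Cn_loc (EIn_finite X.finite_toSet)) Cn_upper) (by positivity)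
        · refine (Pr_lip p q hqp X.sym2 (EIn_coe X ▸ Cn_dep)).trans ?_
          gcongr; linarith
      have j2 : θ ^ (R + 1) * θ ^ T.dist z.1 c ≤ θ ^ T.dist o c := by
        rw [← pow_add]
        have := tri hT.conn o z.1 c
        have := ((mX z).1 (hB hz)).1
        exact pow_le_pow_of_le_one θ0.le θ1.le (by omega)
      refine (mul_le_mul_of_nonneg_right j1 (by positivity)).trans ?_
      rw [add_mul]
      refine add_le_add le_rfl ?_
      calc _ ≤ (((D + 1).choose 2 : ℕ) + 1) * ε * θ ^ T.dist z.1 c := by gcongr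
        _ = 1 / 4 / (D + 1) * (θ ^ (R + 1) * θ ^ T.dist z.1 c) := by rw [hε]; field_simp
        _ ≤ _ := by gcongr
    refine (Finset.sum_le_sum i4).trans ?_
    rw [Finset.sum_add_distrib, Finset.sum_const, nsmul_eq_mul]
    have cB : (B.card : ℝ) ≤ D + 1 := by
      exact_mod_cast ((Finset.card_le_card hB).trans (hD o h)).trans (Nat.le_succ _)
    have : (B.card : ℝ) * (1 / 4 / (D + 1) * θ ^ T.dist o c) ≤ 1 / 4 * θ ^ T.dist o c :=
      (mul_le_mul_of_nonneg_right cB (by positivity)).trans_eq (by field_simp)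
    change _ ≤ 3 / 4 * θ ^ T.dist o c
    linarith

end Pool.Agent.P.MP_3aa27f_pr
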