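import Pool.Agent.P.MP_3aa27f_pr.Folner
import Pool.Agent.P.MP_3aa27f_pr.SL

/-! Haar measures of vertex stabilisers. -/

open MeasureTheory SimpleGraph Filter Topology

namespace Pool.Agent.P.MP_3aa27f_pr

variable {V : Type*} {G : SimpleGraph V}

theorem isCompact_stab (hG : G.Connected) [G.LocallyFinite] (v : V) :
    IsCompact {g : G ≃g G | g v = v} := by
  refine isCompact_iff_ultrafilter_le_nhds.2 fun f hf => ?_
  rw [le_principal_iff] at hf
  have key : ∀ (φ : (G ≃g G) → G ≃g G), (∀ g : G ≃g G, g v = v → φ g v = v) →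
      ∀ u, ∃ z, ∀ᶠ g in f, φ g u = z := fun φ hφ u => by
    have : ∀ᶠ g in f, ∃ z ∈ {w | G.dist v w ≤ G.dist v u}, φ g u = z :=
      mem_of_superset hf fun g hg => ⟨_, by
        have := dist_iso hG (φ g) v u
        rw [hφ g hg] at this
        exact this.le, rfl⟩
    obtain ⟨z, -, hz⟩ := (Ultrafilter.eventually_exists_mem_iff (ball_finite hG v _)).1 this
    exact ⟨z, hz⟩
  choose φ hφ using key id fun g h => h
  choose ψ hψ using key (·⁻¹) fun g h => by rw [← h, inv_app, h]
  let a : G ≃g G :=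
    { toFun := φ
      invFun := ψ
      left_inv := fun u => by
        obtain ⟨g, h1, h2⟩ := ((hφ u).and (hψ (φ u))).exists
        rw [← h2, ← h1]; exact inv_app g u
      right_inv := fun u => by
        obtain ⟨g, h1, h2⟩ := ((hψ u).and (hφ (ψ u))).exists
        rw [← h2, ← h1]; exact app_inv g u
      map_rel_iff' := fun {u w} => by
        obtain ⟨g, h1, h2⟩ := ((hφ u).and (hφ w)).exists
        change G.Adj (φ u) (φ w) ↔ _
        rw [← h1, ← h2]; exact g.map_adj_iff }
  refine ⟨a, ?_, ?_⟩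
  · obtain ⟨g, h1, h2⟩ := ((hφ v).and hf).exists
    exact h1.symm.trans h2
  · let : TopologicalSpace V := ⊥
    have : DiscreteTopology V := ⟨rfl⟩
    rw [autTopology, nhds_iInf, le_iInf_iff]
    intro u
    rw [nhds_induced, ← Filter.map_le_iff_le_comap, nhds_discrete, le_pure_iff]
    exact hφ u

theorem isOpen_Stab (Γ : Subgroup (G ≃g G)) (v w : V) :
    IsOpen {g : Γ.topologicalClosure | g.1 v = w} :=
  (isOpen_aut_eq v w).preimage continuous_subtype_val

theorem wt_haar (hG : G.Connected) [G.LocallyFinite] (Γ : Subgroup (G ≃g G))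
    [MeasurableSpace Γ.topologicalClosure] [BorelSpace Γ.topologicalClosure]
    (μ : Measure Γ.topologicalClosure) [μ.IsHaarMeasure] :
    Wt Γ.topologicalClosure fun v => μ.real (Stab Γ v) := by
  classical
  have fin : ∀ v, μ (Stab Γ v) ≠ ⊤ := fun v =>
    (Γ.isClosed_topologicalClosure.isClosedEmbedding_subtypeVal.isCompact_preimage
      (isCompact_stab hG v)).measure_lt_top.ne
  have key : ∀ x y, μ.real (Stab Γ x) =
      (orb Γ.topologicalClosure x y).ncard * μ.real (Stab Γ x ∩ Stab Γ y) := fun x y => by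
    have hf := orb_finite hG Γ.topologicalClosure x y
    have e : Stab Γ x = ⋃ z ∈ hf.toFinset, Stab Γ x ∩ {g | g.1 y = z} := by
      ext g
      simp only [Set.mem_iUnion, Set.Finite.mem_toFinset]
      exact ⟨fun h => ⟨_, ⟨g.1, g.2, h, rfl⟩, h, rfl⟩, fun ⟨_, _, h⟩ => h.1⟩
    conv_lhs => rw [e]
    rw [measureReal_biUnion_finset (f := fun z => Stab Γ x ∩ {g | g.1 y = z})
      (fun z _ z' _ hne => Set.disjoint_left.2 fun g h h' => hne (h.2.symm.trans h'.2))
      (fun z _ => ((isOpen_Stab Γ x x).inter (isOpen_Stab Γ y z)).measurableSet)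
      fun z _ => ne_top_of_le_ne_top (fin x) (measure_mono Set.inter_subset_left),
      Set.ncard_eq_toFinset_card _ hf, ← nsmul_eq_mul, ← Finset.sum_const]
    refine Finset.sum_congr rfl fun z hz => ?_
    obtain ⟨k, hk, h1, rfl⟩ := hf.mem_toFinset.1 hz
    rw [measureReal_def, measureReal_def, ← measure_preimage_mul μ ⟨k, hk⟩]
    congr 2
    ext g
    change k (g.1 x) = x ∧ k (g.1 y) = k y ↔ g.1 x = x ∧ g.1 y = y
    rw [k.injective.eq_iff, ← k.injective.eq_iff (a := g.1 x), h1]
  refine ⟨fun x => ENNReal.toReal_pos ((isOpen_Stab Γ x x).measure_ne_zero μ ⟨1, rfl⟩) (fin x),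
    fun x y => (Set.ncard_pos (orb_finite hG _ x y)).2 ⟨y, 1, Subgroup.one_mem _, rfl, rfl⟩,
    fun x y => ?_⟩
  rw [key x y, key y x, Set.inter_comm]
  ring

end Pool.Agent.P.MP_3aa27f_pr
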