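import Pool.Agent.P.MP_3aa27f_pr.Dich

/-! A bounded subsolution supported in a slab. -/

open SimpleGraph

namespace Pool.Agent.P.MP_3aa27f_pr

theorem fin_bounds {ι : Type*} (X : Finset ι) (u : ι → ℝ) :
    ∃ c C : ℝ, 0 < c ∧ 0 < C ∧ ∀ x ∈ X, (0 < u x → c ≤ u x) ∧ u x ≤ C := by
  classical
  induction X using Finset.induction_on with
  | empty => exact ⟨1, 1, one_pos, one_pos, by simp⟩
  | insert a X _ ih =>
    obtain ⟨c, C, c0, C0, h⟩ := ih
    refine ⟨if 0 < u a then min c (u a) else c, max C (u a), by split_ifs <;> positivity,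
      by positivity, fun x hx => ?_⟩
    rcases Finset.mem_insert.1 hx with rfl | hx
    · exact ⟨fun h' => by rw [if_pos h']; exact min_le_right _ _, le_max_right _ _⟩
    · refine ⟨fun h' => le_trans ?_ ((h x hx).1 h'), (h x hx).2.trans (le_max_left _ _)⟩
      split_ifs
      exacts [min_le_left _ _, le_rfl]

theorem poly_le (k : ℕ) {c : ℝ} (hc : 1 < c) : ∃ C : ℝ, ∀ n : ℕ, ((n : ℝ) + 1) ^ k ≤ C * c ^ n := by
  obtain ⟨C, hC⟩ := (tendsto_pow_const_div_const_pow_of_one_lt k hc).bddAbove_range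
  refine ⟨C * c, fun n => ?_⟩
  have : ((n + 1 : ℕ) : ℝ) ^ k / c ^ (n + 1) ≤ C := hC ⟨n + 1, rfl⟩
  rw [div_le_iff₀ (by positivity), pow_succ'] at this
  push_cast at this
  rwa [mul_assoc]

variable {α β : Type*} {T : SimpleGraph α} {H : SimpleGraph β} [T.LocallyFinite]
  [H.LocallyFinite] {b : ℕ} {Γ : Subgroup (T.boxProd H ≃g T.boxProd H)} {m : α × β → ℝ}

/-- the elements preserving the weight -/
def kerW (Γ : Subgroup (T.boxProd H ≃g T.boxProd H)) (m : α × β → ℝ) :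
    Subgroup (T.boxProd H ≃g T.boxProd H) where
  carrier := {g | g ∈ Γ ∧ ∀ z, m (g z) = m z}
  mul_mem' := fun {g k} h h' => ⟨Γ.mul_mem h.1 h'.1, fun z => (h.2 (k z)).trans (h'.2 z)⟩
  one_mem' := ⟨Γ.one_mem, fun _ => rfl⟩
  inv_mem' := fun {g} h => ⟨Γ.inv_mem h.1, fun z => by rw [← h.2, app_inv]⟩

omit [T.LocallyFinite] [H.LocallyFinite] in
theorem mem_kerW (hm : Wt Γ m) {g : T.boxProd H ≃g T.boxProd H} (hg : g ∈ Γ) {x : α × β}
    (h : m (g x) = m x) : g ∈ kerW Γ m := ⟨hg, fun z => by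
  have := hm.inv hg x z
  rw [h, mul_comm] at this
  exact mul_left_cancel₀ (hm.pos x).ne' this⟩

open Classical in
theorem card_orbits (hT : RT T b) (hH : HH H) (hm : Wt Γ m) (X : Finset (α × β))
    (hX : ∀ z, rep Γ z ∈ X) (z₀ : α × β) : ∃ k : ℕ, ∀ n : ℕ,
      ((bl hT.conn z₀.1 n).image fun w => rep (kerW Γ m) (w, z₀.2)).card ≤ X.card * (n + 1) ^ k := by
  set R : Finset ℝ := X.biUnion fun x => (hN T x).image fun y => m y / m x with hR
  have h1 : ∀ z y, HA T z y → m y / m z ∈ R := fun z y h => by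
    obtain ⟨g, hg, e⟩ := rep_spec Γ z
    refine Finset.mem_biUnion.2 ⟨g z, e ▸ hX z, Finset.mem_image.2 ⟨g y,
      mem_hN.2 (HA_map hT hH g h), ?_⟩⟩
    rw [div_eq_div_iff (hm.pos _).ne' (hm.pos _).ne', hm.inv hg, mul_comm]
  have h2 : ∀ n w, T.dist z₀.1 w = n → ∃ e : R → ℕ, (∀ r, e r ≤ n) ∧
      m (w, z₀.2) = m z₀ * ∏ r, r.1 ^ e r := fun n => by
    induction n with
    | zero =>
      intro w h
      obtain rfl := hT.conn.dist_eq_zero_iff.1 h
      exact ⟨0, by simp, by simp⟩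
    | succ n ih =>
      intro w h
      obtain ⟨u, hu, e⟩ := par_exists hT.conn (r := z₀.1) (v := w) (by
        rintro rfl; simp at h)
      obtain ⟨e', a1, a2⟩ := ih u (by omega)
      refine ⟨e' + Pi.single ⟨_, h1 (u, z₀.2) (w, z₀.2) ⟨hu.symm, rfl⟩⟩ 1, fun r => ?_, ?_⟩
      · have := a1 r
        simp only [Pi.add_apply, Pi.single_apply]
        split_ifs <;> omega
      · simp only [Pi.add_apply, pow_add, Finset.prod_mul_distrib, Pi.single_apply, pow_ite,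
          pow_one, pow_zero, Finset.prod_ite_eq', Finset.mem_univ, if_true]
        rw [← mul_assoc, ← a2, mul_div_cancel₀ _ (hm.pos _).ne']
  refine ⟨R.card, fun n => ?_⟩
  have h3 := Finset.card_le_card_of_injOn
    (s := (bl hT.conn z₀.1 n).image fun w => rep (kerW Γ m) (w, z₀.2))
    (t := X ×ˢ ((Fintype.piFinset fun _ : R => Finset.range (n + 1)).image
      fun e => m z₀ * ∏ r, r.1 ^ e r)) (fun x => (rep Γ x, m x)) (by
      intro x hx
      obtain ⟨w, hw, rfl⟩ := Finset.mem_image.1 hx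
      obtain ⟨e, a1, a2⟩ := h2 _ w rfl
      obtain ⟨g, hg, e'⟩ := rep_spec (kerW Γ m) (w, z₀.2)
      have := (mem_bl _).1 hw
      refine Finset.mem_coe.2 (Finset.mem_product.2 ⟨hX _, Finset.mem_image.2 ⟨e,
        Fintype.mem_piFinset.2 fun r => Finset.mem_range.2 ?_, ?_⟩⟩)
      · have := a1 r
        omega
      · rw [← a2, ← e']; exact (hg.2 _).symm) (by
      intro x hx x' hx' e
      obtain ⟨w, -, rfl⟩ := Finset.mem_image.1 hx
      obtain ⟨w', -, rfl⟩ := Finset.mem_image.1 hx'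
      obtain ⟨e1, e2⟩ := Prod.ext_iff.1 e
      rw [← rep_rep, ← rep_rep _ (w', z₀.2)]
      generalize rep (kerW Γ m) (w, z₀.2) = x at *
      generalize rep (kerW Γ m) (w', z₀.2) = x' at *
      obtain ⟨g, hg, a⟩ := rep_spec Γ x
      obtain ⟨g', hg', a'⟩ := rep_spec Γ x'
      have a'' : (g'⁻¹ * g) x = x' := by
        change g'⁻¹ (g x) = x'
        rw [a, show rep Γ x = rep Γ x' from e1, ← a', inv_app]
      rw [← a'', rep_map (mem_kerW hm (Γ.mul_mem (Γ.inv_mem hg') hg) (x := x)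
        (by rw [a'']; exact e2.symm))])
  refine h3.trans ?_
  rw [Finset.card_product]
  refine Nat.mul_le_mul_left _ (Finset.card_image_le.trans ?_)
  simp

theorem key_fun (hT : RT T b) (hH : HH H) (hm : Wt Γ m) {S : Set (α × β)} (hS : S.Finite)
    (hq : ∀ v, ∃ g ∈ Γ, g v ∈ S) {Y : Set (α × β)} (hY : Y.Nonempty) {A B : ℝ} (hA : 0 < A)
    (hb : ∀ y ∈ Y, A ≤ m y ∧ m y ≤ B) (hn : ¬ Amenable ((T.boxProd H).induce Y)) :
    ∃ (h : β) (ρ c : ℝ) (F : α → ℝ), √b < ρ ∧ 0 < c ∧ (∀ w, 0 ≤ F w) ∧ (∀ w, F w ≤ 1) ∧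
      (∃ w, 0 < F w) ∧ (∀ v, 2 * ρ * F v ≤ ∑ w ∈ T.neighborFinset v, F w) ∧
      ∀ w, 0 < F w → c ≤ m (w, h) := by
  classical
  have b2 : (2 : ℝ) ≤ b := by exact_mod_cast hT.two_le
  have r1 : 1 < √(b : ℝ) := Real.lt_sqrt_of_sq_lt (by linarith)
  have sm : ∀ z, 0 < √(m z) := fun z => Real.sqrt_pos.2 (hm.pos z)
  have conv : ∀ {ψ : α × β → ℝ} {a : ℝ} {z : α × β},
      ∑ y ∈ hN T z, √(m y) / √(m z) * ψ y = a * ψ z →
      ∑ y ∈ hN T z, √(m y) * ψ y = a * (√(m z) * ψ z) := fun {ψ a z} h => by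
    rw [mul_left_comm, ← h, Finset.mul_sum]
    exact Finset.sum_congr rfl fun y _ => by rw [← mul_assoc, mul_div_cancel₀ _ (sm z).ne']
  set X := hS.toFinset.image (rep Γ)
  have hX : ∀ z, rep Γ z ∈ X := fun z => by
    obtain ⟨g, hg, h⟩ := hq z
    exact Finset.mem_image.2 ⟨g z, hS.mem_toFinset.2 h, rep_map hg z⟩
  have hX' : ∀ x ∈ X, rep Γ x = x := fun x hx => by
    obtain ⟨y, -, rfl⟩ := Finset.mem_image.1 hx
    exact rep_rep _ _
  obtain ⟨ψ, a, p0, p1, -, ⟨z₀, p2⟩, p3, -⟩ := PF_orb hT hH hm le_rfl (fun g hg _ _ => hg) X hX'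
    ⟨_, hX hY.some⟩
  have p4 : ∀ g ∈ Γ, ∀ z, ψ (g z) = ψ z := fun g hg z => by rw [← p1, rep_map hg, p1]
  obtain ⟨c, C, c0, C0, hc⟩ := fin_bounds X ψ
  have p5 : ∀ z, (0 < ψ z → c ≤ ψ z) ∧ ψ z ≤ C := fun z => p1 z ▸ hc _ (hX z)
  have ha : 2 * √b < a := by
    by_contra! ha
    obtain ⟨h, P, q0, q1, q2, q3⟩ := dich (Γ := Γ) hT hH (F := fun z => √(m z) * ψ z)
      (fun z => mul_nonneg (sm z).le (p0 z)) (fun z => conv (p3 z (hX z))) (fun g hg =>
        ⟨√(m (g z₀)) / √(m z₀), div_pos (sm _) (sm _), fun y => by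
          have := hm.sqrt_inv hg z₀ y
          rw [div_eq_div_iff (sm _).ne' (sm _).ne'] at this
          rw [p4 g hg, ← mul_assoc, div_mul_eq_mul_div, mul_comm √(m (g z₀)), ← this,
            mul_div_cancel_right₀ _ (sm _).ne']⟩) X hX hX' (mul_pos (sm z₀) p2) ha
    obtain ⟨M, M0, hM⟩ := fib_bound hT hH hm hS hq
    refine hn (amenable_of_par hT.conn hH hY (f := fun w => √(m (w, h)) * ψ (w, h)) r1
      (A := √(A / M) * c) (B := √(M * B) * C) (by positivity) q1 q2 q3 fun y hy => ⟨?_, ?_⟩)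
    · refine mul_le_mul (Real.sqrt_le_sqrt ?_) ((p5 _).1 (pos_of_mul_pos_right (q0 y.1) (sm _).le))
        c0.le (sm _).le
      rw [div_le_iff₀' M0]
      exact (hb y hy).1.trans (hM (y.1, h) y rfl)
    · exact mul_le_mul (Real.sqrt_le_sqrt ((hM y (y.1, h) rfl).trans
        (mul_le_mul_of_nonneg_left (hb y hy).2 M0.le))) (p5 _).2 (p0 _) (Real.sqrt_nonneg _)
  have hle : kerW Γ m ≤ Γ := fun g hg => hg.1
  have p6 : ∀ z, ψ (rep (kerW Γ m) z) = ψ z := fun z => by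
    obtain ⟨g, hg, e⟩ := rep_spec (kerW Γ m) z
    rw [← e, p4 g hg.1]
  set Xn : ℕ → Finset (α × β) := fun n =>
    (bl hT.conn z₀.1 n).image fun w => rep (kerW Γ m) (w, z₀.2) with hXn
  have z0 : ∀ n, rep (kerW Γ m) z₀ ∈ Xn n := fun n =>
    Finset.mem_image.2 ⟨z₀.1, (mem_bl _).2 (by simp), rfl⟩
  have w0 : ∀ n, 0 < ∑ x ∈ Xn n, ψ x ^ 2 := fun n =>
    Finset.sum_pos' (fun _ _ => sq_nonneg _) ⟨_, z0 n, by rw [p6]; positivity⟩
  have one_lt : 1 < a / (2 * √b) := (one_lt_div (by positivity)).2 ha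
  obtain ⟨n, hn⟩ := exists_ratio (w := fun n => ∑ x ∈ Xn n, ψ x ^ 2) (c := a / (2 * √b)) (w0 0) (by
    obtain ⟨c', a1, a2⟩ := exists_between one_lt
    obtain ⟨k, hk⟩ := card_orbits hT hH hm X hX z₀
    obtain ⟨D, hD⟩ := poly_le k a1
    refine ⟨c', C ^ 2 * X.card * D, by linarith, a2, fun n => ?_⟩
    refine (Finset.sum_le_card_nsmul _ _ (C ^ 2) fun x _ =>
      pow_le_pow_left₀ (p0 x) (p5 x).2 2).trans ?_
    have : ((Xn n).card : ℝ) ≤ X.card * (n + 1) ^ k := by exact_mod_cast hk n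
    rw [nsmul_eq_mul, mul_comm, mul_assoc, mul_assoc]
    refine mul_le_mul_of_nonneg_left (this.trans ?_) (by positivity)
    exact mul_le_mul_of_nonneg_left (hD n) (Nat.cast_nonneg _))
  obtain ⟨χ, a', s0, s1, s2, ⟨z₁, s3⟩, s4, s5⟩ := PF_orb hT hH hm hle
    (fun g hg x e => mem_kerW hm hg (x := x) (by rw [e])) (Xn (n + 1)) (fun x hx => by
      obtain ⟨y, -, rfl⟩ := Finset.mem_image.1 hx
      exact rep_rep _ _) ⟨_, z0 _⟩
  have sub : Xn n ⊆ Xn (n + 1) := Finset.image_subset_image fun w hw =>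
    (mem_bl _).2 (((mem_bl _).1 hw).trans n.le_succ)
  have rX : ∀ k, ∀ x ∈ Xn k, rep (kerW Γ m) x = x := fun k x hx => by
    obtain ⟨y, -, rfl⟩ := Finset.mem_image.1 hx
    exact rep_rep _ _
  have ha' : 2 * √b < a' := by
    have h1 := s5 (fun z => if rep (kerW Γ m) z ∈ Xn (n + 1) then ψ z else 0)
      (fun z => by simp only [rep_rep, p6]) fun z hz => if_neg hz
    rw [Finset.sum_congr rfl (f := fun x => (if rep (kerW Γ m) x ∈ Xn (n + 1) then ψ x else 0) ^ 2)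
      (g := fun x => ψ x ^ 2) fun x hx => by rw [if_pos (by rwa [rX _ x hx])]] at h1
    have h2 : a * ∑ x ∈ Xn n, ψ x ^ 2 ≤ a' * ∑ x ∈ Xn (n + 1), ψ x ^ 2 := by
      refine le_trans (le_of_eq ?_) ((Finset.sum_le_sum_of_subset_of_nonneg sub
        fun x _ _ => ?_).trans h1)
      · rw [Finset.mul_sum]
        refine Finset.sum_congr rfl fun x hx => ?_
        rw [if_pos (by rw [rX _ x hx]; exact sub hx), sq, mul_left_comm, ← p3 x (hX x)]
        congr 1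
        refine Finset.sum_congr rfl fun y hy => ?_
        rw [if_pos]
        obtain ⟨w, hw, rfl⟩ := Finset.mem_image.1 hx
        obtain ⟨g, hg, e⟩ := rep_spec (kerW Γ m) (w, z₀.2)
        rw [← rep_map (Subgroup.inv_mem _ hg) y]
        have e' : y = g (g⁻¹ y) := (app_inv g y).symm
        generalize g⁻¹ y = y' at *
        have h3 : HA T (w, z₀.2) y' := by
          rw [← HA_iff hT hH g, e, ← e']; exact mem_hN.1 hy
        exact Finset.mem_image.2 ⟨y'.1, (mem_bl _).2 ((dist_adj_le hT.conn h3.1 z₀.1).trans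
          (Nat.succ_le_succ ((mem_bl _).1 hw))), congrArg _ (Prod.ext rfl h3.2)⟩
      · have : ∀ z, 0 ≤ if rep (kerW Γ m) z ∈ Xn (n + 1) then ψ z else 0 := fun z => by
          split_ifs
          exacts [p0 z, le_rfl]
        exact mul_nonneg (this x) (Finset.sum_nonneg fun y _ =>
          mul_nonneg (div_nonneg (sm y).le (sm x).le) (this y))
    rw [div_mul_eq_mul_div, lt_div_iff₀ (by positivity), mul_comm] at hn
    exact lt_of_mul_lt_mul_right (hn.trans_le h2) (w0 _).le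
  obtain ⟨c₁, _, c1, -, h1⟩ := fin_bounds (Xn (n + 1)) m
  obtain ⟨_, D, -, D0, h2⟩ := fin_bounds (Xn (n + 1)) fun z => √(m z) * χ z
  have mr : ∀ z, m (rep (kerW Γ m) z) = m z := fun z => by
    obtain ⟨g, hg, e⟩ := rep_spec (kerW Γ m) z
    rw [← e, hg.2]
  have f0 : ∀ z, 0 ≤ √(m z) * χ z / D := fun z => div_nonneg (mul_nonneg (sm z).le (s0 z)) D0.le
  refine ⟨z₁.2, a' / 2, c₁, fun w => √(m (w, z₁.2)) * χ (w, z₁.2) / D, by linarith, c1,
    fun w => f0 _, fun w => ?_, ⟨z₁.1, div_pos (mul_pos (sm _) s3) D0⟩, fun v => ?_,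
    fun w hw => ?_⟩
  · by_cases h : rep (kerW Γ m) (w, z₁.2) ∈ Xn (n + 1)
    · have := (h2 _ h).2
      rw [mr, s1] at this
      exact (div_le_one D0).2 this
    · simp [s2 _ h]
  · by_cases h : rep (kerW Γ m) (v, z₁.2) ∈ Xn (n + 1)
    · have := conv (s4 _ h)
      rw [sum_hN] at this
      rw [← Finset.sum_div, this]
      exact le_of_eq (by ring)
    · simp only [s2 _ h, mul_zero, zero_div]
      exact Finset.sum_nonneg fun w _ => f0 _
  · by_cases h : rep (kerW Γ m) (w, z₁.2) ∈ Xn (n + 1)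
    · exact mr (w, z₁.2) ▸ (h1 _ h).1 (hm.pos _)
    · simp [s2 _ h] at hw

end Pool.Agent.P.MP_3aa27f_pr
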