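import Pool.Agent.P.MP_3aa27f_pr.Strat

/-! An embedded branching process. -/

open MeasureTheory ProbabilityTheory unitInterval SimpleGraph

namespace Pool.Agent.P.MP_3aa27f_pr

variable {α β : Type*} {T : SimpleGraph α} {H : SimpleGraph β} [T.LocallyFinite]
  [H.LocallyFinite] {b : ℕ}

open Classical in
/-- descendants of `w` in generation `n` -/
noncomputable def Desc (hK : T.Connected) (o : α) (n : ℕ) (w : α) : Finset α :=
  (bl hK w n).filter fun c => T.dist w c = n ∧ Btw T o w c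

theorem mem_Desc {hK : T.Connected} {o w c : α} {n : ℕ} :
    c ∈ Desc hK o n w ↔ T.dist w c = n ∧ Btw T o w c := by
  simp only [Desc, Finset.mem_filter, mem_bl, and_iff_right_iff_imp]
  exact fun h => h.1.le

theorem Desc_zero (hK : T.Connected) (o w : α) : Desc hK o 0 w = {w} := by
  ext c
  rw [mem_Desc, Finset.mem_singleton, hK.dist_eq_zero_iff]
  exact ⟨fun h => h.1.symm, by rintro rfl; exact ⟨rfl, btw_right _ _⟩⟩

theorem sum_Desc_succ (hT : RT T b) (o w : α) (n : ℕ) (f : α → ℝ) :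
    ∑ c ∈ Desc hT.conn o (n + 1) w, f c = ∑ u ∈ Desc hT.conn o n w, ∑ c ∈ ch T o u, f c := by
  classical
  have hK := hT.conn
  rw [← Finset.sum_biUnion]
  · refine Finset.sum_congr ?_ fun _ _ => rfl
    ext c
    simp only [Finset.mem_biUnion, mem_Desc, mem_ch]
    constructor
    · rintro ⟨h1, h2⟩
      obtain ⟨u, h3, h4⟩ := exists_mid hK w c n (by omega)
      have h5 := h2.inner_right hK h3
      unfold Btw at *
      exact ⟨u, ⟨h4, h5⟩, dist_eq_one_iff_adj.1 (by omega), by omega⟩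
    · rintro ⟨u, ⟨h1, h2⟩, h3, h4⟩
      have := dist_adj_le hK h3 w
      have := tri hK o w c
      unfold Btw at *
      omega
  · intro w _ w' _ hne
    rw [Function.onFun, Finset.disjoint_left]
    intro x h1 h2
    exact hne (((mem_ch_iff hT.tree).1 h1).2.symm.trans ((mem_ch_iff hT.tree).1 h2).2)

theorem Desc_ne {hK : T.Connected} {o w c : α} {n : ℕ} (hw : w ≠ o) (h : c ∈ Desc hK o n w) :
    c ≠ o := by
  rintro rfl
  have := (mem_Desc.1 h).2
  unfold Btw at this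
  rw [SimpleGraph.dist_self] at this
  exact hw (hK.dist_eq_zero_iff.1 (by omega)).symm

theorem sum_Desc_ge (hT : RT T b) {o : α} {f : α → ℝ} {ρ : ℝ} (ρ0 : 0 ≤ ρ)
    (hf : ∀ w ≠ o, ρ * f w ≤ ∑ c ∈ ch T o w, f c) {w : α} (hw : w ≠ o) (n : ℕ) :
    ρ ^ n * f w ≤ ∑ c ∈ Desc hT.conn o n w, f c := by
  induction n with
  | zero => simp [Desc_zero]
  | succ n ih =>
    rw [sum_Desc_succ hT, pow_succ', mul_assoc]
    refine (mul_le_mul_of_nonneg_left ih ρ0).trans ?_
    rw [Finset.mul_sum]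
    exact Finset.sum_le_sum fun u hu => hf u (Desc_ne hw hu)

theorem card_Desc (hT : RT T b) {o w : α} (hw : w ≠ o) (n : ℕ) :
    ((Desc hT.conn o n w).card : ℝ) = b ^ n := by
  induction n with
  | zero => simp [Desc_zero]
  | succ n ih =>
    have := sum_Desc_succ hT o w n fun _ => 1
    simp only [Finset.sum_const, nsmul_eq_mul, mul_one] at this
    rw [this, Finset.sum_congr rfl (g := fun _ => (b : ℝ))
      fun u hu => by rw [hT.card_ch (Desc_ne hw hu)], Finset.sum_const, nsmul_eq_mul, ih, pow_succ]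

open Classical in
/-- survival of the branching process -/
def Surv (hK : T.Connected) (H : SimpleGraph β) (o : α) (f : α → ℝ) (N R : ℕ) (h : β) :
    ℕ → α → Set (Sym2 (α × β) → Bool)
  | 0, _ => Set.univ
  | n + 1, w => {ω | ∃ c ∈ (Desc hK o N w).filter (0 < f ·),
      ω ∈ Cn (T.boxProd H) (StE T H R w c h) (w, h) (c, h) ∧ ω ∈ Surv hK H o f N R h n c}

variable {hK : T.Connected} {o : α} {f : α → ℝ} {N R : ℕ} {h : β}

theorem Surv_loc (hH : H.Connected) (n : ℕ) : ∀ w, Loc (Surv hK H o f N R h n w) := by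
  induction n with
  | zero => exact fun _ => loc_univ
  | succ n ih =>
    exact fun w => Loc.exists_mem _ (A := fun c => Cn (T.boxProd H) (StE T H R w c h) (w, h) (c, h) ∩
      Surv hK H o f N R h n c) fun c _ => (Cn_loc (StE_finite hK hH R w c h)).inter (ih c)

omit [H.LocallyFinite] in
theorem Surv_dep (hT : T.IsTree) (n : ℕ) :
    ∀ w, Dep (Surv hK H o f N R h n w) (EIn {z | Btw T o w z.1}) := by
  induction n with
  | zero => exact fun _ => dep_univ _
  | succ n ih =>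
    rintro w ω ω' hω ⟨c, hc, h1, h2⟩
    have hb := (mem_Desc.1 (Finset.mem_filter.1 hc).1).2
    refine ⟨c, hc, Cn_dep.mono (fun e he z hz => ?_) hω h1,
      (ih c).mono (EIn_mono fun z hz => Btw.trans_left hK hz hb) hω h2⟩
    rcases btw_dich hT hb z.1 with h3 | h3
    · exact h3
    · change Btw T o w z.1
      rw [((StE_sub_SE hK R w c h he).1 z hz).1 h3]; exact btw_right _ _

omit [H.LocallyFinite] in
theorem Surv_anti (n : ℕ) : ∀ w, Surv hK H o f N R h (n + 1) w ⊆ Surv hK H o f N R h n w := by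
  induction n with
  | zero => exact fun _ => Set.subset_univ _
  | succ n ih => exact fun w ω ⟨c, hc, h1, h2⟩ => ⟨c, hc, h1, ih c h2⟩

omit [H.LocallyFinite] in
theorem Surv_reach {ω : Sym2 (α × β) → Bool} (n : ℕ) : ∀ w, ω ∈ Surv hK H o f N R h (n + 1) w →
    ∃ c, 0 < f c ∧ (n + 1) * N ≤ T.dist o c ∧ T.dist o c = T.dist o w + (n + 1) * N ∧
      ω ∈ Cn (T.boxProd H) Set.univ (w, h) (c, h) := by
  induction n with
  | zero =>
    rintro w ⟨c, hc, h1, -⟩
    obtain ⟨h2, h3⟩ := Finset.mem_filter.1 hc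
    obtain ⟨h4, h5⟩ := mem_Desc.1 h2
    unfold Btw at h5
    exact ⟨c, h3, by omega, by omega, Cn_mono (Set.subset_univ _) h1⟩
  | succ n ih =>
    rintro w ⟨c, hc, h1, h2⟩
    obtain ⟨h4, h5⟩ := mem_Desc.1 (Finset.mem_filter.1 hc).1
    obtain ⟨c', a1, -, a2, a3⟩ := ih c h2
    unfold Btw at h5
    rw [Nat.succ_mul (n + 1) N]
    exact ⟨c', a1, by omega, by omega, Cn_trans (Cn_mono (Set.subset_univ _) h1) a3⟩

omit [H.LocallyFinite] in
theorem Desc_disj (hT : T.IsTree) (n : ℕ) (w : α) (s : Finset α) (hs : s ⊆ Desc hK o n w) :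
    (s : Set α).PairwiseDisjoint fun c => EIn {z : α × β | Btw T o c z.1} := by
  intro c hc c' hc' hne
  refine EIn_disjoint (Set.disjoint_left.2 fun z h1 h2 => hne (btw_unique hT h1 h2 ?_))
  have a1 := mem_Desc.1 (hs hc)
  have a2 := mem_Desc.1 (hs hc')
  rw [a1.2, a2.2, a1.1, a2.1]

theorem Surv_ge (hT : RT T b) (hH : HH H) {p : I} {ξ ρ : ℝ} {r : ℕ} (hL : LB T H p ξ r R)
    (ξ0 : 0 ≤ ξ) (ξ1 : ξ ≤ 1) (ρ0 : 0 < ρ) (f0 : ∀ w, 0 ≤ f w) (f1 : ∀ w, f w ≤ ρ)
    (hf : ∀ w ≠ o, ρ * f w ≤ ∑ c ∈ ch T o w, f c)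
    (hN : 2 ≤ (p : ℝ) ^ (2 * R + r) * (ξ * ρ) ^ N) (n : ℕ) :
    ∀ w ≠ o, f w / (ρ * b ^ N) ≤ Pr (fun _ => p) (Surv hT.conn H o f N R h n w) := by
  classical
  have hb : (2 : ℝ) ≤ b := by exact_mod_cast hT.two_le
  have b1 : (1 : ℝ) ≤ b ^ N := one_le_pow₀ (by linarith)
  have p0 : (0 : ℝ) ≤ p := p.2.1
  induction n with
  | zero =>
    intro w _
    rw [Surv, Pr_univ, div_le_one (by positivity)]
    exact (f1 w).trans (le_mul_of_one_le_right ρ0.le b1)
  | succ n ih =>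
    intro w hw
    set s := (Desc hT.conn o N w).filter (0 < f ·)
    have hs : s ⊆ Desc hT.conn o N w := Finset.filter_subset _ _
    have h1 := gw_step (fun _ => p) s
      (E := fun c => Cn (T.boxProd H) (StE T H R w c h) (w, h) (c, h))
      (S := Surv hT.conn H o f N R h n) (F₀ := {e | ∃ z ∈ e, T.dist w z.1 < N})
      (x := fun c => f c / (ρ * b ^ N)) (t := 1)
      (fun c _ => Cn_loc (StE_finite hT.conn hH.conn R w c h)) (fun c _ => Surv_loc hH.conn n c)
      (fun c hc => Cn_dep.mono fun e he => by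
        have := he.2
        rwa [(mem_Desc.1 (hs hc)).1] at this) (fun c _ => Surv_dep hT.tree n c)
      (fun c hc => Set.disjoint_left.2 fun e ⟨z, hz, h2⟩ h3 => by
        have a1 := mem_Desc.1 (hs hc)
        have := Btw.inner_left hT.conn (h3 z hz) a1.2
        unfold Btw at this
        omega) (Desc_disj hT.tree N w s hs) (fun c hc => ih c (Desc_ne hw (hs hc)))
      (fun c _ => div_nonneg (f0 c) (by positivity)) (by
        rw [← Finset.sum_div, div_le_one (by positivity), ← card_Desc hT hw N, mul_comm]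
        refine (Finset.sum_le_sum_of_subset_of_nonneg hs fun c _ _ => f0 c).trans ?_
        simpa using Finset.sum_le_card_nsmul _ _ _ fun c _ => f1 c)
    refine le_trans ?_ h1
    have h2 : ρ ^ N * f w ≤ ∑ c ∈ s, f c := by
      rw [Finset.sum_filter_of_ne fun c _ hc => (f0 c).lt_of_ne' hc]
      exact sum_Desc_ge hT ρ0.le hf hw N
    rw [le_div_iff₀ (by norm_num)]
    calc _ ≤ f w / (ρ * b ^ N) * ((p : ℝ) ^ (2 * R + r) * (ξ * ρ) ^ N) :=
          mul_le_mul_of_nonneg_left (by linarith) (div_nonneg (f0 w) (by positivity))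
      _ = ρ ^ N * f w / (ρ * b ^ N) * ((p : ℝ) ^ (2 * R + r) * ξ ^ N) := by ring
      _ ≤ (∑ c ∈ s, f c) / (ρ * b ^ N) * ((p : ℝ) ^ (2 * R + r) * ξ ^ N) := by gcongr
      _ ≤ _ := by
          rw [Finset.sum_div, Finset.sum_mul]
          refine Finset.sum_le_sum fun c hc => mul_le_mul_of_nonneg_left ?_
            (div_nonneg (f0 c) (by positivity))
          have := strat hT hH hL ξ0 ξ1 w c h
          rwa [(mem_Desc.1 (hs hc)).1] at this

/-- almost sure existence of a cluster meeting the support of a subsolution infinitely often -/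
theorem ae_infinite (hT : RT T b) (hH : HH H) {p : I} (p0 : (0 : ℝ) < p) {ξ ρ : ℝ}
    (hU : ¬ UB T H p ξ) (ξ0 : 0 ≤ ξ) (ξ1 : ξ ≤ 1) (hρ : 1 < ξ * ρ) (hb : (b : ℝ) ≤ ρ ^ 2)
    {F : α → ℝ} (F0 : ∀ w, 0 ≤ F w) (F1 : ∀ w, F w ≤ 1) (hF : ∃ w, 0 < F w)
    (hs : ∀ v, 2 * ρ * F v ≤ ∑ w ∈ T.neighborFinset v, F w) (h : β) :
    ∀ᵐ ω ∂PM (fun _ => p), ∃ x, {w | 0 < F w ∧ ω ∈ Cn (T.boxProd H) Set.univ x (w, h)}.Infinite := by
  classical
  have hK := hT.conn
  have ρ1 : 1 < ρ := by nlinarith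
  have ρ0 : 0 < ρ := by linarith
  have b0 : (0 : ℝ) < b := by exact_mod_cast (by have := hT.two_le; omega : 0 < b)
  obtain ⟨r, R, hL⟩ := LB_of_not_UB hT hH hU
  obtain ⟨v, hv⟩ : ∃ v, ∀ u, F u < ρ * F v := by
    obtain ⟨w, hw⟩ := hF
    have bdd : BddAbove (Set.range F) := ⟨1, by rintro _ ⟨u, rfl⟩; exact F1 u⟩
    have : Nonempty α := ⟨w⟩
    have s0 : 0 < ⨆ u, F u := hw.trans_le (le_ciSup bdd w)
    obtain ⟨v, hv⟩ := exists_lt_of_lt_ciSup (div_lt_self s0 ρ1)
    exact ⟨v, fun u => (le_ciSup bdd u).trans_lt ((div_lt_iff₀' ρ0).1 hv)⟩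
  obtain ⟨o, -, ho⟩ := hT.exists_ext v v 1
  have hvo : v ≠ o := by rintro rfl; simp at ho
  set f : α → ℝ := fun w => max (ρ * F w - F (par T o w)) 0 with hfd
  have f0 : ∀ w, 0 ≤ f w := fun w => le_max_right _ _
  have f1 : ∀ w, f w ≤ ρ := fun w =>
    max_le (by nlinarith [F0 (par T o w), F1 w]) ρ0.le
  have fv : 0 < f v := lt_max_of_lt_left (sub_pos.2 (hv _))
  have fF : ∀ w, 0 < f w → 0 < F w := fun w hw => by
    rcases lt_max_iff.1 hw with h1 | h1
    · exact (mul_pos_iff_of_pos_left ρ0).1 (by linarith [F0 (par T o w)])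
    · exact (lt_irrefl _ h1).elim
  have hf : ∀ w ≠ o, ρ * f w ≤ ∑ c ∈ ch T o w, f c := fun w hw => by
    rw [hfd, mul_max_of_nonneg _ _ ρ0.le, mul_zero]
    refine max_le ?_ (Finset.sum_nonneg fun c _ => f0 c)
    have h1 : ∑ c ∈ ch T o w, (ρ * F c - F w) ≤ ∑ c ∈ ch T o w, f c :=
      Finset.sum_le_sum fun c hc => by
        rw [← ((mem_ch_iff hT.tree).1 hc).2]; exact le_max_left _ _
    rw [Finset.sum_sub_distrib, ← Finset.mul_sum, Finset.sum_const, hT.card_ch hw,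
      nsmul_eq_mul] at h1
    have h2 := Finset.add_sum_erase (T.neighborFinset w) F
      (show par T o w ∈ _ by simpa using (par_spec hK hw).1)
    rw [← ch_eq_erase hT.tree hw] at h2
    have h3 := mul_le_mul_of_nonneg_left (hs w) ρ0.le
    nlinarith [mul_le_mul_of_nonneg_right hb (F0 w)]
  obtain ⟨N, hN⟩ := pow_unbounded_of_one_lt (2 / (p : ℝ) ^ (2 * R + r)) hρ
  rw [div_lt_iff₀' (by positivity)] at hN
  have N0 : 0 < N := Nat.pos_of_ne_zero (by
    rintro rfl
    have := pow_le_one₀ (n := 2 * R + r) p0.le p.2.2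
    simp only [pow_zero, mul_one] at hN
    linarith)
  have hS := Surv_ge (h := h) hT hH hL ξ0 ξ1 ρ0 f0 f1 hf hN.le
  rw [ae_iff]
  refine (measureReal_eq_zero_iff (measure_ne_top _ _)).1 (le_antisymm
    (le_of_forall_pos_le_add fun ε ε0 => ?_) measureReal_nonneg)
  obtain ⟨k, hk⟩ := pow_unbounded_of_one_lt (1 / ε * (ρ * b ^ N) / f v) ρ1
  set A : ℕ → Set (Sym2 (α × β) → Bool) := fun n =>
    {ω | ∃ c ∈ Desc hK o k v, ω ∈ Set.univ ∧ ω ∈ Surv hK H o f N R h n c}
  have lA : ∀ n, Loc (A n) := fun n => Loc.exists_mem _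
    (A := fun c => Set.univ ∩ Surv hK H o f N R h n c) fun c _ => loc_univ.inter (Surv_loc hH.conn n c)
  have hA : ∀ n, Pr (fun _ => p) (A n)ᶜ ≤ ε := fun n => by
    have h1 := gw_step (fun _ => p) (Desc hK o k v) (E := fun _ => Set.univ)
      (S := Surv hK H o f N R h n) (F₀ := ∅) (x := fun c => f c / (ρ * b ^ N))
      (fun _ _ => loc_univ) (fun c _ => Surv_loc hH.conn n c) (fun _ _ => dep_univ _)
      (fun c _ => Surv_dep hT.tree n c) (fun _ _ => Set.empty_disjoint _)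
      (Desc_disj hT.tree k v _ le_rfl) (fun c hc => hS n c (Desc_ne hvo hc))
      (fun c _ => div_nonneg (f0 c) (by positivity)) le_rfl
    simp only [Pr_univ, mul_one] at h1
    have h2 : 1 / ε ≤ ∑ c ∈ Desc hK o k v, f c / (ρ * b ^ N) := by
      rw [← Finset.sum_div, le_div_iff₀ (by positivity)]
      exact ((div_lt_iff₀ fv).1 hk).le.trans (sum_Desc_ge hT ρ0.le hf hvo k)
    rw [Pr_compl _ (lA n)]
    generalize ∑ c ∈ Desc hK o k v, f c / (ρ * b ^ N) = t at h1 h2
    have t0 : 0 < t := lt_of_lt_of_le (by positivity) h2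
    have h3 : 1 - t / (1 + t) ≤ ε := by
      rw [div_le_iff₀ ε0] at h2
      rw [sub_le_comm, le_div_iff₀ (by positivity)]
      nlinarith
    linarith
  have anti : ∀ c, Antitone fun n => Surv hK H o f N R h n c := fun c =>
    antitone_nat_of_succ_le fun n => Surv_anti n c
  have hlim := tendsto_measure_iUnion_atTop (μ := PM fun _ => p) (s := fun n => (A n)ᶜ)
    fun m n hmn => Set.compl_subset_compl.2 fun ω ⟨c, hc, h1, h2⟩ => ⟨c, hc, h1, anti c hmn h2⟩
  have h4 := le_of_tendsto' ((ENNReal.tendsto_toReal (measure_ne_top _ _)).comp hlim) hA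
  rw [zero_add]
  refine le_trans (measureReal_mono fun ω hω => ?_) h4
  by_contra h5
  simp only [Set.mem_iUnion, Set.mem_compl_iff, not_exists, not_not] at h5
  obtain ⟨c, hc⟩ : ∃ c, ∀ n, ω ∈ Surv hK H o f N R h n c := by
    by_contra! h6
    choose g hg using h6
    obtain ⟨c, hc, -, h7⟩ := h5 ((Desc hK o k v).sup g)
    exact hg c (anti c (Finset.le_sup hc) h7)
  refine hω ⟨(c, h), fun hfin => ?_⟩
  obtain ⟨n, hn⟩ := (hfin.image (T.dist o)).bddAbove
  obtain ⟨c', a1, a2, -, a3⟩ := Surv_reach n c (hc _)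
  have := hn ⟨c', ⟨fF c' a1, a3⟩, rfl⟩
  nlinarith

end Pool.Agent.P.MP_3aa27f_pr
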