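import Pool.Agent.P.MP_3aa27f_pr.GW

/-! Automorphisms of `T □ H` and Haar weights along fibres. -/

open SimpleGraph

namespace Pool.Agent.P.MP_3aa27f_pr

section General

variable {V : Type*} {G : SimpleGraph V}

/-- orbit of `y` under the stabiliser of `x` -/
def orb (Γ : Subgroup (G ≃g G)) (x y : V) : Set V := {z | ∃ g ∈ Γ, g x = x ∧ g y = z}

theorem inv_app (g : G ≃g G) (x : V) : g⁻¹ (g x) = x := by simp
theorem app_inv (g : G ≃g G) (x : V) : g (g⁻¹ x) = x := by simp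

theorem orb_map {Γ : Subgroup (G ≃g G)} {g : G ≃g G} (hg : g ∈ Γ) (x y : V) :
    orb Γ (g x) (g y) = g '' orb Γ x y := by
  ext z
  constructor
  · rintro ⟨k, hk, h1, rfl⟩
    exact ⟨_, ⟨g⁻¹ * k * g, Γ.mul_mem (Γ.mul_mem (Γ.inv_mem hg) hk) hg, by simp [h1], rfl⟩, by simp⟩
  · rintro ⟨_, ⟨k, hk, h1, rfl⟩, rfl⟩
    exact ⟨g * k * g⁻¹, Γ.mul_mem (Γ.mul_mem hg hk) (Γ.inv_mem hg), by simp [h1], by simp⟩

theorem ncard_orb_map {Γ : Subgroup (G ≃g G)} {g : G ≃g G} (hg : g ∈ Γ) (x y : V) :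
    (orb Γ (g x) (g y)).ncard = (orb Γ x y).ncard := by
  rw [orb_map hg, Set.ncard_image_of_injective _ g.injective]

theorem orb_finite (hG : G.Connected) [G.LocallyFinite] (Γ : Subgroup (G ≃g G)) (x y : V) :
    (orb Γ x y).Finite := (ball_finite hG x (G.dist x y)).subset <| by
  rintro _ ⟨g, -, h, rfl⟩
  have := dist_iso hG g x y
  rw [h] at this
  exact this.le

/-- Haar weights -/
structure Wt (Γ : Subgroup (G ≃g G)) (m : V → ℝ) : Prop where
  pos : ∀ x, 0 < m x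
  npos : ∀ x y, 0 < (orb Γ x y).ncard
  rel : ∀ x y, m y * (orb Γ x y).ncard = m x * (orb Γ y x).ncard

theorem Wt.inv {Γ : Subgroup (G ≃g G)} {m : V → ℝ} (h : Wt Γ m) {g : G ≃g G} (hg : g ∈ Γ)
    (x y : V) : m (g y) * m x = m (g x) * m y := by
  have h1 := h.rel x y
  have h2 := h.rel (g x) (g y)
  rw [ncard_orb_map hg, ncard_orb_map hg] at h2
  have h3 : (0 : ℝ) < (orb Γ x y).ncard := by exact_mod_cast h.npos x y
  refine mul_right_cancel₀ h3.ne' ?_
  calc _ = m x * (m (g y) * (orb Γ x y).ncard) := by ring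
    _ = m (g x) * (m x * (orb Γ y x).ncard) := by rw [h2]; ring
    _ = _ := by rw [← h1]; ring

theorem conn_const {W X : Type*} {K : SimpleGraph W} (hK : K.Connected) {f : W → X}
    (h : ∀ a b, K.Adj a b → f a = f b) (a b : W) : f a = f b := by
  obtain ⟨w⟩ := hK a b
  induction w with
  | nil => rfl
  | cons hadj _ ih => exact (h _ _ hadj).trans ih

end General

variable {α β : Type*} {T : SimpleGraph α} {H : SimpleGraph β}

/-- horizontal adjacency -/
def HA (T : SimpleGraph α) (x y : α × β) : Prop := T.Adj x.1 y.1 ∧ x.2 = y.2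

/-- vertical adjacency -/
def VA (H : SimpleGraph β) (x y : α × β) : Prop := H.Adj x.2 y.2 ∧ x.1 = y.1

theorem HA.symm {x y : α × β} (h : HA T x y) : HA T y x := ⟨h.1.symm, h.2.symm⟩

theorem no_square (hT : T.IsTree) {x y y' z : α × β} (h : HA T x y) (h' : HA T x y')
    (hz : z ≠ x) (h1 : (T.boxProd H).Adj y z) (h2 : (T.boxProd H).Adj y' z) : y = y' := by
  refine Prod.ext ?_ (h.2.symm.trans h'.2)
  rcases boxProd_adj.1 h1 with a | a <;> rcases boxProd_adj.1 h2 with c | c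
  · have e1 := dist_eq_one_iff_adj.2 h.1
    have e2 := dist_eq_one_iff_adj.2 h'.1
    have e3 : T.dist x.1 z.1 ≠ 0 := fun e =>
      hz (Prod.ext (hT.connected.dist_eq_zero_iff.1 e).symm (a.2.symm.trans h.2.symm))
    have := hT.dist_eq_dist_add_one_of_adj x.1 a.1
    exact par_unique hT (r := x.1) a.1.symm c.1.symm (by omega) (by omega)
  · exact (c.1.ne (h'.2.symm.trans (h.2.trans a.2))).elim
  · exact (a.1.ne (h.2.symm.trans (h'.2.trans c.2))).elim
  · exact a.2.trans c.2.symm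

variable [T.LocallyFinite] [H.LocallyFinite] {b : ℕ}

theorem HA_map (hT : RT T b) (hH : HH H) (g : T.boxProd H ≃g T.boxProd H) {x y : α × β}
    (hxy : HA T x y) : HA T (g x) (g y) := by
  by_contra hn
  have step : ∀ x y y' : α × β, HA T x y → HA T x y' → VA H (g x) (g y) → VA H (g x) (g y') := by
    intro x y y' h h' hv
    rcases boxProd_adj.1 (g.map_adj_iff.2 (boxProd_adj.2 (Or.inl h'))) with a | a
    · have := no_square (H := H) hT.tree h h' (z := g⁻¹ ((g y').1, (g y).2)) (fun e => by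
        have := congrArg (fun z => (g z).2) e
        simp only [app_inv] at this
        exact hv.1.ne this.symm)
        (g.map_adj_iff.1 (by rw [app_inv]; exact boxProd_adj.2 (Or.inl ⟨hv.2 ▸ a.1, rfl⟩)))
        (g.map_adj_iff.1 (by rw [app_inv]; exact boxProd_adj.2 (Or.inr ⟨a.2 ▸ hv.1, rfl⟩)))
      exact this ▸ hv
    · exact a
  have h0 : VA H (g x) (g y) :=
    (boxProd_adj.1 (g.map_adj_iff.2 (boxProd_adj.2 (Or.inl hxy)))).resolve_left hn
  have key := conn_const hT.conn (f := fun w => ∀ w', T.Adj w w' → VA H (g (w, x.2)) (g (w', x.2)))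
    (fun a c hac => by
      have : ∀ a c, T.Adj a c → (∀ w', T.Adj a w' → VA H (g (a, x.2)) (g (w', x.2))) →
          ∀ w', T.Adj c w' → VA H (g (c, x.2)) (g (w', x.2)) := fun a c hac h w' hw' =>
        step _ (a, x.2) _ ⟨hac.symm, rfl⟩ ⟨hw', rfl⟩ ⟨(h c hac).1.symm, (h c hac).2.symm⟩
      exact propext ⟨this a c hac, this c a hac.symm⟩) x.1
  have all : ∀ w w', T.Adj w w' → VA H (g (w, x.2)) (g (w', x.2)) := fun w =>
    (key w).mp fun w' hw' => step x y _ hxy ⟨hw', rfl⟩ h0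
  let φ : T →g H := ⟨fun w => (g (w, x.2)).2, fun {a c} h => (all a c h).1⟩
  have inj : Function.Injective φ := fun a c e => congrArg Prod.fst (g.injective (Prod.ext
    (conn_const hT.conn (f := fun w => (g (w, x.2)).1) (fun a c h => (all a c h).2) a c) e))
  obtain ⟨C, hC⟩ := hH.growth (3 / 2) (by norm_num)
  obtain ⟨n, hn⟩ := pow_unbounded_of_one_lt C (show (1 : ℝ) < 4 / 3 by norm_num)
  have h1 : (Desc hT.conn y.1 n x.1).card ≤ (bl hH.conn (φ x.1) n).card :=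
    Finset.card_le_card_of_injOn φ (fun w hw => (mem_bl _).2
      ((dist_hom_le hT.conn φ _ _).trans (mem_Desc.1 hw).1.le)) inj.injOn
  have h2 := card_Desc hT hxy.1.ne n
  have h3 : (2 : ℝ) ^ n ≤ b ^ n := pow_le_pow_left₀ (by norm_num) (by exact_mod_cast hT.two_le) n
  have h4 : ((Desc hT.conn y.1 n x.1).card : ℝ) ≤ C * (3 / 2) ^ n :=
    le_trans (by exact_mod_cast h1) (hC _ n)
  have h5 : (2 : ℝ) ^ n = (4 / 3) ^ n * (3 / 2) ^ n := by rw [← mul_pow]; norm_num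
  nlinarith [pow_pos (show (0 : ℝ) < 3 / 2 by norm_num) n]

theorem HA_iff (hT : RT T b) (hH : HH H) (g : T.boxProd H ≃g T.boxProd H) {x y : α × β} :
    HA T (g x) (g y) ↔ HA T x y :=
  ⟨fun h => by simpa using HA_map hT hH g⁻¹ h, HA_map hT hH g⟩

theorem VA_map (hT : RT T b) (hH : HH H) (g : T.boxProd H ≃g T.boxProd H) {x y : α × β}
    (hxy : VA H x y) : VA H (g x) (g y) :=
  (boxProd_adj.1 (g.map_adj_iff.2 (boxProd_adj.2 (Or.inr hxy)))).resolve_left fun h =>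
    hxy.1.ne ((HA_iff hT hH g).1 h).2

theorem fib_map (hT : RT T b) (hH : HH H) (g : T.boxProd H ≃g T.boxProd H) {x y : α × β}
    (h : x.1 = y.1) : (g x).1 = (g y).1 ∧ H.dist (g x).2 (g y).2 ≤ H.dist x.2 y.2 := by
  obtain ⟨a, u⟩ := x
  obtain ⟨_, v⟩ := y
  subst h
  exact ⟨conn_const hH.conn (f := fun u => (g (a, u)).1)
    (fun u v h => (VA_map hT hH g (x := (a, u)) (y := (a, v)) ⟨h, rfl⟩).2) u v,
    dist_hom_le hH.conn
      (⟨fun u => (g (a, u)).2, fun {u v} h =>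
        (VA_map hT hH g (x := (a, u)) (y := (a, v)) ⟨h, rfl⟩).1⟩ : H →g H) u v⟩

variable {Γ : Subgroup (T.boxProd H ≃g T.boxProd H)} {m : α × β → ℝ}

theorem fib_le (hT : RT T b) (hH : HH H) (hm : Wt Γ m) {g : T.boxProd H ≃g T.boxProd H}
    (hg : g ∈ Γ) {x : α × β} (h : (g x).1 = x.1) : m (g x) ≤ m x := by
  have key : ∀ n : ℕ, ((g ^ n) x).1 = x.1 ∧ H.dist ((g ^ n) x).2 x.2 ≤ n * H.dist (g x).2 x.2 ∧
      m ((g ^ n) x) = (m (g x) / m x) ^ n * m x := by
    intro n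
    induction n with
    | zero => simp
    | succ n ih =>
      have e : (g ^ (n + 1)) x = g ((g ^ n) x) := by rw [pow_succ']; rfl
      have h1 := fib_map hT hH g ih.1
      have h2 := tri hH.conn (g ((g ^ n) x)).2 (g x).2 x.2
      have h3 := hm.inv hg x ((g ^ n) x)
      have h4 := (hm.pos x).ne'
      rw [e, Nat.succ_mul]
      refine ⟨h1.1.trans h, by omega, mul_right_cancel₀ h4 ?_⟩
      rw [h3, ih.2.2, pow_succ]; field_simp
  rw [← div_le_one (hm.pos x)]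
  refine le_of_growth (L := H.dist (g x).2 x.2) zero_le_one fun c hc => ?_
  obtain ⟨C, hC⟩ := hH.growth c hc
  refine ⟨C, fun k => ?_⟩
  obtain ⟨h1, h2, h3⟩ := key (k + 1)
  generalize (g ^ (k + 1)) x = y at h1 h2 h3
  have h4 := hm.rel x y
  have h5 : (1 : ℝ) ≤ (orb Γ x y).ncard := by exact_mod_cast hm.npos x y
  have h6 : (orb Γ y x).ncard ≤ (bl hH.conn y.2 ((k + 1) * H.dist (g x).2 x.2)).card := by
    rw [← Set.ncard_coe_finset]
    refine Set.ncard_le_ncard_of_injOn Prod.snd ?_ ?_ (Finset.finite_toSet _)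
    · rintro _ ⟨k, -, e, rfl⟩
      have := (fib_map hT hH k h1).2
      rw [e] at this
      exact (mem_bl _).2 (this.trans h2)
    · rintro _ ⟨k, -, e, rfl⟩ _ ⟨k', -, e', rfl⟩ e''
      have a := (fib_map hT hH k h1).1
      have a' := (fib_map hT hH k' h1).1
      rw [e] at a
      rw [e'] at a'
      exact Prod.ext (a.symm.trans a') e''
  have h7 : ((orb Γ y x).ncard : ℝ) ≤ C * c ^ ((k + 1) * H.dist (g x).2 x.2) :=
    le_trans (by exact_mod_cast h6) (hC _ _)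
  rw [mul_one, ← pow_mul, mul_comm _ (k + 1)]
  refine le_trans (le_of_mul_le_mul_right ?_ (hm.pos x)) h7
  rw [← h3, mul_comm _ (m x), ← h4]
  exact le_mul_of_one_le_right (hm.pos y).le h5

theorem fib_eq (hT : RT T b) (hH : HH H) (hm : Wt Γ m) {g : T.boxProd H ≃g T.boxProd H}
    (hg : g ∈ Γ) {x : α × β} (h : (g x).1 = x.1) : m (g x) = m x := by
  refine le_antisymm (fib_le hT hH hm hg h) ?_
  simpa using fib_le hT hH hm (Γ.inv_mem hg) (x := g x) (by simpa using h.symm)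

theorem fib_bound (hT : RT T b) (hH : HH H) (hm : Wt Γ m) {S : Set (α × β)} (hS : S.Finite)
    (hq : ∀ v, ∃ g ∈ Γ, g v ∈ S) : ∃ M : ℝ, 0 < M ∧ ∀ x y, x.1 = y.1 → m y ≤ M * m x := by
  classical
  have : ∀ s s' : α × β, ∃ y : α × β, (∃ y' : α × β, y'.1 = s.1 ∧ ∃ g ∈ Γ, g y' = s') →
      y.1 = s.1 ∧ ∃ g ∈ Γ, g y = s' := fun s s' => by
    by_cases h : ∃ y' : α × β, y'.1 = s.1 ∧ ∃ g ∈ Γ, g y' = s'
    · exact ⟨h.choose, fun _ => h.choose_spec⟩
    · exact ⟨s, fun h' => (h h').elim⟩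
  choose Y hY using this
  obtain ⟨M, hM⟩ := ((hS.prod hS).image fun q => m (Y q.1 q.2) / m q.1).bddAbove
  refine ⟨max M 1, by positivity, fun x y h => ?_⟩
  obtain ⟨g, hg, h1⟩ := hq x
  obtain ⟨g', hg', h2⟩ := hq (g y)
  have h3 := (fib_map hT hH g h).1
  obtain ⟨h4, k, hk, h5⟩ := hY (g x) (g' (g y)) ⟨g y, h3.symm, g', hg', rfl⟩
  have h6 : (k⁻¹ * g') (g y) = Y (g x) (g' (g y)) := by
    rw [← inv_app k (Y _ _), h5]; rfl
  have h7 := fib_eq hT hH hm (Γ.mul_mem (Γ.inv_mem hk) hg') (x := g y) (by rw [h6, h4, h3])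
  have h8 : m (Y (g x) (g' (g y))) / m (g x) ≤ M := hM ⟨(g x, g' (g y)), ⟨h1, h2⟩, rfl⟩
  rw [← h6, h7, div_le_iff₀ (hm.pos _)] at h8
  have h9 := hm.inv hg x y
  have := hm.pos x
  have := hm.pos (g x)
  refine le_of_mul_le_mul_left ?_ (hm.pos (g x))
  rw [← h9]
  calc _ ≤ M * m (g x) * m x := by gcongr
    _ ≤ max M 1 * m (g x) * m x := by gcongr; exact le_max_left _ _
    _ = _ := by ring

end Pool.Agent.P.MP_3aa27f_pr
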