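import Pool.Agent.P.MP_3aa27f_pr.Grp1

/-! Perron-Frobenius eigenfunctions on orbit spaces. -/

open SimpleGraph

namespace Pool.Agent.P.MP_3aa27f_pr

theorem PF_fin {ι : Type*} [Fintype ι] [Nonempty ι] (Q : ι → ι → ℝ) (Q0 : ∀ i j, 0 ≤ Q i j)
    (Qs : ∀ i j, Q i j = Q j i) : ∃ (ψ : ι → ℝ) (a : ℝ), (∀ i, 0 ≤ ψ i) ∧ (∃ i, 0 < ψ i) ∧
      (∀ i, ∑ j, Q i j * ψ j = a * ψ i) ∧
      ∀ φ : ι → ℝ, ∑ i, φ i * ∑ j, Q i j * φ j ≤ a * ∑ i, φ i ^ 2 := by
  classical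
  set q : (ι → ℝ) → ℝ := fun φ => ∑ i, φ i * ∑ j, Q i j * φ j with hq
  have hc : IsCompact {φ : ι → ℝ | ∑ i, φ i ^ 2 = 1} := by
    refine (isCompact_univ_pi fun _ => isCompact_Icc (a := (-1 : ℝ)) (b := 1)).of_isClosed_subset
      (isClosed_eq (by fun_prop) continuous_const) fun φ hφ i _ => ?_
    have : φ i ^ 2 ≤ 1 := hφ ▸ Finset.single_le_sum (f := fun i => φ i ^ 2)
      (fun _ _ => sq_nonneg _) (Finset.mem_univ i)
    exact abs_le.1 ((sq_le_one_iff_abs_le_one _).1 this)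
  obtain ⟨i₀⟩ := ‹Nonempty ι›
  obtain ⟨φ₀, h1, h2⟩ := hc.exists_isMaxOn (f := q)
    ⟨Pi.single i₀ 1, by simp [Pi.single_apply]⟩ (by fun_prop)
  have ray : ∀ φ, q φ ≤ q φ₀ * ∑ i, φ i ^ 2 := fun φ => by
    have s0 : 0 ≤ ∑ i, φ i ^ 2 := Finset.sum_nonneg fun _ _ => sq_nonneg _
    rcases s0.eq_or_lt with h | h
    · have : ∀ i, φ i = 0 := fun i => pow_eq_zero_iff two_ne_zero |>.1
        ((Finset.sum_eq_zero_iff_of_nonneg fun _ _ => sq_nonneg _).1 h.symm i (Finset.mem_univ i))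
      simp [hq, this]
    · set t := √(∑ i, φ i ^ 2)
      have t2 : t ^ 2 = ∑ i, φ i ^ 2 := Real.sq_sqrt s0
      have t0 : 0 < t := Real.sqrt_pos.2 h
      have h3 : q (fun i => φ i / t) ≤ q φ₀ := h2 (show ∑ i, (φ i / t) ^ 2 = 1 by
        simp only [div_pow]; rw [← Finset.sum_div, t2, div_self h.ne'])
      have h4 : q (fun i => φ i / t) = q φ / t ^ 2 := by
        simp only [hq, Finset.sum_div, Finset.mul_sum]
        refine Finset.sum_congr rfl fun i _ => Finset.sum_congr rfl fun j _ => ?_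
        field_simp
      rwa [h4, div_le_iff₀ (by positivity), t2] at h3
  have n1 : ∑ i, |φ₀ i| ^ 2 = 1 := by simp only [sq_abs]; exact h1
  have e1 : q (fun i => |φ₀ i|) = q φ₀ := by
    refine le_antisymm (h2 n1) ?_
    simp only [hq, Finset.mul_sum]
    refine Finset.sum_le_sum fun i _ => Finset.sum_le_sum fun j _ => (le_abs_self _).trans_eq ?_
    rw [abs_mul, abs_mul, abs_of_nonneg (Q0 i j)]
  refine ⟨fun i => |φ₀ i|, q φ₀, fun _ => abs_nonneg _, ?_, fun i => ?_, ray⟩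
  · by_contra! h
    rw [Finset.sum_eq_zero fun i _ => by rw [le_antisymm (h i) (abs_nonneg _)]; simp] at n1
    exact zero_ne_one n1
  set ψ : ι → ℝ := fun i => |φ₀ i| with hψ
  change ∑ i, ψ i ^ 2 = 1 at n1
  change ∑ j, Q i j * ψ j = q φ₀ * ψ i
  have key : ∀ t : ℝ, 2 * t * (∑ j, Q i j * ψ j - q φ₀ * ψ i) ≤ (q φ₀ - Q i i) * t ^ 2 := by
    intro t
    have h3 := ray fun j => ψ j + if j = i then t else 0
    have h4 : ∑ j, (ψ j + if j = i then t else 0) ^ 2 = 1 + 2 * t * ψ i + t ^ 2 := by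
      simp [add_sq, Finset.sum_add_distrib, n1]; ring
    have h5 : q (fun j => ψ j + if j = i then t else 0) =
        q ψ + 2 * t * ∑ j, Q i j * ψ j + t ^ 2 * Q i i := by
      simp only [hq, mul_add, add_mul, Finset.sum_add_distrib, mul_ite, ite_mul, mul_zero,
        zero_mul, Finset.sum_ite_eq', Finset.mem_univ, if_true]
      rw [Finset.sum_congr rfl (f := fun x => ψ x * (Q x i * t)) (g := fun x => t * (Q i x * ψ x))
        fun x _ => by rw [Qs x i]; ring, ← Finset.mul_sum]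
      ring
    rw [h4, h5, e1] at h3
    linarith
  rw [← sub_eq_zero]
  generalize ∑ j, Q i j * ψ j - q φ₀ * ψ i = d at key
  generalize q φ₀ - Q i i = c at key
  have c0 : 0 < |c| + 1 := by positivity
  have h3 := (key (d / (|c| + 1))).trans
    (mul_le_mul_of_nonneg_right ((le_abs_self c).trans (le_add_of_nonneg_right zero_le_one))
      (sq_nonneg _))
  have e : (|c| + 1) * (d / (|c| + 1)) ^ 2 = d / (|c| + 1) * d := by field_simp
  have h4 : d * d / (|c| + 1) ≤ 0 := by rw [mul_div_right_comm]; linarith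
  exact mul_self_eq_zero.1 (le_antisymm (by rwa [div_le_iff₀ c0, zero_mul] at h4)
    (mul_self_nonneg d))

section Rep

variable {V : Type*} {G : SimpleGraph V}

/-- a representative of the orbit -/
noncomputable def rep (Γ : Subgroup (G ≃g G)) (x : V) : V :=
  @Classical.epsilon V ⟨x⟩ fun y => ∃ g ∈ Γ, g x = y

theorem rep_spec (Γ : Subgroup (G ≃g G)) (x : V) : ∃ g ∈ Γ, g x = rep Γ x :=
  Classical.epsilon_spec (p := fun y => ∃ g ∈ Γ, g x = y) ⟨x, 1, Γ.one_mem, rfl⟩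

theorem rep_map {Γ : Subgroup (G ≃g G)} {g : G ≃g G} (hg : g ∈ Γ) (x : V) :
    rep Γ (g x) = rep Γ x := by
  unfold rep
  congr 1
  funext y
  exact propext ⟨fun ⟨k, hk, e⟩ => ⟨k * g, Γ.mul_mem hk hg, e⟩,
    fun ⟨k, hk, e⟩ => ⟨k * g⁻¹, Γ.mul_mem hk (Γ.inv_mem hg), by simpa using e⟩⟩

theorem rep_rep (Γ : Subgroup (G ≃g G)) (x : V) : rep Γ (rep Γ x) = rep Γ x := by
  obtain ⟨g, hg, e⟩ := rep_spec Γ x
  rw [← e, rep_map hg, e]

end Rep

variable {α β : Type*} {T : SimpleGraph α} {H : SimpleGraph β} [T.LocallyFinite]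

/-- horizontal neighbours -/
noncomputable def hN (T : SimpleGraph α) [T.LocallyFinite] (x : α × β) : Finset (α × β) :=
  (T.neighborFinset x.1).map ⟨fun w => (w, x.2), fun _ _ h => congrArg Prod.fst h⟩

theorem mem_hN {x y : α × β} : y ∈ hN T x ↔ HA T x y := by
  simp only [hN, Finset.mem_map, mem_neighborFinset, Function.Embedding.coeFn_mk, HA]
  exact ⟨by rintro ⟨w, h, rfl⟩; exact ⟨h, rfl⟩, fun h => ⟨y.1, h.1, Prod.ext rfl h.2⟩⟩

theorem sum_hN (x : α × β) (f : α × β → ℝ) :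
    ∑ y ∈ hN T x, f y = ∑ w ∈ T.neighborFinset x.1, f (w, x.2) := Finset.sum_map _ _ _

variable [H.LocallyFinite] {b : ℕ}

theorem sum_hN_map (hT : RT T b) (hH : HH H) (g : T.boxProd H ≃g T.boxProd H) (x : α × β)
    (f : α × β → ℝ) : ∑ y ∈ hN T (g x), f y = ∑ y ∈ hN T x, f (g y) :=
  (Finset.sum_equiv g.toEquiv (fun _ => by rw [mem_hN, mem_hN]; exact (HA_iff hT hH g).symm)
    fun _ _ => rfl).symm

variable {Γ Γ' : Subgroup (T.boxProd H ≃g T.boxProd H)} {m : α × β → ℝ}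

omit [T.LocallyFinite] [H.LocallyFinite] in
theorem Wt.sqrt_inv (hm : Wt Γ m) {g : T.boxProd H ≃g T.boxProd H} (hg : g ∈ Γ) (x y : α × β) :
    √(m (g y)) / √(m (g x)) = √(m y) / √(m x) := by
  rw [← Real.sqrt_div (hm.pos _).le, ← Real.sqrt_div (hm.pos _).le,
    (div_eq_div_iff (hm.pos _).ne' (hm.pos _).ne').2 ((hm.inv hg x y).trans (mul_comm _ _))]

open Classical in
theorem card_rel (hT : RT T b) (hH : HH H) (hle : Γ' ≤ Γ)
    (hst : ∀ g ∈ Γ, ∀ x, g x = x → g ∈ Γ') {x x' y : α × β} (hx : rep Γ' x = x)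
    (hy : y ∈ (hN T x).filter (rep Γ' · = x')) :
    (((hN T x').filter (rep Γ' · = x)).filter fun y' => ∃ g ∈ Γ', g x = y' ∧ g y = x').card =
      (orb Γ y x).ncard := by
  obtain ⟨h1, h2⟩ := Finset.mem_filter.1 hy
  obtain ⟨g₀, hg₀, e₀⟩ := rep_spec Γ' y
  rw [h2] at e₀
  rw [← ncard_orb_map (hle hg₀), e₀, ← Set.ncard_coe_finset]
  congr 1
  ext z
  simp only [Finset.coe_filter, Finset.mem_filter, Set.mem_ofPred_eq, mem_hN]
  constructor
  · rintro ⟨-, g, hg, rfl, e⟩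
    exact ⟨g * g₀⁻¹, hle (Γ'.mul_mem hg (Γ'.inv_mem hg₀)), by
      change g (g₀⁻¹ x') = x'
      rw [← e₀, inv_app, e, e₀], by simp⟩
  · rintro ⟨k, hk, e, rfl⟩
    have hk' := Γ'.mul_mem (hst k hk _ e) hg₀
    have e' : (k * g₀) y = x' := by
      change k (g₀ y) = x'
      rw [e₀, e]
    exact ⟨⟨e' ▸ HA_map hT hH (k * g₀) (mem_hN.1 h1).symm, (rep_map hk' x).trans hx⟩,
      k * g₀, hk', rfl, e'⟩

open Classical in
theorem Q_symm (hT : RT T b) (hH : HH H) (hm : Wt Γ m) (hle : Γ' ≤ Γ)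
    (hst : ∀ g ∈ Γ, ∀ x, g x = x → g ∈ Γ') {x x' : α × β} (hx : rep Γ' x = x)
    (hx' : rep Γ' x' = x') :
    ∑ y ∈ (hN T x).filter (rep Γ' · = x'), √(m y) / √(m x) =
      ∑ y ∈ (hN T x').filter (rep Γ' · = x), √(m y) / √(m x') := by
  have key : ∀ x x' : α × β, rep Γ' x = x →
      ∑ y ∈ (hN T x).filter (rep Γ' · = x'), √(m y) / √(m x) =
      ∑ y ∈ (hN T x).filter (rep Γ' · = x'), ∑ y' ∈ (hN T x').filter (rep Γ' · = x),
        if ∃ g ∈ Γ', g x = y' ∧ g y = x' then √(m y) / √(m x) / (orb Γ y x).ncard else 0 := by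
    intro x x' hx
    refine Finset.sum_congr rfl fun y hy => ?_
    rw [← Finset.sum_filter, Finset.sum_const, card_rel hT hH hle hst hx hy, nsmul_eq_mul,
      mul_div_cancel₀ _ (by exact_mod_cast (hm.npos y x).ne')]
  rw [key x x' hx, key x' x hx', Finset.sum_comm]
  refine Finset.sum_congr rfl fun y' _ => Finset.sum_congr rfl fun y _ => ?_
  refine if_ctx_congr ⟨?_, ?_⟩ ?_ fun _ => rfl
  · rintro ⟨g, hg, rfl, rfl⟩
    exact ⟨g⁻¹, Γ'.inv_mem hg, by simp, by simp⟩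
  · rintro ⟨g, hg, rfl, rfl⟩
    exact ⟨g⁻¹, Γ'.inv_mem hg, by simp, by simp⟩
  · rintro ⟨g, hg, rfl, rfl⟩
    rw [hm.sqrt_inv (hle hg), ncard_orb_map (hle hg)]
    have h1 := hm.rel x' y'
    rw [← Real.mul_self_sqrt (hm.pos x').le, ← Real.mul_self_sqrt (hm.pos y').le] at h1
    have h2 := Real.sqrt_pos.2 (hm.pos x')
    have h3 := Real.sqrt_pos.2 (hm.pos y')
    have h4 : (0 : ℝ) < (orb Γ x' y').ncard := by exact_mod_cast hm.npos x' y'
    have h5 : (0 : ℝ) < (orb Γ y' x').ncard := by exact_mod_cast hm.npos y' x'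
    field_simp
    linarith

/-- Perron-Frobenius eigenfunction on a finite union of orbits -/
theorem PF_orb (hT : RT T b) (hH : HH H) (hm : Wt Γ m) (hle : Γ' ≤ Γ)
    (hst : ∀ g ∈ Γ, ∀ x, g x = x → g ∈ Γ') (X : Finset (α × β)) (hX : ∀ x ∈ X, rep Γ' x = x)
    (hne : X.Nonempty) : ∃ (ψ : α × β → ℝ) (a : ℝ), (∀ z, 0 ≤ ψ z) ∧
      (∀ z, ψ (rep Γ' z) = ψ z) ∧ (∀ z, rep Γ' z ∉ X → ψ z = 0) ∧ (∃ z, 0 < ψ z) ∧
      (∀ z, rep Γ' z ∈ X → ∑ y ∈ hN T z, √(m y) / √(m z) * ψ y = a * ψ z) ∧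
      ∀ φ : α × β → ℝ, (∀ z, φ (rep Γ' z) = φ z) → (∀ z, rep Γ' z ∉ X → φ z = 0) →
        ∑ x ∈ X, φ x * ∑ y ∈ hN T x, √(m y) / √(m x) * φ y ≤ a * ∑ x ∈ X, φ x ^ 2 := by
  classical
  have : Nonempty X := hne.to_subtype
  set Q : X → X → ℝ := fun x x' => ∑ y ∈ (hN T x.1).filter (rep Γ' · = x'.1), √(m y) / √(m x)
    with hQ
  obtain ⟨ψ, a, h1, ⟨i, h2⟩, h3, h4⟩ := PF_fin Q
    (fun _ _ => Finset.sum_nonneg fun _ _ => by positivity)
    fun x x' => Q_symm hT hH hm hle hst (hX _ x.2) (hX _ x'.2)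
  have key : ∀ φ : α × β → ℝ, (∀ z, φ (rep Γ' z) = φ z) → (∀ z, rep Γ' z ∉ X → φ z = 0) →
      ∀ x : X, ∑ y ∈ hN T x.1, √(m y) / √(m x) * φ y = ∑ x', Q x x' * φ x' := by
    intro φ a1 a2 x
    rw [← Finset.sum_filter_of_ne (p := fun y => rep Γ' y ∈ X) fun y _ hy => by
      by_contra h; exact hy (by rw [a2 y h, mul_zero]), ← Finset.sum_fiberwise_of_maps_to (t := X)
      (g := rep Γ') fun y hy => (Finset.mem_filter.1 hy).2, ← Finset.sum_coe_sort X]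
    refine Finset.sum_congr rfl fun x' _ => ?_
    rw [hQ, Finset.sum_mul, Finset.filter_filter]
    refine Finset.sum_congr (Finset.filter_congr fun y _ => ⟨fun h => h.2, fun h => ⟨h ▸ x'.2, h⟩⟩)
      fun y hy => ?_
    rw [← a1 y, (Finset.mem_filter.1 hy).2]
  set χ : α × β → ℝ := fun z => if h : rep Γ' z ∈ X then ψ ⟨_, h⟩ else 0 with hχ
  have c1 : ∀ z, χ (rep Γ' z) = χ z := fun z => by simp only [hχ, rep_rep]
  have c2 : ∀ z, rep Γ' z ∉ X → χ z = 0 := fun z hz => dif_neg hz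
  have c3 : ∀ x : X, χ x = ψ x := fun x => by simp [hχ, hX _ x.2]
  refine ⟨χ, a, fun z => ?_, c1, c2, ⟨i, c3 i ▸ h2⟩, fun z hz => ?_, fun φ a1 a2 => ?_⟩
  · simp only [hχ]; split_ifs
    exacts [h1 _, le_rfl]
  · have h5 := key χ c1 c2 ⟨_, hz⟩
    simp only [c3, h3] at h5
    rw [← c3, c1] at h5
    obtain ⟨g, hg, e⟩ := rep_spec Γ' z
    rw [← h5, ← e, sum_hN_map hT hH]
    exact Finset.sum_congr rfl fun y _ => by rw [hm.sqrt_inv (hle hg), ← c1 (g y), rep_map hg, c1]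
  · have := h4 fun x => φ x
    rw [← Finset.sum_coe_sort X, ← Finset.sum_coe_sort X]
    simpa only [key φ a1 a2] using this

end Pool.Agent.P.MP_3aa27f_pr
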