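import Pool.Agent.P.MP_3aa27f_pr.Tree

/-! Automorphisms of regular trees and a convolution estimate. -/

namespace Pool.Agent.P.MP_3aa27f_pr

open SimpleGraph

variable {α : Type*} {T : SimpleGraph α}

theorem exists_bijOn_marked (s t : Finset α) (P Q : α → Prop) :
    ∃ f : α → α, s.card = t.card → Set.BijOn f s t ∧
      ((∃ y ∈ t, Q y) → (∀ x ∈ s, ∀ x' ∈ s, P x → P x' → x = x') → ∀ x ∈ s, P x → Q (f x)) := by
  classical
  by_cases hc : s.card = t.card
  swap
  · exact ⟨id, fun h => (hc h).elim⟩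
  obtain ⟨g, hg⟩ : ∃ g : α → α, Set.BijOn g s t := by
    let e := Finset.equivOfCardEq hc
    refine ⟨fun x => if h : x ∈ s then e ⟨x, h⟩ else x, fun x hx => ?_, fun x hx y hy h => ?_,
      fun y hy => ⟨e.symm ⟨y, hy⟩, (e.symm ⟨y, hy⟩).2, by simp⟩⟩
    · have hx' : x ∈ s := hx
      simp [hx']
    · have hx' : x ∈ s := hx
      have hy' : y ∈ s := hy
      simp only [hx', hy', dif_pos] at h
      simpa using e.injective (Subtype.ext h)
  by_cases h : (∃ y ∈ t, Q y) ∧ ∃ x ∈ s, P x
  · obtain ⟨⟨y, hy, hQ⟩, x, hx, hP⟩ := h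
    refine ⟨Equiv.swap (g x) y ∘ g, fun _ => ⟨Set.BijOn.comp ?_ hg, fun _ hu x' hx' hP' => ?_⟩⟩
    · exact Equiv.bijOn_swap (hg.mapsTo hx) hy
    · rw [hu x' hx' x hx hP' hP]; simpa using hQ
  · exact ⟨g, fun _ => ⟨hg, fun h1 _ x hx hP => (h ⟨h1, x, hx, hP⟩).elim⟩⟩

/-- recursion along the depth -/
noncomputable def phiN (T : SimpleGraph α) (a a' : α) (E : α → α → α → α) : ℕ → α → α
  | 0, _ => a'
  | n + 1, v => E (par T a v) (phiN T a a' E n (par T a v)) v

namespace RT

variable [T.LocallyFinite] {b : ℕ} (hT : RT T b)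
include hT

theorem exists_iso {a c a' c' : α} (h : T.dist a c = T.dist a' c') :
    ∃ φ : T ≃g T, φ a = a' ∧ φ c = c' := by
  classical
  have hK := hT.conn
  choose E hE using fun w w' : α =>
    exists_bijOn_marked (ch T a w) (ch T a' w') (fun x => Btw T a x c) fun y => Btw T a' y c'
  set φ : α → α := fun v => phiN T a a' E (T.dist a v) v with hφ
  have φa : φ a = a' := by simp [hφ, phiN]
  have φs : ∀ v ≠ a, φ v = E (par T a v) (φ (par T a v)) v := fun v hv => by
    simp only [hφ]
    rw [← (par_spec hK hv).2, phiN]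
  have hcard : ∀ w w', T.dist a' w' = T.dist a w → (ch T a w).card = (ch T a' w').card := by
    intro w w' e
    by_cases hw : w = a
    · subst hw
      rw [← hK.dist_eq_zero_iff.1 (e.trans dist_self), hT.card_ch_root, hT.card_ch_root]
    · have : w' ≠ a' := by
        rintro rfl
        exact hw (hK.dist_eq_zero_iff.1 (e.symm.trans dist_self)).symm
      rw [hT.card_ch hw, hT.card_ch this]
  have ind : ∀ {P : α → Prop} (r : α), P r → (∀ v ≠ r, P (par T r v) → P v) → ∀ v, P v := by
    intro P r h0 hs v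
    generalize hn : T.dist r v = n
    induction n generalizing v with
    | zero => rwa [← hK.dist_eq_zero_iff.1 hn]
    | succ n ih =>
      have hv : v ≠ r := by rintro rfl; simp at hn
      exact hs v hv (ih _ (by have := (par_spec hK hv).2; omega))
  have mem : ∀ v ≠ a, v ∈ ch T a (par T a v) := fun v hv => (mem_ch_iff hT.tree).2 ⟨hv, rfl⟩
  have dep : ∀ v, T.dist a' (φ v) = T.dist a v := by
    refine ind a (by simp [φa]) fun v hv ih => ?_
    have := (hE _ _ (hcard _ _ ih)).1.mapsTo (mem v hv)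
    rw [← φs v hv] at this
    rw [(mem_ch.1 this).2, ih, (par_spec hK hv).2]
  have φch : ∀ v ≠ a, φ v ∈ ch T a' (φ (par T a v)) := fun v hv => by
    have := (hE _ _ (hcard _ _ (dep _))).1.mapsTo (mem v hv)
    rwa [← φs v hv] at this
  have φne : ∀ v, φ v = a' ↔ v = a := fun v => by
    constructor
    · intro e
      have := dep v
      rw [e, dist_self] at this
      exact (hK.dist_eq_zero_iff.1 this.symm).symm
    · rintro rfl; exact φa
  have φpar : ∀ v ≠ a, par T a' (φ v) = φ (par T a v) := fun v hv =>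
    ((mem_ch_iff hT.tree).1 (φch v hv)).2
  have inj : ∀ v, ∀ v', φ v = φ v' → v = v' := by
    refine ind a (fun v' e => ((φne v').1 (e.symm.trans φa)).symm) fun v hv ih v' e => ?_
    have hv' : v' ≠ a := by
      rintro rfl
      exact hv ((φne v).1 (e.trans φa))
    have hp : par T a v = par T a v' := ih _ (by rw [← φpar v hv, e, φpar v' hv'])
    refine (hE _ _ (hcard _ _ (dep (par T a v)))).1.injOn (mem v hv) (hp ▸ mem v' hv') ?_
    rw [← φs v hv, e, φs v' hv', hp]
  have surj : ∀ v', ∃ v, φ v = v' := by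
    refine ind a' ⟨a, φa⟩ fun v' hv' ⟨w, hw⟩ => ?_
    obtain ⟨v, hv, e⟩ := (hE _ _ (hcard _ _ (dep w))).1.surjOn
      ((mem_ch_iff hT.tree).2 ⟨hv', hw.symm⟩)
    obtain ⟨h1, h2⟩ := (mem_ch_iff hT.tree).1 hv
    exact ⟨v, by rw [φs v h1, h2, e]⟩
  have mark : ∀ u, Btw T a u c → Btw T a' (φ u) c' := by
    refine ind a (fun _ => by rw [φa]; exact btw_left _ _) fun u hu ih hb => ?_
    have hp := par_spec hK hu
    have hb' : Btw T a (par T a u) c := hb.trans_left hK (by
      unfold Btw; rw [dist_eq_one_iff_adj.2 hp.1.symm]; omega)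
    rw [φs u hu]
    refine (hE _ _ (hcard _ _ (dep _))).2 ?_ (fun x hx x' hx' h1 h2 => btw_unique hT.tree h1 h2
      (by rw [(mem_ch.1 hx).2, (mem_ch.1 hx').2])) u (mem u hu) hb
    have i1 := ih hb'
    have hne : φ (par T a u) ≠ c' := by
      intro e
      have := dep (par T a u)
      rw [e, ← h] at this
      unfold Btw at hb
      omega
    obtain ⟨y, hy, hy'⟩ := par_exists hK hne
    have t1 := dist_adj_le hK hy a'
    have t2 := tri hK a' y c'
    rw [dist_comm (u := c'), dist_comm (u := c')] at hy'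
    unfold Btw at *
    exact ⟨y, mem_ch.2 ⟨hy, by omega⟩, by omega⟩
  have key : ∀ v w, (φ v ≠ a' ∧ par T a' (φ v) = φ w) ↔ (v ≠ a ∧ par T a v = w) := fun v w => by
    rw [Ne, φne]
    refine and_congr_right fun hv => ?_
    rw [φpar v hv]
    exact ⟨inj _ _, congrArg φ⟩
  refine ⟨⟨Equiv.ofBijective φ ⟨inj, surj⟩, fun {v w} => ?_⟩, φa, ?_⟩
  · change T.Adj (φ v) (φ w) ↔ T.Adj v w
    rw [adj_iff_par hT.tree a', adj_iff_par hT.tree a, key, key]
  · exact btw_unique hT.tree (mark c (btw_right _ _)) (btw_right _ _) ((dep c).trans h)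

open Classical in
theorem sum_succ_sphere (o : α) (n : ℕ) (f : α → ℝ) :
    ∑ x ∈ (bl hT.conn o (n + 1)).filter (T.dist o · = n + 1), f x =
      ∑ w ∈ (bl hT.conn o n).filter (T.dist o · = n), ∑ x ∈ ch T o w, f x := by
  have hK := hT.conn
  rw [← Finset.sum_biUnion]
  · refine Finset.sum_congr ?_ fun _ _ => rfl
    ext x
    simp only [Finset.mem_filter, mem_bl, Finset.mem_biUnion]
    constructor
    · rintro ⟨-, h⟩
      have hx : x ≠ o := by rintro rfl; simp at h
      have := (par_spec hK hx).2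
      exact ⟨par T o x, ⟨by omega, by omega⟩, (mem_ch_iff hT.tree).2 ⟨hx, rfl⟩⟩
    · rintro ⟨w, ⟨-, h1⟩, h2⟩
      have := (mem_ch.1 h2).2
      omega
  · intro w _ w' _ hne
    rw [Function.onFun, Finset.disjoint_left]
    intro x h1 h2
    exact hne (((mem_ch_iff hT.tree).1 h1).2.symm.trans ((mem_ch_iff hT.tree).1 h2).2)

open Classical in
theorem sum_ch_le {θ : ℝ} (h0 : 0 < θ) (o v w : α) :
    ∑ x ∈ ch T o w, θ ^ T.dist x v ≤ (ch T o w).card * (θ * θ ^ T.dist w v) +
      if Btw T o w v ∧ w ≠ v then θ ^ (T.dist w v - 1) else 0 := by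
  have hK := hT.conn
  have key : ∀ x ∈ ch T o w, θ ^ T.dist x v ≤ θ * θ ^ T.dist w v +
      if T.dist v x + 1 = T.dist v w then θ ^ (T.dist w v - 1) else 0 := fun x hx => by
    split_ifs with h
    · rw [dist_comm (u := x), dist_comm (u := w), ← h]
      simp only [add_tsub_cancel_right, le_add_iff_nonneg_left]
      positivity
    · rcases hT.tree.dist_eq_dist_add_one_of_adj v (mem_ch.1 hx).1 with e | e
      · exact (h e.symm).elim
      · rw [dist_comm (u := x), dist_comm (u := w), e, pow_succ', add_zero]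
  refine (Finset.sum_le_sum key).trans ?_
  rw [Finset.sum_add_distrib, Finset.sum_const, nsmul_eq_mul, ← Finset.sum_filter,
    Finset.sum_const, nsmul_eq_mul]
  gcongr
  have hc : ((ch T o w).filter fun x => T.dist v x + 1 = T.dist v w).card ≤ 1 :=
    Finset.card_le_one.2 fun x hx y hy => by
      rw [Finset.mem_filter, mem_ch] at hx hy
      exact par_unique hT.tree hx.1.1 hy.1.1 hx.2 hy.2
  split_ifs with h
  · have : (((ch T o w).filter fun x => T.dist v x + 1 = T.dist v w).card : ℝ) ≤ 1 := by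
      exact_mod_cast hc
    exact mul_le_of_le_one_left (by positivity) this
  · rw [Finset.filter_eq_empty_iff.2, Finset.card_empty, Nat.cast_zero, zero_mul]
    intro x hx e
    obtain ⟨h1, h2⟩ := mem_ch.1 hx
    have h3 := dist_eq_one_iff_adj.2 h1
    refine h ⟨(btw_dich hT.tree (a := o) (b := w) (c := x) (by unfold Btw; omega) v).resolve_right
      fun h4 => ?_, by rintro rfl; simp at e⟩
    unfold Btw at h4
    rw [dist_comm (u := x) (v := v), dist_comm (u := w) (v := v)] at h4
    omega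

open Classical in
theorem sphere_sum {θ : ℝ} (h0 : 0 < θ) (hθ : θ ^ 2 * b = 1) (o v : α) (n : ℕ) :
    θ ^ n * ∑ x ∈ (bl hT.conn o n).filter (T.dist o · = n), θ ^ T.dist x v ≤
      (n + 2) * θ ^ T.dist o v := by
  have hK := hT.conn
  have hb : (2 : ℝ) ≤ b := by exact_mod_cast hT.two_le
  have step : ∀ (n : ℕ) (k : ℝ), (∀ w, T.dist o w = n → ((ch T o w).card : ℝ) ≤ k) →
      θ ^ (n + 1) * ∑ x ∈ (bl hK o (n + 1)).filter (T.dist o · = n + 1), θ ^ T.dist x v ≤
        k * θ ^ 2 * (θ ^ n * ∑ x ∈ (bl hK o n).filter (T.dist o · = n), θ ^ T.dist x v) +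
          θ ^ T.dist o v := by
    intro n k hk
    rw [hT.sum_succ_sphere]
    have h1 := Finset.sum_le_sum (s := (bl hK o n).filter (T.dist o · = n))
      fun w hw => (hT.sum_ch_le h0 o v w).trans (add_le_add_left (mul_le_mul_of_nonneg_right
        (hk w (Finset.mem_filter.1 hw).2) (by positivity)) _)
    rw [Finset.sum_add_distrib, ← Finset.mul_sum, ← Finset.mul_sum, ← Finset.sum_filter] at h1
    have h2 : θ ^ (n + 1) * ∑ w ∈ ((bl hK o n).filter (T.dist o · = n)).filter
        (fun w => Btw T o w v ∧ w ≠ v), θ ^ (T.dist w v - 1) ≤ θ ^ T.dist o v := by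
      rw [Finset.mul_sum, Finset.sum_congr rfl (g := fun _ => θ ^ T.dist o v), Finset.sum_const,
        nsmul_eq_mul]
      · refine mul_le_of_le_one_left (by positivity) ?_
        exact_mod_cast Finset.card_le_one.2 fun x hx y hy => by
          simp only [Finset.mem_filter] at hx hy
          exact btw_unique hT.tree hx.2.1 hy.2.1 (hx.1.2.trans hy.1.2.symm)
      · intro w hw
        simp only [Finset.mem_filter] at hw
        have := hK.pos_dist_of_ne hw.2.2
        have := hw.2.1
        rw [← pow_add]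
        congr 1
        unfold Btw at this
        omega
    have h3 := mul_le_mul_of_nonneg_left h1 (pow_nonneg h0.le (n + 1))
    refine h3.trans ?_
    rw [mul_add]
    exact add_le_add (le_of_eq (by ring)) h2
  have p0 : 0 < θ ^ T.dist o v := by positivity
  have base : θ ^ 0 * ∑ x ∈ (bl hK o 0).filter (T.dist o · = 0), θ ^ T.dist x v =
      θ ^ T.dist o v := by
    have : (bl hK o 0).filter (T.dist o · = 0) = {o} := by
      ext x
      simp only [Finset.mem_filter, mem_bl, Finset.mem_singleton, Nat.le_zero, and_self,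
        hK.dist_eq_zero_iff, eq_comm]
    rw [this]; simp
  induction n with
  | zero => rw [base]; simp only [Nat.cast_zero, zero_add]; linarith
  | succ n ih =>
    rcases Nat.eq_zero_or_pos n with rfl | hn
    · have := step 0 (b + 1) fun w hw => by
        rw [← hK.dist_eq_zero_iff.1 hw, hT.card_ch_root]; simp
      rw [base] at this
      refine this.trans ?_
      have : θ ^ 2 ≤ 1 := by nlinarith [sq_nonneg θ]
      push_cast
      nlinarith
    · have := step n b fun w hw => by
        rw [hT.card_ch (by rintro rfl; simp at hw; omega)]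
      rw [mul_comm (b : ℝ), hθ, one_mul] at this
      push_cast
      linarith

/-- the convolution estimate -/
theorem conv_sum {θ s : ℝ} (h0 : 0 < θ) (hθ : θ ^ 2 * b = 1) (s0 : 0 ≤ s) (hs : s < θ) :
    ∃ C : ℝ, 0 ≤ C ∧ ∀ (o v : α) (W : Finset α),
      ∑ w ∈ W, s ^ T.dist o w * θ ^ T.dist w v ≤ C * θ ^ T.dist o v := by
  classical
  have hK := hT.conn
  have r0 : 0 ≤ s / θ := by positivity
  have r1 : s / θ < 1 := (div_lt_one h0).2 hs
  have hsum : Summable fun n : ℕ => ((n : ℝ) + 2) * (s / θ) ^ n := by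
    have h1 := summable_pow_mul_geometric_of_norm_lt_one 1 (r := s / θ)
      (by rwa [Real.norm_of_nonneg r0])
    have h2 := (summable_geometric_of_lt_one r0 r1).mul_left 2
    simpa [add_mul] using h1.add h2
  refine ⟨∑' n : ℕ, ((n : ℝ) + 2) * (s / θ) ^ n, tsum_nonneg fun n => by positivity,
    fun o v W => ?_⟩
  rw [← Finset.sum_fiberwise_of_maps_to (t := W.image (T.dist o))
    (fun w hw => Finset.mem_image_of_mem _ hw)]
  refine le_trans ?_ (mul_le_mul_of_nonneg_right
    (hsum.sum_le_tsum (W.image (T.dist o)) fun n _ => by positivity) (by positivity))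
  rw [Finset.sum_mul]
  refine Finset.sum_le_sum fun n _ => ?_
  have h1 := hT.sphere_sum h0 hθ o v n
  calc ∑ w ∈ W.filter (T.dist o · = n), s ^ T.dist o w * θ ^ T.dist w v
      = ∑ w ∈ W.filter (T.dist o · = n), s ^ n * θ ^ T.dist w v :=
        Finset.sum_congr rfl fun w hw => by rw [(Finset.mem_filter.1 hw).2]
    _ ≤ ∑ w ∈ (bl hK o n).filter (T.dist o · = n), s ^ n * θ ^ T.dist w v :=
        Finset.sum_le_sum_of_subset_of_nonneg (fun w hw => by
          have := (Finset.mem_filter.1 hw).2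
          exact Finset.mem_filter.2 ⟨(mem_bl hK).2 this.le, this⟩) fun _ _ _ => by positivity
    _ = (s / θ) ^ n * (θ ^ n * ∑ w ∈ (bl hK o n).filter (T.dist o · = n), θ ^ T.dist w v) := by
        rw [← Finset.mul_sum, ← mul_assoc, ← mul_pow, div_mul_cancel₀ _ h0.ne']
    _ ≤ (s / θ) ^ n * ((n + 2) * θ ^ T.dist o v) := by gcongr
    _ = _ := by ring

end RT

end Pool.Agent.P.MP_3aa27f_pr
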