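import Pool.Agent.P.MP_3aa27f_pr.Conn
import Pool.Agent.P.MP_3aa27f_pr.Tree2

/-! Crossing strategies and point-to-fibre bounds in `T □ H`. -/

open MeasureTheory ProbabilityTheory unitInterval SimpleGraph

namespace Pool.Agent.P.MP_3aa27f_pr

variable {α β : Type*} {T : SimpleGraph α} {H : SimpleGraph β}

/-- transitive graphs of subexponential growth -/
structure HH (H : SimpleGraph β) [H.LocallyFinite] : Prop where
  conn : H.Connected
  trans : ∀ h h', ∃ ψ : H ≃g H, ψ h = h'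
  growth : ∀ c : ℝ, 1 < c → ∃ C : ℝ, ∀ h n, ((bl conn h n).card : ℝ) ≤ C * c ^ n

/-- product of automorphisms -/
def prodIso (φ : T ≃g T) (ψ : H ≃g H) : T.boxProd H ≃g T.boxProd H where
  toEquiv := φ.toEquiv.prodCongr ψ.toEquiv
  map_rel_iff' := by
    intro x y
    change (T.boxProd H).Adj (φ x.1, ψ x.2) (φ y.1, ψ y.2) ↔ _
    simp only [boxProd_adj, Iso.map_adj_iff, EmbeddingLike.apply_eq_iff_eq]

theorem prodIso_apply (φ : T ≃g T) (ψ : H ≃g H) (x : α × β) : prodIso φ ψ x = (φ x.1, ψ x.2) := rfl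

/-- product of balls -/
def Box (T : SimpleGraph α) (H : SimpleGraph β) (a : α) (h : β) (R L : ℕ) : Set (α × β) :=
  {z | T.dist a z.1 ≤ R ∧ H.dist h z.2 ≤ L}

/-- fibre -/
def Fib (v : α) : Set (α × β) := {z | z.1 = v}

/-- upper bound for point-to-point connection probabilities -/
def UB (T : SimpleGraph α) (H : SimpleGraph β) (p : I) (ξ : ℝ) : Prop :=
  ∀ (a c : α) (h : β) (F : Set (Sym2 (α × β))), F.Finite →
    Pr (fun _ => p) (Cn (T.boxProd H) F (a, h) (c, h)) ≤ ξ ^ T.dist a c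

/-- lower bound for one block -/
def LB (T : SimpleGraph α) (H : SimpleGraph β) (p : I) (ξ : ℝ) (r R : ℕ) : Prop :=
  1 ≤ r ∧ ∀ (a c : α) (h : β), T.dist a c = r →
    ξ ^ r ≤ Pr (fun _ => p) (Cn (T.boxProd H) (EIn (Box T H a h R R)) (a, h) (c, h))

/-- slab edges -/
def SE (T : SimpleGraph α) (β : Type*) (a c : α) : Set (Sym2 (α × β)) :=
  {e | (∀ z ∈ e, z.1 ∈ Sl T a c) ∧ ¬ ∀ z ∈ e, z.1 = c}

/-- trimmed tube -/
def STube (T : SimpleGraph α) (R : ℕ) (a c : α) : Set α :=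
  {w | ∃ u, Btw T a u c ∧ T.dist u w ≤ R ∧ T.dist u w ≤ T.dist u a ∧ T.dist u w ≤ T.dist u c}

/-- strategy edges -/
def StE (T : SimpleGraph α) (H : SimpleGraph β) (R : ℕ) (a c : α) (h : β) :
    Set (Sym2 (α × β)) :=
  {e | (∀ z ∈ e, z.1 ∈ STube T R a c ∧ H.dist h z.2 ≤ R ∧ T.dist a z.1 ≤ T.dist a c) ∧
    ∃ z ∈ e, T.dist a z.1 < T.dist a c}

theorem exists_box {F : Set (Sym2 (α × β))} (hF : F.Finite) (a : α) (h : β) :
    ∃ R, F ⊆ EIn (Box T H a h R R) := by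
  have h1 : (⋃ e ∈ F, {z | z ∈ e}).Finite := hF.biUnion fun e _ => by
    induction e using Sym2.ind with
    | _ x y => exact (Set.toFinite {x, y}).subset fun z hz => by simpa using hz
  obtain ⟨R, hR⟩ := (h1.image fun z => T.dist a z.1 + H.dist h z.2).bddAbove
  refine ⟨R, fun e he z hz => ?_⟩
  have : T.dist a z.1 + H.dist h z.2 ≤ R := hR ⟨z, Set.mem_biUnion he hz, rfl⟩
  exact ⟨by omega, by omega⟩

theorem StE_sub_SE (hK : T.Connected) (R : ℕ) (a c : α) (h : β) :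
    StE T H R a c h ⊆ SE T β a c := by
  rintro e ⟨h1, z, hz, h2⟩
  refine ⟨fun z hz => ?_, fun h3 => ?_⟩
  · obtain ⟨u, hu, -, h4, h5⟩ := (h1 z hz).1
    exact mem_Sl_of_near hK hu h4 h5
  · rw [h3 z hz] at h2; exact lt_irrefl _ h2

theorem SE_left (hK : T.Connected) {a b c : α} (h : Btw T a b c) (hbc : b ≠ c) :
    SE T β a b ⊆ SE T β a c := by
  rintro e ⟨h1, -⟩
  refine ⟨fun z hz => Sl_left hK h (h1 z hz), fun h3 => ?_⟩
  have := h1 e.out.1 (Sym2.out_fst_mem e)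
  rw [h3 _ (Sym2.out_fst_mem e)] at this
  exact hbc (this.2 h).symm

theorem SE_right (hK : T.Connected) {a b c : α} (h : Btw T a b c) : SE T β b c ⊆ SE T β a c :=
  fun _ ⟨h1, h2⟩ => ⟨fun z hz => Sl_right hK h (h1 z hz), h2⟩

theorem SE_disjoint (hT : T.IsTree) {a b c : α} (h : Btw T a b c) :
    Disjoint (SE T β a b) (SE T β b c) :=
  Set.disjoint_left.2 fun _ h1 h2 => h1.2 fun z hz => Sl_inter hT h (h1.1 z hz) (h2.1 z hz)

theorem le_of_growth {q x : ℝ} {L : ℕ} (hx : 0 ≤ x)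
    (h : ∀ c : ℝ, 1 < c → ∃ C : ℝ, ∀ k : ℕ, q ^ (k + 1) ≤ C * (c ^ L * x) ^ (k + 1)) : q ≤ x := by
  have h1 : ∀ c : ℝ, 1 < c → q ≤ c ^ L * x := fun c hc => by
    obtain ⟨C, hC⟩ := h c hc
    have y0 : 0 ≤ c ^ L * x := by positivity
    generalize c ^ L * x = y at hC y0
    by_contra! hlt
    rcases y0.eq_or_lt with rfl | y0
    · have := hC 0
      simp at this
      linarith
    · obtain ⟨k, hk⟩ := pow_unbounded_of_one_lt C ((one_lt_div y0).2 hlt)
      have h2 := hC k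
      rw [← div_le_iff₀ (by positivity), ← div_pow] at h2
      have : (q / y) ^ k ≤ (q / y) ^ (k + 1) :=
        pow_le_pow_right₀ ((one_lt_div y0).2 hlt).le (by omega)
      linarith
  have h2 : Filter.Tendsto (fun c : ℝ => c ^ L * x) (nhdsWithin 1 (Set.Ioi 1)) (nhds x) := by
    have : Continuous fun c : ℝ => c ^ L * x := by fun_prop
    simpa using (this.tendsto 1).mono_left nhdsWithin_le_nhds
  exact ge_of_tendsto h2 (eventually_nhdsWithin_of_forall h1)

variable [T.LocallyFinite] [H.LocallyFinite] {b : ℕ}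

theorem Box_finite (hK : T.Connected) (hH : H.Connected) (a : α) (h : β) (R L : ℕ) :
    (Box T H a h R L).Finite := (ball_finite hK a R).prod (ball_finite hH h L)

theorem StE_finite (hK : T.Connected) (hH : H.Connected) (R : ℕ) (a c : α) (h : β) :
    (StE T H R a c h).Finite :=
  (EIn_finite (Box_finite hK hH a h (T.dist a c) R)).subset fun _ he z hz =>
    ⟨(he.1 z hz).2.2, (he.1 z hz).2.1⟩

theorem LB_of_not_UB (hT : RT T b) (hH : HH H) {p : I} {ξ : ℝ} (h : ¬ UB T H p ξ) :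
    ∃ r R, LB T H p ξ r R := by
  simp only [UB, not_forall, not_le] at h
  obtain ⟨a, c, h, F, hF, hlt⟩ := h
  obtain ⟨R, hR⟩ := exists_box (T := T) (H := H) hF a h
  refine ⟨T.dist a c, R, Nat.one_le_iff_ne_zero.2 fun h0 => ?_, fun a' c' h' e => ?_⟩
  · rw [h0, pow_zero] at hlt
    exact hlt.not_ge (Pr_le_one _ _)
  · obtain ⟨φ, h1, h2⟩ := hT.exists_iso e.symm
    obtain ⟨ψ, h3⟩ := hH.trans h h'
    have := Pr_Rch_map (G := T.boxProd H) (Z := {(c, h)}) (Z' := {(c', h')})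
      (F' := EIn (Box T H a' h' R R)) p (prodIso φ ψ) hF (fun e he z hz => by
        obtain ⟨z, hz', rfl⟩ := Sym2.mem_map.1 hz
        have := hR he z hz'
        rw [← h1, ← h3]
        exact ⟨(dist_iso hT.conn φ _ _).trans_le this.1, (dist_iso hH.conn ψ _ _).trans_le this.2⟩)
      (by rintro z rfl; rw [prodIso_apply, h2, h3]; rfl) (a, h)
    rw [Rch_single, Rch_single, prodIso_apply, h1, h3] at this
    exact hlt.le.trans this

theorem strat_straight (hK : T.Connected) (hH : H.Connected) (p : I) (R : ℕ) {a c u u' : α}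
    (h : β) (h1 : Btw T a u c) (h2 : Btw T u u' c) :
    (p : ℝ) ^ T.dist u u' ≤ Pr (fun _ => p) (Cn (T.boxProd H) (StE T H R a c h) (u, h) (u', h)) := by
  refine Pr_geo hK (T.boxProdLeft H h).toHom p (StE_finite hK hH R a c h) u' _ u rfl
    fun x y hxy e1 e2 => ?_
  have b1 : Btw T a x c := h1.trans_right hK (h2.trans_left hK e1)
  have b2 : Btw T u y u' := by
    have := dist_adj_le hK hxy u
    have := tri hK u y u'
    unfold Btw; omega
  have b3 : Btw T a y c := h1.trans_right hK (h2.trans_left hK b2)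
  have b4 := h2.inner_left hK e1
  refine ⟨fun z hz => ?_, (x, h), Sym2.mem_mk_left _ _, ?_⟩
  · rcases Sym2.mem_iff.1 hz with rfl | rfl
    · exact ⟨⟨x, b1, by simp, by simp, by simp⟩, by simp, by
        change T.dist a x ≤ _; unfold Btw at b1; omega⟩
    · exact ⟨⟨y, b3, by simp, by simp, by simp⟩, by simp, by
        change T.dist a y ≤ _; unfold Btw at b3; omega⟩
  · change T.dist a x < _
    unfold Btw at *; omega

/-- the crossing strategy -/
theorem strat (hT : RT T b) (hH : HH H) {p : I} {ξ : ℝ} {r R : ℕ} (hL : LB T H p ξ r R)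
    (ξ0 : 0 ≤ ξ) (ξ1 : ξ ≤ 1) (a c : α) (h : β) : (p : ℝ) ^ (2 * R + r) * ξ ^ T.dist a c ≤
      Pr (fun _ => p) (Cn (T.boxProd H) (StE T H R a c h) (a, h) (c, h)) := by
  have hK := hT.conn
  have hF := StE_finite hK hH.conn R a c h
  have p0 : (0 : ℝ) ≤ p := p.2.1
  have p1 : (p : ℝ) ≤ 1 := p.2.2
  have r1 := hL.1
  by_cases hn : T.dist a c < 2 * R
  · refine le_trans ?_ (strat_straight hK hH.conn p R h (btw_left a c) (btw_right a c))
    exact (mul_le_of_le_one_right (by positivity) (pow_le_one₀ ξ0 ξ1)).trans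
      (pow_le_pow_of_le_one p0 p1 (by omega))
  have key : ∀ i, 2 * R + i * r ≤ T.dist a c → ∀ u, Btw T a u c → T.dist a u = R + i * r →
      (p : ℝ) ^ R * ξ ^ (i * r) ≤
        Pr (fun _ => p) (Cn (T.boxProd H) (StE T H R a c h) (a, h) (u, h)) := by
    intro i
    induction i with
    | zero =>
      intro _ u hu e
      have := strat_straight hK hH.conn p R h (btw_left a c) hu
      simpa [e] using this
    | succ i ih =>
      intro hi u hu e
      rw [Nat.succ_mul i r] at hi e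
      obtain ⟨u₀, h1, h2⟩ := exists_mid hK a u (R + i * r) (by omega)
      have h3 := hu.trans_left hK h1
      have i1 := ih (by omega) u₀ h3 h2
      have i2 := hL.2 u₀ u h (by unfold Btw at h1; omega)
      have i3 : Pr (fun _ => p) (Cn (T.boxProd H) (EIn (Box T H u₀ h R R)) (u₀, h) (u, h)) ≤
          Pr (fun _ => p) (Cn (T.boxProd H) (StE T H R a c h) (u₀, h) (u, h)) := by
        refine Pr_mono (Cn_mono fun e he => ?_)
        have hz : ∀ z ∈ e, T.dist a z.1 < T.dist a c := fun z hz => by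
          have := (he z hz).1
          have := tri hK a u₀ z.1
          omega
        refine ⟨fun z hz' => ⟨⟨u₀, h3, (he z hz').1, ?_, ?_⟩, (he z hz').2, (hz z hz').le⟩,
          _, Sym2.out_fst_mem e, hz _ (Sym2.out_fst_mem e)⟩
        · have := (he z hz').1
          rw [dist_comm (u := u₀) (v := a)]; omega
        · have := (he z hz').1
          unfold Btw at h3; omega
      refine le_trans ?_ (Pr_Cn_Cn _ hF _ (u₀, h) _)
      rw [Nat.succ_mul i r, pow_add, ← mul_assoc]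
      exact mul_le_mul i1 (i2.trans i3) (by positivity) (Pr_nonneg _ _)
  set k := (T.dist a c - 2 * R) / r
  have k1 : k * r ≤ T.dist a c - 2 * R := Nat.div_mul_le_self _ _
  have k2 : T.dist a c - 2 * R < k * r + r := Nat.lt_div_mul_add (by omega)
  obtain ⟨u, h1, h2⟩ := exists_mid hK a c (R + k * r) (by omega)
  have i1 := key k (by omega) u h1 h2
  have i2 := strat_straight hK hH.conn p R h h1 (btw_right u c)
  refine le_trans ?_ (Pr_Cn_Cn _ hF _ (u, h) _)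
  refine le_trans ?_ (mul_le_mul i1 i2 (by positivity) (Pr_nonneg _ _))
  have a1 : ξ ^ T.dist a c ≤ ξ ^ (k * r) := pow_le_pow_of_le_one ξ0 ξ1 (by omega)
  have a2 : (p : ℝ) ^ (R + r) ≤ p ^ T.dist u c :=
    pow_le_pow_of_le_one p0 p1 (by unfold Btw at h1; omega)
  calc (p : ℝ) ^ (2 * R + r) * ξ ^ T.dist a c = p ^ R * ξ ^ T.dist a c * p ^ (R + r) := by ring
    _ ≤ _ := by gcongr

omit [H.LocallyFinite] in
theorem UB_refl (hT : RT T b) {p : I} {ξ : ℝ} (hU : UB T H p ξ) (ξ0 : 0 ≤ ξ) (a c : α)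
    (h h' : β) {F : Set (Sym2 (α × β))} (hF : F.Finite) :
    Pr (fun _ => p) (Cn (T.boxProd H) F (a, h) (c, h')) ≤ ξ ^ T.dist a c := by
  obtain ⟨c', h1, h2⟩ := hT.exists_ext a c (T.dist a c)
  obtain ⟨φ, h3, h4⟩ := hT.exists_iso (a := c) (c := a) (a' := c) (c' := c')
    (by rw [h2, dist_comm])
  set F' := F ∪ Sym2.map (prodIso φ (Iso.refl : H ≃g H)) '' F
  have hF' : F'.Finite := hF.union (hF.image _)
  have i1 := Pr_Rch_map (G := T.boxProd H) (Z := {(c, h')}) (Z' := {(c, h')}) (F' := F') p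
    (prodIso φ Iso.refl) hF (fun e he => Or.inr ⟨e, he, rfl⟩)
    (by rintro z rfl; rw [prodIso_apply, h3]; rfl) (a, h)
  rw [Rch_single, Rch_single, prodIso_apply, h4, Cn_comm (F := F')] at i1
  have i2 : Pr (fun _ => p) (Cn (T.boxProd H) F (a, h) (c, h')) ≤
      Pr (fun _ => p) (Cn (T.boxProd H) F' (a, h) (c, h')) := Pr_mono (Cn_mono Set.subset_union_left)
  have i3 := (mul_le_mul i2 i1 (Pr_nonneg _ _) (Pr_nonneg _ _)).trans
    ((Pr_Cn_Cn _ hF' _ _ _).trans (hU a c' h F' hF'))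
  rw [h1, h2, pow_add] at i3
  exact abs_le_of_sq_le_sq' (by nlinarith) (pow_nonneg ξ0 _) |>.2

/-- part of a fibre -/
def ZL (H : SimpleGraph β) (c : α) (h : β) (L : ℕ) : Set (α × β) :=
  {z | z.1 = c ∧ H.dist h z.2 ≤ L}

theorem chain_fib (hT : RT T b) (hH : HH H) (p : I) {q : ℝ} (q0 : 0 ≤ q) {r L : ℕ} (r1 : 1 ≤ r)
    (h1 : ∀ a c h, T.dist a c = r → ∃ F : Set (Sym2 (α × β)), F.Finite ∧ F ⊆ SE T β a c ∧
      q ≤ Pr (fun _ => p) (Rch (T.boxProd H) F (a, h) (ZL H c h L))) (k : ℕ) :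
    ∀ a c h, T.dist a c = (k + 1) * r → ∃ F : Set (Sym2 (α × β)), F.Finite ∧ F ⊆ SE T β a c ∧
      q ^ (k + 1) ≤ Pr (fun _ => p) (Rch (T.boxProd H) F (a, h) (ZL H c h ((k + 1) * L))) := by
  have hK := hT.conn
  induction k with
  | zero => simpa using h1
  | succ k ih =>
    intro a c h e
    rw [Nat.succ_mul (k + 1) r] at e
    obtain ⟨c₁, b1, b2⟩ := exists_mid hK a c r (by omega)
    have b3 : T.dist c₁ c = (k + 1) * r := by unfold Btw at b1; omega
    have hne : c₁ ≠ c := by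
      rintro rfl
      rw [dist_self, Nat.succ_mul k r] at b3
      omega
    obtain ⟨F₁, f1, f2, f3⟩ := h1 a c₁ h b2
    choose F₂ g1 g2 g3 using fun h₁ => ih c₁ c h₁ b3
    refine ⟨F₁ ∪ ⋃ h₁ ∈ bl hH.conn h L, F₂ h₁,
      f1.union ((Finset.finite_toSet _).biUnion fun h₁ _ => g1 h₁),
      Set.union_subset (f2.trans (SE_left hK b1 hne))
        (Set.iUnion₂_subset fun h₁ _ => (g2 h₁).trans (SE_right hK b1)), ?_⟩
    have hc := Pr_chain (fun _ => p) (bl hH.conn h L)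
      (A := fun h₁ => Cn (T.boxProd H) F₁ (a, h) (c₁, h₁))
      (B := fun h₁ => Rch (T.boxProd H) (F₂ h₁) (c₁, h₁) (ZL H c h₁ ((k + 1) * L)))
      (fun _ _ => Cn_loc f1) (fun h₁ _ => Rch_loc (g1 h₁)) (fun _ _ => Cn_dep.mono f2)
      (fun h₁ _ => Rch_dep.mono (g2 h₁)) (SE_disjoint hT.tree b1) fun h₁ _ => g3 h₁
    have i1 : q ≤ Pr (fun _ => p)
        {ω | ∃ h₁ ∈ bl hH.conn h L, ω ∈ Cn (T.boxProd H) F₁ (a, h) (c₁, h₁)} := by
      refine f3.trans (Pr_mono ?_)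
      rintro ω ⟨⟨z, h₁⟩, ⟨rfl, hz⟩, h2⟩
      exact ⟨h₁, (mem_bl _).2 hz, h2⟩
    rw [pow_succ q (k + 1)]
    refine (mul_le_mul_of_nonneg_left i1 (by positivity)).trans (hc.trans (Pr_mono ?_))
    rintro ω ⟨h₁, m1, m2, z, ⟨m3, m4⟩, m5⟩
    refine ⟨z, ⟨m3, ?_⟩, Cn_trans (Cn_mono Set.subset_union_left m2)
      (Cn_mono ((Set.subset_biUnion_of_mem (u := F₂) m1).trans Set.subset_union_right) m5)⟩
    have := tri hH.conn h h₁ z.2
    have := (mem_bl _).1 m1
    rw [Nat.succ_mul (k + 1) L]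
    omega

/-- the point-to-fibre bound in a slab -/
theorem Q_bound (hT : RT T b) (hH : HH H) {p : I} {ξ : ℝ} (hU : UB T H p ξ) (ξ0 : 0 ≤ ξ)
    {a c : α} (hac : a ≠ c) (h : β) {F : Set (Sym2 (α × β))} (hF : F.Finite)
    (hS : F ⊆ SE T β a c) :
    Pr (fun _ => p) (Rch (T.boxProd H) F (a, h) (Fib c)) ≤ ξ ^ T.dist a c := by
  have hK := hT.conn
  obtain ⟨L, hL⟩ := exists_box (T := T) (H := H) hF a h
  set q := Pr (fun _ => p) (Rch (T.boxProd H) F (a, h) (Fib c))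
  have hq : q ≤ Pr (fun _ => p) (Rch (T.boxProd H) F (a, h) (ZL H c h L)) := by
    refine Pr_mono ?_
    rintro ω ⟨z, hz, h1⟩
    exact ⟨z, ⟨hz, (Cn_mem (Cn_mono hL h1) ⟨by simp, by simp⟩).2⟩, h1⟩
  have hc := chain_fib hT hH p (q := q) (Pr_nonneg _ _) (L := L) (hK.pos_dist_of_ne hac)
    fun a' c' h' e => by
      obtain ⟨φ, h1, h2⟩ := hT.exists_iso e.symm
      obtain ⟨ψ, h3⟩ := hH.trans h h'
      refine ⟨Sym2.map (prodIso φ ψ) '' F, hF.image _, ?_, hq.trans ?_⟩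
      · rintro _ ⟨e, he, rfl⟩
        refine ⟨fun z hz => ?_, fun h4 => (hS he).2 fun z hz => φ.injective ?_⟩
        · obtain ⟨z, hz', rfl⟩ := Sym2.mem_map.1 hz
          rw [← h1, ← h2]
          exact Sl_iso hK φ ((hS he).1 z hz')
        · rw [h2]; exact h4 _ (Sym2.mem_map.2 ⟨z, hz, rfl⟩)
      · have := Pr_Rch_map (G := T.boxProd H) (Z := ZL H c h L) (Z' := ZL H c' h' L) p
          (prodIso φ ψ) hF (fun e he => Set.mem_image_of_mem _ he) (fun z hz => by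
            rw [← h2, ← h3]
            exact ⟨congrArg φ hz.1, (dist_iso hH.conn ψ _ _).trans_le hz.2⟩) (a, h)
        rwa [prodIso_apply, h1, h3] at this
  refine le_of_growth (L := L) (pow_nonneg ξ0 _) fun t ht => ?_
  obtain ⟨C, hC⟩ := hH.growth t ht
  refine ⟨C, fun k => ?_⟩
  obtain ⟨c', -, e⟩ := hT.exists_ext a a ((k + 1) * T.dist a c)
  obtain ⟨F', f1, -, f3⟩ := hc k a c' h e
  have i1 : Pr (fun _ => p) (Rch (T.boxProd H) F' (a, h) (ZL H c' h ((k + 1) * L))) ≤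
      ∑ h' ∈ bl hH.conn h ((k + 1) * L),
        Pr (fun _ => p) (Cn (T.boxProd H) F' (a, h) (c', h')) := by
    refine le_trans (Pr_mono ?_) (Pr_exists_le _ _ _)
    rintro ω ⟨⟨z, h₁⟩, ⟨rfl, hz⟩, h2⟩
    exact ⟨h₁, (mem_bl _).2 hz, h2⟩
  have i2 := Finset.sum_le_card_nsmul (bl hH.conn h ((k + 1) * L)) _ _
    fun h' _ => UB_refl hT hU ξ0 a c' h h' f1
  rw [nsmul_eq_mul, e] at i2
  refine f3.trans (i1.trans (i2.trans ?_))
  refine (mul_le_mul_of_nonneg_right (hC h _) (by positivity)).trans_eq ?_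
  rw [mul_pow, ← pow_mul, ← pow_mul]
  ring

/-- the point-to-fibre bound from a point inside a slab -/
theorem P_bound (hT : RT T b) (hH : HH H) {p : I} {ξ ξ₁ : ℝ} (hU : UB T H p ξ) (ξ0 : 0 ≤ ξ)
    {r R : ℕ} (hL : LB T H p ξ₁ r R) (s0 : 0 ≤ ξ₁) (s1 : ξ₁ ≤ 1) {u o v : α} (hb : Btw T u o v)
    (hov : o ≠ v) (h : β) {F : Set (Sym2 (α × β))} (hF : F.Finite) (hS : F ⊆ SE T β u v) :
    (p : ℝ) ^ (2 * R + r) * ξ₁ ^ T.dist u o * Pr (fun _ => p) (Rch (T.boxProd H) F (o, h) (Fib v)) ≤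
      ξ ^ T.dist u v := by
  have hK := hT.conn
  have hF' := hF.union (StE_finite hK hH.conn R u o h)
  have huv : u ≠ v := by
    rintro rfl
    unfold Btw at hb
    rw [dist_self] at hb
    exact hov (hK.dist_eq_zero_iff.1 (by omega))
  refine le_trans ?_ ((Pr_Cn_Rch _ hF' (u, h) (o, h) (Fib v)).trans (Q_bound hT hH hU ξ0 huv h hF'
    (Set.union_subset hS ((StE_sub_SE hK R u o h).trans (SE_left hK hb hov)))))
  exact mul_le_mul ((strat hT hH hL s0 s1 u o h).trans (Pr_mono (Cn_mono Set.subset_union_right)))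
    (Pr_mono (Rch_mono Set.subset_union_left le_rfl)) (Pr_nonneg _ _) (Pr_nonneg _ _)

end Pool.Agent.P.MP_3aa27f_pr
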