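import Pool.Agent.P.MP_3aa27f_pr.Strat

/-! Tail bounds for the number of points of a cluster in a fibre. -/

open MeasureTheory ProbabilityTheory unitInterval SimpleGraph

namespace Pool.Agent.P.MP_3aa27f_pr

variable {α β : Type*} {T : SimpleGraph α} {H : SimpleGraph β}

open Classical in
/-- expected number of points of the cluster of `x` in `Λ` on the fibre over `v` -/
noncomputable def gg (T : SimpleGraph α) (H : SimpleGraph β) (p : I) (Λ : Finset (α × β))
    (x : α × β) (v : α) : ℝ :=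
  ∑ y ∈ Λ.filter (·.1 = v), Pr (fun _ => p) (Cn (T.boxProd H) (EIn Λ) x y)

open Classical in
/-- number of points of the cluster of `x` in `Λ` on the fibre over `v` -/
noncomputable def NN (T : SimpleGraph α) (H : SimpleGraph β) (Λ : Finset (α × β))
    (x : α × β) (v : α) (ω : Sym2 (α × β) → Bool) : ℕ :=
  ((Λ.filter (·.1 = v)).filter fun y => ω ∈ Cn (T.boxProd H) (EIn Λ) x y).card

theorem gg_nonneg (p : I) (Λ : Finset (α × β)) (x : α × β) (v : α) : 0 ≤ gg T H p Λ x v :=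
  Finset.sum_nonneg fun _ _ => Pr_nonneg _ _

theorem Pr_Rch_le_gg (p : I) {Λ : Finset (α × β)} {x : α × β} (hx : x ∈ Λ) (u : α) :
    Pr (fun _ => p) (Rch (T.boxProd H) (EIn Λ) x (Fib u)) ≤ gg T H p Λ x u := by
  classical
  refine le_trans (Pr_mono ?_) (Pr_exists_le _ _ _)
  rintro ω ⟨z, hz, h⟩
  exact ⟨z, Finset.mem_filter.2 ⟨Cn_mem h hx, hz⟩, h⟩

theorem slab_exit (hT : T.IsTree) {u o v : α} (hb : Btw T u o v) (h : β)
    {F : Set (Sym2 (α × β))} {y : α × β} {ω : Sym2 (α × β) → Bool}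
    (hω : ω ∈ Cn (T.boxProd H) F (o, h) y) :
    ω ∈ Cn (T.boxProd H) (F ∩ SE T β u v) (o, h) y ∨
      ω ∈ Rch (T.boxProd H) (F ∩ SE T β u v) (o, h) (Fib v) ∨
      ω ∈ Rch (T.boxProd H) F (o, h) (Fib u) := by
  set S : Set (α × β) := {z | z.1 ∈ Sl T u v ∧ z.1 ≠ u ∧ z.1 ≠ v}
  have adj : ∀ a ∈ S, ∀ z, (T.boxProd H).Adj a z → z.1 ∈ Sl T u v := fun a ha z hz => by
    rcases boxProd_adj.1 hz with h1 | h1
    · exact Sl_adj hT ha.1 ha.2.1 ha.2.2 h1.1
    · rw [← h1.2]; exact ha.1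
  rcases Cn_exit S hω with h1 | ⟨z, hz, h1, h2, -⟩
  · refine Or.inl (Cn_mono (F := F ∩ EIn S) (fun e he => ?_) h1.2)
    refine ⟨he.1, fun z hz => (he.2 z hz).1, fun h3 => ?_⟩
    exact (he.2 _ (Sym2.out_fst_mem e)).2.2 (h3 _ (Sym2.out_fst_mem e))
  · have h3 : ω ∈ Cn (T.boxProd H) (F ∩ SE T β u v) (o, h) z := by
      refine Cn_mono' (F := F ∩ ETo S) (fun a b hab he => ?_) h2
      refine ⟨he.1, ?_⟩
      obtain ⟨c, hc, hcS⟩ := he.2
      refine ⟨fun z hz => ?_, fun h3 => hcS.2.2 (h3 c hc)⟩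
      rcases Sym2.mem_iff.1 hc with rfl | rfl <;> rcases Sym2.mem_iff.1 hz with rfl | rfl
      exacts [hcS.1, adj _ hcS _ hab, adj _ hcS _ hab.symm, hcS.1]
    have h4 : z.1 ∈ Sl T u v := by
      rcases h1 with rfl | ⟨a, ha, h1⟩
      · exact mem_Sl_of_near hT.connected hb (by simp) (by simp)
      · exact adj a ha z h1
    by_cases h5 : z.1 = u
    · exact Or.inr (Or.inr ⟨z, h5, Cn_mono Set.inter_subset_left h3⟩)
    · exact Or.inr (Or.inl ⟨z, by_contra fun h6 => hz ⟨h4, h5, h6⟩, h3⟩)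

variable [T.LocallyFinite] [H.LocallyFinite] {b : ℕ}

theorem exists_colouring (hH : H.Connected) {ρ χ : ℕ} (hχ : ∀ h, (bl hH h ρ).card ≤ χ)
    (C : Finset β) : ∃ col : β → ℕ, (∀ c ∈ C, col c < χ) ∧
      ∀ c ∈ C, ∀ c' ∈ C, col c = col c' → c ≠ c' → ρ < H.dist c c' := by
  classical
  induction C using Finset.induction_on with
  | empty => exact ⟨fun _ => 0, by simp, by simp⟩
  | insert a C ha ih =>
    obtain ⟨col, h1, h2⟩ := ih
    have hc : (((bl hH a ρ).erase a).image col).card < (Finset.range χ).card := by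
      have := Finset.card_image_le (s := (bl hH a ρ).erase a) (f := col)
      have := Finset.card_erase_lt_of_mem (s := bl hH a ρ) (a := a) ((mem_bl hH).2 (by simp))
      have := hχ a
      rw [Finset.card_range]; omega
    obtain ⟨i, hi, hi'⟩ := Finset.exists_mem_notMem_of_card_lt_card hc
    have key : ∀ c ∈ C, i = col c → ρ < H.dist a c := fun c hc e => by
      by_contra! hle
      exact hi' (Finset.mem_image.2 ⟨c, Finset.mem_erase.2
        ⟨fun h => ha (h ▸ hc), (mem_bl hH).2 hle⟩, e.symm⟩)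
    have upd : ∀ c ∈ C, Function.update col a i c = col c := fun c hc =>
      Function.update_of_ne (fun h : c = a => ha (h ▸ hc)) _ _
    refine ⟨Function.update col a i, fun c hc => ?_, fun c hc c' hc' e hne => ?_⟩
    · rcases Finset.mem_insert.1 hc with rfl | hc
      · simpa using hi
      · rw [upd c hc]; exact h1 c hc
    · rcases Finset.mem_insert.1 hc with rfl | hd <;>
        rcases Finset.mem_insert.1 hc' with rfl | hd'
      · exact (hne rfl).elim
      · rw [upd c' hd', Function.update_self] at e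
        exact key c' hd' e
      · rw [upd c hd, Function.update_self] at e
        rw [SimpleGraph.dist_comm]; exact key c hd e.symm
      · rw [upd c hd, upd c' hd'] at e
        exact h2 c hd c' hd' e hne

/-- a column -/
def Col (T : SimpleGraph α) (H : SimpleGraph β) (R : ℕ) (v v' : α) (c : β) : Set (α × β) :=
  {z | (∃ u, Btw T v u v' ∧ T.dist u z.1 ≤ R ∧ T.dist u z.1 ≤ T.dist u v') ∧ H.dist c z.2 ≤ R}

/-- edges of a column -/
def ColE (T : SimpleGraph α) (H : SimpleGraph β) (R : ℕ) (v v' : α) (c : β) :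
    Set (Sym2 (α × β)) := {e | e ∈ EIn (Col T H R v v' c) ∧ ¬ ∀ z ∈ e, z.1 = v'}

theorem ColE_finite (hK : T.Connected) (hH : H.Connected) (R : ℕ) (v v' : α) (c : β) :
    (ColE T H R v v' c).Finite := by
  refine (EIn_finite (Box_finite hK hH v c (T.dist v v' + R) R)).subset fun e he z hz => ?_
  obtain ⟨⟨u, h1, h2, -⟩, h3⟩ := he.1 z hz
  have := tri hK v u z.1
  unfold Btw at h1
  exact ⟨by omega, h3⟩

theorem col_cross (hT : RT T b) (hH : HH H) {p : I} {ξ : ℝ} {r R : ℕ} (hL : LB T H p ξ r R)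
    (s0 : 0 ≤ ξ) (s1 : ξ ≤ 1) (v v' : α) (c : β) (y : α × β) (hy : y ∈ Col T H R v v' c) :
    (p : ℝ) ^ (4 * R + r) * ξ ^ T.dist v v' ≤
      Pr (fun _ => p) (Rch (T.boxProd H) (ColE T H R v v' c) y (Fib v')) := by
  have hK := hT.conn
  have hF := ColE_finite hK hH.conn R v v' c
  have p0 : (0 : ℝ) ≤ p := p.2.1
  have p1 : (p : ℝ) ≤ 1 := p.2.2
  obtain ⟨w, h⟩ := y
  obtain ⟨⟨u, h1, h2, h3⟩, h4⟩ := hy
  by_cases hw : w = v'
  · have : Rch (T.boxProd H) (ColE T H R v v' c) (w, h) (Fib v') = Set.univ :=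
      Set.eq_univ_of_forall fun ω => ⟨_, hw, Cn_refl _ _ ω⟩
    rw [this, Pr_univ]
    exact mul_le_one₀ (pow_le_one₀ p0 p1) (by positivity) (pow_le_one₀ s0 s1)
  simp only at h2 h3 h4
  have i1 := Pr_geo hH.conn (T.boxProdRight H w).toHom p hF c _ h rfl fun a a' _ e1 e2 => by
    rw [dist_comm (u := h) (v := c), dist_comm (u := a) (v := c)] at e1
    rw [dist_comm (u := a') (v := c), dist_comm (u := a) (v := c)] at e2
    exact ⟨mem_EIn.2 ⟨⟨⟨u, h1, h2, h3⟩, by change H.dist c a ≤ R; omega⟩,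
      ⟨⟨u, h1, h2, h3⟩, by change H.dist c a' ≤ R; omega⟩⟩,
      fun h5 => hw (h5 _ (Sym2.mem_mk_left _ _))⟩
  have i2 := Pr_geo hK (T.boxProdLeft H c).toHom p hF u _ w rfl fun a a' hadj e1 e2 => by
    rw [dist_comm (u := w) (v := u), dist_comm (u := a) (v := u)] at e1
    rw [dist_comm (u := a') (v := u), dist_comm (u := a) (v := u)] at e2
    exact ⟨mem_EIn.2 ⟨⟨⟨u, h1, by change T.dist u a ≤ R; omega,
        by change T.dist u a ≤ _; omega⟩, by simp⟩,
      ⟨⟨u, h1, by change T.dist u a' ≤ R; omega, by change T.dist u a' ≤ _; omega⟩, by simp⟩⟩,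
      fun h5 => hadj.ne ((h5 _ (Sym2.mem_mk_left _ _)).trans (h5 _ (Sym2.mem_mk_right _ _)).symm)⟩
  have i3 : _ ≤ Pr (fun _ => p) (Rch (T.boxProd H) (ColE T H R v v' c) (u, c) (Fib v')) :=
    (strat hT hH hL s0 s1 u v' c).trans (Pr_mono fun ω hω => ⟨(v', c), rfl, Cn_mono
      (F := StE T H R u v' c) (F' := ColE T H R v v' c) (fun e he => ⟨fun z hz => by
        obtain ⟨⟨u', a1, a2, -, a3⟩, a4, -⟩ := he.1 z hz
        exact ⟨⟨u', h1.trans_right hK a1, a2, a3⟩, a4⟩, (StE_sub_SE hK R u v' c he).2⟩) hω⟩)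
  refine le_trans ?_ (Pr_Cn_Rch _ hF _ (w, c) _)
  refine le_trans ?_ (mul_le_mul i1 (Pr_Cn_Rch _ hF _ (u, c) _)
    (mul_nonneg (Pr_nonneg _ _) (Pr_nonneg _ _)) (Pr_nonneg _ _))
  refine le_trans ?_ (mul_le_mul_of_nonneg_left
    (mul_le_mul i2 i3 (by positivity) (Pr_nonneg _ _)) (by positivity))
  have a1 : (p : ℝ) ^ R ≤ p ^ H.dist h c := pow_le_pow_of_le_one p0 p1 (by rwa [SimpleGraph.dist_comm])
  have a2 : (p : ℝ) ^ R ≤ p ^ T.dist w u := pow_le_pow_of_le_one p0 p1 (by rwa [SimpleGraph.dist_comm])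
  have a3 : ξ ^ T.dist v v' ≤ ξ ^ T.dist u v' :=
    pow_le_pow_of_le_one s0 s1 (by unfold Btw at h1; omega)
  calc (p : ℝ) ^ (4 * R + r) * ξ ^ T.dist v v'
      = p ^ R * (p ^ R * (p ^ (2 * R + r) * ξ ^ T.dist v v')) := by ring
    _ ≤ _ := by gcongr

theorem P_bound' (hT : RT T b) (hH : HH H) {p : I} (p0 : (0 : ℝ) < p) {ξ κ : ℝ}
    (hU : UB T H p ξ) (ξ0 : 0 < ξ) (κ0 : 0 < κ) {r R : ℕ} (hL : LB T H p (ξ / κ) r R)
    (s1 : ξ / κ ≤ 1) {u o v : α} (hb : Btw T u o v)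
    (hov : o ≠ v) (h : β) {F : Set (Sym2 (α × β))} (hF : F.Finite) (hS : F ⊆ SE T β u v) :
    Pr (fun _ => p) (Rch (T.boxProd H) F (o, h) (Fib v)) ≤
      κ ^ T.dist u o * ξ ^ T.dist o v / p ^ (2 * R + r) := by
  have := P_bound hT hH hU ξ0.le hL (by positivity) s1 hb hov h hF hS
  rw [hb, pow_add ξ, div_pow] at this
  rw [le_div_iff₀ (by positivity)]
  have h2 := mul_le_mul_of_nonneg_left this (show 0 ≤ κ ^ T.dist u o / ξ ^ T.dist u o by positivity)
  refine le_trans (le_of_eq ?_) (h2.trans_eq ?_) <;> field_simp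

theorem tail_pos (hT : RT T b) (hH : HH H) {p : I} (p0 : (0 : ℝ) < p) {ξ κ : ℝ}
    (hU : UB T H p ξ) (ξ0 : 0 < ξ) (κ0 : 0 < κ) {r R : ℕ} (hL : LB T H p (ξ / κ) r R)
    (s1 : ξ / κ ≤ 1) {χ : ℕ} (hχ : ∀ h, (bl hH.conn h (2 * R)).card ≤ χ) {Λ : Finset (α × β)}
    {o : α} {h : β} (hx : (o, h) ∈ Λ) (v : α) {j m : ℕ} (hj : R ≤ j) (hm : 1 ≤ m) (t : ℕ) :
    ∃ u, T.dist o u = j ∧ Pr (fun _ => p) {ω | χ * t ≤ NN T H Λ (o, h) v ω} ≤
      gg T H p Λ (o, h) u + κ ^ j * ξ ^ (T.dist o v + m) / p ^ (2 * R + r) +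
        χ * (1 - (p : ℝ) ^ (4 * R + r) * (ξ / κ) ^ m) ^ t := by
  classical
  have hK := hT.conn
  obtain ⟨v', b1, e1⟩ := hT.exists_ext o v m
  obtain ⟨u, b2, e2⟩ := hT.exists_ext v' o j
  replace b2 := b2.symm
  refine ⟨u, e2, ?_⟩
  have hov : o ≠ v' := by
    rintro rfl
    unfold Btw at b1
    rw [dist_self] at b1; omega
  set C := (Λ.filter (·.1 = v)).image Prod.snd
  obtain ⟨col, c1, c2⟩ := exists_colouring hH.conn hχ C
  set E : β → Finset (Sym2 (α × β)) := fun c => (ColE_finite hK hH.conn R v v' c).toFinset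
  have hE : ∀ c, (E c : Set (Sym2 (α × β))) = ColE T H R v v' c := fun c => by simp [E]
  set F := (EIn Λ ∩ SE T β u v') ∪ ⋃ c ∈ C, ColE T H R v v' c
  have hF : F.Finite := ((EIn_finite Λ.finite_toSet).inter_of_left _).union
    (C.finite_toSet.biUnion fun c _ => ColE_finite hK hH.conn R v v' c)
  have hS : F ⊆ SE T β u v' := by
    refine Set.union_subset Set.inter_subset_right (Set.iUnion₂_subset fun c _ e he => ?_)
    refine ⟨fun z hz => ?_, he.2⟩
    obtain ⟨⟨u', a1, a2, a3⟩, -⟩ := he.1 z hz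
    have a4 := b1.trans_right hK a1
    have a5 := b2.inner_right hK a4
    refine mem_Sl_of_near hK (b2.trans_right hK a4) ?_ a3
    unfold Btw at a5
    rw [dist_comm (u := u') (v := u), a5, dist_comm (u := u) (v := o)]; omega
  have χ1 : 1 ≤ χ := le_trans (Finset.card_pos.2 ⟨h, (mem_bl _).2 (by simp)⟩) (hχ h)
  have sub : {ω | χ * t ≤ NN T H Λ (o, h) v ω} ⊆ (Rch (T.boxProd H) (EIn Λ) (o, h) (Fib u) ∪
      Rch (T.boxProd H) F (o, h) (Fib v')) ∪ {ω | ∃ i ∈ Finset.range χ, ω ∈ Bad (T.boxProd H) F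
        (o, h) (Fib v') (Col T H R v v') (C.filter (col · = i)) t} := by
    intro ω hω
    by_contra hn
    simp only [Set.mem_union, not_or] at hn
    obtain ⟨⟨n1, n2⟩, n3⟩ := hn
    obtain ⟨i, hi, hi'⟩ := Finset.exists_le_card_fiber_of_mul_le_card_of_maps_to
      (s := (Λ.filter (·.1 = v)).filter fun y => ω ∈ Cn (T.boxProd H) (EIn Λ) (o, h) y)
      (t := Finset.range χ) (f := fun y => col y.2) (n := t)
      (fun y hy => Finset.mem_range.2 (c1 _ (Finset.mem_image_of_mem _ (Finset.mem_filter.1 hy).1)))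
      ⟨0, Finset.mem_range.2 χ1⟩ (by rw [Finset.card_range]; exact hω)
    refine n3 ⟨i, hi, n2, hi'.trans (Finset.card_le_card_of_injOn Prod.snd ?_ ?_)⟩
    · intro y hy
      simp only [Finset.coe_filter, Finset.mem_filter, Set.mem_ofPred_eq] at hy ⊢
      refine ⟨⟨Finset.mem_image_of_mem _ (Finset.mem_filter.2 hy.1.1), hy.2⟩, y,
        ⟨⟨v, btw_left _ _, by simp [hy.1.1.2], by simp [hy.1.1.2]⟩, by simp⟩, ?_⟩
      rcases slab_exit hT.tree b2 h hy.1.2 with h1 | h1 | h1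
      · exact Cn_mono Set.subset_union_left h1
      · exact (n2 (Rch_mono Set.subset_union_left le_rfl h1)).elim
      · exact (n1 h1).elim
    · intro y hy y' hy' e
      simp only [Finset.coe_filter, Finset.mem_filter, Set.mem_ofPred_eq] at hy hy'
      exact Prod.ext (hy.1.1.2.trans hy'.1.1.2.symm) e
  refine (Pr_mono sub).trans ((Pr_union_le _ _ _).trans (add_le_add ((Pr_union_le _ _ _).trans
    (add_le_add (Pr_Rch_le_gg p hx u) ?_)) ((Pr_exists_le _ _ _).trans ?_)))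
  · have := P_bound' hT hH p0 hU ξ0 κ0 hL s1 b2 hov h hF hS
    rwa [dist_comm (u := u), e2, b1, e1] at this
  · have := Finset.sum_le_card_nsmul (Finset.range χ) _ _ fun i _ =>
      hazard (G := T.boxProd H) (x := (o, h)) (Z := Fib v') (fun _ => p) hF (Col T H R v v') E
        (β := (p : ℝ) ^ (4 * R + r) * (ξ / κ) ^ m)
        (mul_le_one₀ (pow_le_one₀ p.2.1 p.2.2) (by positivity) (pow_le_one₀ (by positivity) s1))
        (C.filter (col · = i)) (fun c hc e he => by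
          rw [hE] at he
          exact ⟨Or.inr (Set.mem_biUnion (Finset.mem_filter.1 hc).1 he), he.1⟩)
        (fun c hc c' hc' hne => by
          simp only [Finset.coe_filter, Set.mem_ofPred_eq] at hc hc'
          have h3 := c2 c hc.1 c' hc'.1 (hc.2.trans hc'.2.symm) hne
          rw [Function.onFun, ← Finset.disjoint_coe, hE, hE, Set.disjoint_left]
          intro e a1 a2
          have a3 := (a1.1 _ (Sym2.out_fst_mem e)).2
          have a4 := (a2.1 _ (Sym2.out_fst_mem e)).2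
          have := tri hH.conn c e.out.1.2 c'
          rw [dist_comm (u := c')] at a4
          omega)
        (fun c _ y hy => by
          rw [hE, ← e1]; exact col_cross hT hH hL (by positivity) s1 v v' c y hy) t
    simpa using this

theorem tail_zero (hT : RT T b) (hH : HH H) {p : I} (p0 : (0 : ℝ) < p) {ξ κ : ℝ}
    (hU : UB T H p ξ) (ξ0 : 0 < ξ) (κ1 : 1 ≤ κ) {r R : ℕ} (hL : LB T H p (ξ / κ) r R)
    (s1 : ξ / κ ≤ 1) {Λ : Finset (α × β)} {o : α} {h : β} (hx : (o, h) ∈ Λ) (v : α) (j : ℕ) :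
    ∃ u, T.dist o u = j ∧ Pr (fun _ => p) {ω | 1 ≤ NN T H Λ (o, h) v ω} ≤
      gg T H p Λ (o, h) u + κ ^ j * ξ ^ T.dist o v / p ^ (2 * R + r) := by
  classical
  obtain ⟨u, b2, e2⟩ := hT.exists_ext v o j
  replace b2 := b2.symm
  refine ⟨u, e2, ?_⟩
  by_cases hov : o = v
  · refine (Pr_le_one _ _).trans (le_add_of_nonneg_of_le (gg_nonneg _ _ _ _) ?_)
    rw [hov, dist_self, pow_zero, mul_one, one_le_div (by positivity)]
    exact (pow_le_one₀ p.2.1 p.2.2).trans (one_le_pow₀ κ1)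
  have := P_bound' hT hH p0 hU ξ0 (by linarith) hL s1 b2 hov h
    ((EIn_finite Λ.finite_toSet).inter_of_left _) Set.inter_subset_right
  rw [dist_comm (u := u), e2] at this
  refine le_trans (Pr_mono ?_) ((Pr_union_le _ _ _).trans (add_le_add (Pr_Rch_le_gg p hx u) this))
  intro ω hω
  obtain ⟨y, hy⟩ := Finset.card_pos.1 hω
  simp only [Finset.mem_filter] at hy
  rcases slab_exit hT.tree b2 h hy.2 with h1 | h1 | h1
  exacts [Or.inr ⟨y, hy.1.2, h1⟩, Or.inr h1, Or.inl h1]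

end Pool.Agent.P.MP_3aa27f_pr
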